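import Pool.Agent.Helper45.NZ.CaseP

/-!
# Project NZ: curves with infinitely many periodic points
-/

set_option autoImplicit false

namespace Pool.Agent.Helper45.NZ

open MvPolynomial
open Pool.Agent.Helper36 (step iter)
open Pool.Agent.Helper38.TQ
open Pool.Agent.Helper38.TNA
open Pool.Agent.Helper63.TN

variable {ν : ℕ}

/-- The curve contains arbitrarily many periodic points. -/
def ManyPerA {A : Type} [Field A] (I : Ideal (MvPolynomial (Fin (ν + 1)) A))
    (F : Fin (ν + 1) → MvPolynomial (Fin (ν + 1)) A) : Prop :=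
  ∀ s : ℕ, ∃ w : Fin s → Fin (ν + 1) → A, (∀ j, OnI I (w j) ∧ IsPer F (w j)) ∧
    ∀ i j, i ≠ j → ¬ PEq (w i) (w j)

variable {A : Type} [Field A] [CharZero A] [IsAlgClosed A] [Algebra.IsAlgebraic ℚ A]
  [Algebra A ℂ]

theorem pre_of_per {d : ℕ} {F : Fin (ν + 1) → MvPolynomial (Fin (ν + 1)) A}
    (hF : IsEndo d fun i => map (algebraMap A ℂ) (F i)) {w : Fin (ν + 1) → A} (hw : w ≠ 0)
    (h : IsPer F w) : IsPre F w := by
  obtain ⟨M, hM, γ, hγ⟩ := h
  refine ⟨0, M, hM, γ, ?_, hγ⟩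
  rintro rfl
  rw [zero_smul] at hγ
  exact iter_ne_zeroL hF hw M hγ

/-- On a curve which is not periodic but contains many periodic points there are only finitely
many points of an infinite orbit. -/
theorem caseA {d : ℕ} {F : Fin (ν + 1) → MvPolynomial (Fin (ν + 1)) A}
    (hF : IsEndo d fun i => map (algebraMap A ℂ) (F i))
    {I : Ideal (MvPolynomial (Fin (ν + 1)) A)} (hI : IsCurve I)
    (hnp : NonPer I F) (hmany : ManyPerA I F) {x : Fin (ν + 1) → A} (hx : x ≠ 0)
    (hdist : ∀ n m, n < m → ¬ PEq (iter F x n) (iter F x m)) :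
    {n | OnI I (iter F x n)}.Finite := by
  refine caseP hF hI hnp (fun s => ?_) hx hdist
  obtain ⟨w, hw, hne⟩ := hmany s
  exact ⟨w, fun j => ⟨(hw j).1, pre_of_per hF (hw j).1.1 (hw j).2⟩, hne⟩

end Pool.Agent.Helper45.NZ
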