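import Pool.Agent.Helper29.TG.SG
import Pool.Agent.Helper38.TQ.Defs

/-!
# Project NZ: from ultrafilters to return sets
-/

set_option autoImplicit false

namespace Pool.Agent.Helper45.NZ

open Pool.Agent.Helper33.SS (SGood Sparse)
open Pool.Agent.Helper38.TQ (Free)

theorem Ultra_sparse {T : Set ℕ} (hT : T.Finite) : Sparse T := by
  refine ⟨2, 1, T.ncard, by norm_num, one_pos, fun n m _ => ?_⟩
  exact Set.ncard_le_ncard Set.inter_subset_left hT

/-- A set is a finite union of good sets if this is true for every free ultrafilter which contains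
it. -/
theorem sgood_of_ultra {S : Set ℕ} (h : ∀ U : Ultrafilter ℕ, Free U → S ∈ (U : Filter ℕ) →
    ∃ T : Set ℕ, T ∈ (U : Filter ℕ) ∧ T ⊆ S ∧ SGood T) : SGood S := by
  by_contra hS
  have h0 : SGood (∅ : Set ℕ) := SGood.of_sparse (Ultra_sparse Set.finite_empty)
  let F : Filter ℕ :=
    { sets := {A | ∃ (T : Set ℕ) (m : ℕ), T ⊆ S ∧ SGood T ∧ (S \ T) ∩ Set.Ici m ⊆ A}
      univ_sets := ⟨∅, 0, Set.empty_subset _, h0, Set.subset_univ _⟩
      sets_of_superset := fun {A B} hA hAB => by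
        obtain ⟨T, m, h1, h2, h3⟩ := hA
        exact ⟨T, m, h1, h2, h3.trans hAB⟩
      inter_sets := fun {A B} hA hB => by
        obtain ⟨T, m, h1, h2, h3⟩ := hA
        obtain ⟨T', m', h1', h2', h3'⟩ := hB
        refine ⟨T ∪ T', max m m', Set.union_subset h1 h1', h2.union h2', ?_⟩
        rintro n ⟨⟨k1, k2⟩, k3⟩
        rw [Set.mem_Ici, max_le_iff] at k3
        rw [Set.mem_union, not_or] at k2
        exact ⟨h3 ⟨⟨k1, k2.1⟩, k3.1⟩, h3' ⟨⟨k1, k2.2⟩, k3.2⟩⟩ }
  have hmem : ∀ A : Set ℕ, A ∈ F ↔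
      ∃ (T : Set ℕ) (m : ℕ), T ⊆ S ∧ SGood T ∧ (S \ T) ∩ Set.Ici m ⊆ A := fun A => Iff.rfl
  have hne : F.NeBot := by
    rw [Filter.neBot_iff]
    intro hb
    have h1 : (∅ : Set ℕ) ∈ F := by
      rw [hb]
      exact Filter.mem_bot
    obtain ⟨T, m, h2, h3, h4⟩ := (hmem _).1 h1
    apply hS
    have h5 : S = T ∪ (S ∩ Set.Iio m) := by
      ext n
      constructor
      · intro hn
        by_cases hT : n ∈ T
        · exact Or.inl hT
        · right
          refine ⟨hn, ?_⟩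
          by_contra hm
          rw [Set.mem_Iio, not_lt] at hm
          exact h4 ⟨⟨hn, hT⟩, hm⟩
      · rintro (hn | hn)
        · exact h2 hn
        · exact hn.1
    rw [h5]
    exact h3.union (SGood.of_sparse (Ultra_sparse ((Set.finite_Iio m).subset
      Set.inter_subset_right)))
  have hle : ((Ultrafilter.of F : Ultrafilter ℕ) : Filter ℕ) ≤ F := Ultrafilter.of_le F
  have hfree : Free (Ultrafilter.of F) := by
    intro m
    refine hle ((hmem _).2 ⟨∅, m, Set.empty_subset _, h0, ?_⟩)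
    rintro n ⟨_, hn⟩
    exact hn
  have hSU : S ∈ ((Ultrafilter.of F : Ultrafilter ℕ) : Filter ℕ) := by
    refine hle ((hmem _).2 ⟨∅, 0, Set.empty_subset _, h0, ?_⟩)
    rintro n ⟨⟨hn, _⟩, _⟩
    exact hn
  obtain ⟨T, h1, h2, h3⟩ := h _ hfree hSU
  have h4 : S \ T ∈ ((Ultrafilter.of F : Ultrafilter ℕ) : Filter ℕ) := by
    refine hle ((hmem _).2 ⟨T, 0, h2, h3, ?_⟩)
    rintro n ⟨hn, _⟩
    exact hn
  have h5 := Filter.inter_mem h1 h4
  rw [Set.inter_sdiff_self] at h5
  exact (Ultrafilter.of F).empty_notMem h5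

end Pool.Agent.Helper45.NZ
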