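import Pool.Agent.Helper45.NZ.Defs
import Pool.Agent.Helper88.ZN.Ext

/-!
# Project NZ: extension of the absolute values of a number field
-/

set_option autoImplicit false

namespace Pool.Agent.Helper45.NZ

open MvPolynomial Height AdmissibleAbsValues
open Pool.Agent.Helper29.TG (nm ls FS Mem)

/-- An absolute value given by an embedding in the complex numbers is not nonarchimedean. -/
theorem ext_not_na {B : Type} [Field B] {W : AbsoluteValue B ℝ} {τ : B →+* ℂ}
    (h : ∀ a, W a = ‖τ a‖) : ¬ IsNonarchimedean W := by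
  intro hna
  have h1 : W ((1 : B) + 1) ≤ max (W 1) (W 1) := hna 1 1
  rw [max_self, map_one, h, map_add, map_one] at h1
  have h2 : ‖(1 : ℂ) + 1‖ = 2 := by norm_num
  rw [h2] at h1
  norm_num at h1

variable {A : Type} [Field A] [CharZero A] {M : Type} [Field M] [NumberField M] [Algebra M A]

omit [CharZero A] [Algebra M A] in
theorem ext_arch_place {v : AbsoluteValue M ℝ} (hv : v ∈ archAbsVal (K := M)) :
    ∃ φ : M →+* ℂ, ∀ a, v a = ‖φ a‖ := by
  have hv' : v ∈ NumberField.multisetInfinitePlace M := hv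
  rw [NumberField.mem_multisetInfinitePlace] at hv'
  obtain ⟨φ, hφ⟩ := hv'
  exact ⟨φ, fun a => by rw [← hφ]; rfl⟩

/-- The absolute values of a number field extend to the algebraic numbers. -/
theorem exists_ext [Algebra.IsAlgebraic ℚ A] {v : AbsoluteValue M ℝ} (hv : Mem v) :
    ∃ W : AbsoluteValue A ℝ, Pl W ∧ (∀ a : M, W (algebraMap M A a) = v a) ∧
      (IsNonarchimedean v ↔ IsNonarchimedean W) := by
  have halg : Algebra.IsAlgebraic M A := Algebra.IsAlgebraic.tower_top (K := ℚ) M
  rcases hv with hv | hv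
  · obtain ⟨φ, hφ⟩ := ext_arch_place hv
    let _ : Algebra M ℂ := φ.toAlgebra
    let τ : A →ₐ[M] ℂ := IsAlgClosed.lift
    refine ⟨NumberField.place τ.toRingHom, Or.inr ⟨τ.toRingHom, fun a => rfl⟩, fun a => ?_,
      iff_of_false (ext_not_na hφ) (ext_not_na (τ := τ.toRingHom) fun a => rfl)⟩
    change ‖τ (algebraMap M A a)‖ = v a
    rw [τ.commutes, hφ]
    rfl
  · have hvna := isNonarchimedean v hv
    have hv' : NumberField.IsFinitePlace v := hv
    set w : NumberField.FinitePlace M := ⟨v, hv'⟩ with hw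
    set P := w.maximalIdeal with hPdef
    have hwP : NumberField.FinitePlace.mk P = w := NumberField.FinitePlace.mk_maximalIdeal w
    obtain ⟨p, hp, hpP⟩ := Pool.Agent.Helper85.Sub.exists_prime_mem P
    have hpf : Fact p.Prime := ⟨hp⟩
    obtain ⟨n, hn0, ⟨σ₀, hσ₀⟩, -, hall⟩ := Pool.Agent.Helper85.Sub.card_fiber (p := p) P hpP
    have hvσ : ∀ x : M, v x = ‖σ₀ x‖ ^ n := by
      intro x
      have h1 := hall σ₀ hσ₀ x
      rw [hwP] at h1
      exact h1
    let _ : Algebra M (PadicAlgCl p) := σ₀.toAlgebra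
    let τ : A →ₐ[M] PadicAlgCl p := IsAlgClosed.lift
    have hna : ∀ x y : PadicAlgCl p, ‖x + y‖ ≤ max ‖x‖ ‖y‖ := PadicAlgCl.isNonarchimedean p
    have hW := Pool.Agent.Helper88.ZN.powAbs_na τ.toRingHom n hn0 hna
    refine ⟨Pool.Agent.Helper88.ZN.powAbs τ.toRingHom n hn0 hna, Or.inl hW, fun a => ?_,
      iff_of_true hvna hW⟩
    change ‖τ (algebraMap M A a)‖ ^ n = v a
    rw [τ.commutes, hvσ]
    rfl

/-- The nonarchimedean ones among the absolute values of a number field. -/
theorem kap_arch {v : AbsoluteValue M ℝ} (hv : v ∈ archAbsVal (K := M)) : kap v = 1 := by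
  obtain ⟨φ, hφ⟩ := ext_arch_place hv
  unfold kap
  rw [if_neg (ext_not_na hφ)]

theorem kap_nonarch {v : AbsoluteValue M ℝ} (hv : v ∈ nonarchAbsVal (K := M)) : kap v = 0 := by
  unfold kap
  rw [if_pos (isNonarchimedean v hv)]

omit [NumberField M] [CharZero A] in
theorem kap_ext {v : AbsoluteValue M ℝ} {W : AbsoluteValue A ℝ}
    (h2 : IsNonarchimedean v ↔ IsNonarchimedean W) : kap W = kap v := by
  unfold kap
  by_cases h : IsNonarchimedean W
  · rw [if_pos h, if_pos (h2.2 h)]
  · rw [if_neg h, if_neg (fun h' => h (h2.1 h'))]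

omit [CharZero A] [NumberField M] [Algebra M A] in
theorem ext_iSup {σ : Type} {s t : Finset (σ →₀ ℕ)} (h : s = t) (f g : (σ →₀ ℕ) → ℝ)
    (hfg : ∀ m, f m = g m) : (⨆ m : s, f m) = ⨆ m : t, g m := by
  subst h
  exact iSup_congr fun m => hfg m

omit [NumberField M] [CharZero A] in
theorem lp_ext {σ : Type} {v : AbsoluteValue M ℝ} {W : AbsoluteValue A ℝ}
    (h1 : ∀ a : M, W (algebraMap M A a) = v a) (h2 : IsNonarchimedean v ↔ IsNonarchimedean W)
    (G : MvPolynomial σ M) : lp W (map (algebraMap M A) G) = lp v G := by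
  have hs : (map (algebraMap M A) G).support = G.support :=
    support_map_of_injective _ (algebraMap M A).injective
  have hc : ∀ m, W ((map (algebraMap M A) G).coeff m) = v (G.coeff m) := fun m => by
    rw [coeff_map, h1]
  have : sz W (map (algebraMap M A) G) = sz v G := by
    unfold sz
    by_cases h : IsNonarchimedean W
    · rw [if_pos h, if_pos (h2.2 h)]
      exact ext_iSup hs _ _ hc
    · rw [if_neg h, if_neg (fun h' => h (h2.1 h')), hs]
      exact Finset.sum_congr rfl fun m _ => hc m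
  rw [lp, lp, this]

omit [NumberField M] [CharZero A] in
theorem nm_ext {ι : Type} {v : AbsoluteValue M ℝ} {W : AbsoluteValue A ℝ}
    (h1 : ∀ a : M, W (algebraMap M A a) = v a) (x : ι → M) :
    nm W (fun i => algebraMap M A (x i)) = nm v x := by
  unfold nm
  exact iSup_congr fun i => h1 (x i)

end Pool.Agent.Helper45.NZ
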