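import Pool.Agent.Helper45.NZ.Aht
import Pool.Agent.Helper45.NZ.Ext

/-!
# Project NZ: the height of a polynomial
-/

set_option autoImplicit false

namespace Pool.Agent.Helper45.NZ

open MvPolynomial Height AdmissibleAbsValues
open Pool.Agent.Helper29.TG (nm ls FS Mem)

variable {A : Type} [Field A] [CharZero A] {M : Type} [Field M] [NumberField M] [Algebra M A]

theorem FS_kap : FS (fun v : AbsoluteValue M ℝ => kap v) :=
  Pool.Agent.Helper29.TG.FS.zero.congr fun _ hv => kap_nonarch hv

theorem ls_kap : ls (fun v : AbsoluteValue M ℝ => kap v) = Module.finrank ℚ M := by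
  unfold ls
  have h1 : (archAbsVal (K := M)).map (fun v : AbsoluteValue M ℝ => kap v) =
      (archAbsVal (K := M)).map fun _ => (1 : ℝ) :=
    Multiset.map_congr rfl fun v hv => kap_arch hv
  have h2 : (∑ᶠ v : nonarchAbsVal (K := M), kap v.val) = 0 := by
    rw [← finsum_zero (α := nonarchAbsVal (K := M))]
    exact finsum_congr fun v => kap_nonarch v.2
  rw [h1, h2, Multiset.map_const', Multiset.sum_replicate, nsmul_eq_mul, mul_one, add_zero,
    ← NumberField.totalWeight_eq_finrank]
  rfl

private theorem CpB_ne (c : M) : (![c, 1] : Fin 2 → M) ≠ 0 := by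
  intro h
  have h1 := congrFun h 1
  simp at h1

private theorem CpB_nm (v : AbsoluteValue M ℝ) (c : M) :
    v c ≤ nm v ![c, 1] ∧ 1 ≤ nm v ![c, 1] := by
  constructor
  · exact Pool.Agent.Helper29.TG.le_nm v ![c, 1] 0
  · have h1 := Pool.Agent.Helper29.TG.le_nm v ![c, 1] 1
    simpa using h1

private theorem CpB_lp {σ : Type} (G : MvPolynomial σ M) (v : AbsoluteValue M ℝ) :
    lp v G ≤ ∑ m ∈ G.support, Real.log (nm v ![G.coeff m, 1]) +
      Real.log (G.support.card + 1) * kap v := by
  classical
  have hlog : ∀ m, 0 ≤ Real.log (nm v ![G.coeff m, 1]) := fun m =>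
    Real.log_nonneg (CpB_nm v _).2
  have hS : 0 ≤ ∑ m ∈ G.support, Real.log (nm v ![G.coeff m, 1]) :=
    Finset.sum_nonneg fun m _ => hlog m
  have hcard : 0 ≤ Real.log (G.support.card + 1 : ℝ) := Real.log_nonneg (by
    have : (0 : ℝ) ≤ G.support.card := Nat.cast_nonneg _
    linarith)
  have hkap : 0 ≤ kap v := by
    unfold kap
    split_ifs <;> norm_num
  have hP : ∀ m ∈ G.support, v (G.coeff m) ≤
      Real.exp (∑ m ∈ G.support, Real.log (nm v ![G.coeff m, 1])) := by
    intro m hm
    refine (CpB_nm v _).1.trans ?_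
    have h1 : 0 < nm v ![G.coeff m, 1] := lt_of_lt_of_le one_pos (CpB_nm v _).2
    rw [← Real.exp_log h1]
    exact Real.exp_le_exp.2 (Finset.single_le_sum
      (f := fun m => Real.log (nm v ![G.coeff m, 1])) (fun m _ => hlog m) hm)
  unfold lp
  refine max_le (add_nonneg hS (mul_nonneg hcard hkap)) ?_
  by_cases hv : IsNonarchimedean v
  · have h1 : kap v = 0 := by
      unfold kap
      rw [if_pos hv]
    have h2 : sz v G = ⨆ m : G.support, v (G.coeff m) := by
      unfold sz
      rw [if_pos hv]
    rw [h1, mul_zero, add_zero, h2]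
    have h3 : (⨆ m : G.support, v (G.coeff m)) ≤
        Real.exp (∑ m ∈ G.support, Real.log (nm v ![G.coeff m, 1])) :=
      Real.iSup_le (fun m => hP m.1 m.2) (Real.exp_pos _).le
    rcases (Real.iSup_nonneg fun m : G.support => v.nonneg (G.coeff m)).eq_or_lt with h4 | h4
    · rw [← h4, Real.log_zero]
      exact hS
    · have h5 := Real.log_le_log h4 h3
      rwa [Real.log_exp] at h5
  · have h1 : kap v = 1 := by
      unfold kap
      rw [if_neg hv]
    have h2 : sz v G = ∑ m ∈ G.support, v (G.coeff m) := by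
      unfold sz
      rw [if_neg hv]
    rw [h1, mul_one, h2]
    have h3 : ∑ m ∈ G.support, v (G.coeff m) ≤ (G.support.card + 1 : ℝ) *
        Real.exp (∑ m ∈ G.support, Real.log (nm v ![G.coeff m, 1])) := by
      have h4 := Finset.sum_le_card_nsmul G.support (fun m => v (G.coeff m)) _ hP
      rw [nsmul_eq_mul] at h4
      have h5 := Real.exp_pos (∑ m ∈ G.support, Real.log (nm v ![G.coeff m, 1]))
      have h6 : (G.support.card : ℝ) * Real.exp (∑ m ∈ G.support,
          Real.log (nm v ![G.coeff m, 1])) ≤ (G.support.card + 1 : ℝ) *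
          Real.exp (∑ m ∈ G.support, Real.log (nm v ![G.coeff m, 1])) := by
        nlinarith
      exact h4.trans h6
    have hc1 : (0 : ℝ) < (G.support.card + 1 : ℝ) := by positivity
    rcases (Finset.sum_nonneg fun m (_ : m ∈ G.support) => v.nonneg (G.coeff m)).eq_or_lt
      with h4 | h4
    · rw [← h4, Real.log_zero]
      exact add_nonneg hS hcard
    · have h5 := Real.log_le_log h4 h3
      rw [Real.log_mul hc1.ne' (Real.exp_pos _).ne', Real.log_exp] at h5
      linarith

private theorem CpB_nonneg {σ : Type} (G : MvPolynomial σ M) (v : AbsoluteValue M ℝ) :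
    0 ≤ lp v G := le_max_left _ _

private theorem CpB_FS {σ : Type} (G : MvPolynomial σ M) :
    FS (fun v : AbsoluteValue M ℝ => ∑ m ∈ G.support, Real.log (nm v ![G.coeff m, 1])) :=
  Pool.Agent.Helper29.TG.FS.sum _ fun m _ => Pool.Agent.Helper29.TG.FS_nm (CpB_ne _)

theorem FS_lp {σ : Type} (G : MvPolynomial σ M) : FS (fun v => lp v G) := by
  refine (CpB_FS G).mono fun v hv h0 => ?_
  have h1 := CpB_lp G v
  have h2 : (∑ m ∈ G.support, Real.log (nm v ![G.coeff m, 1])) = 0 := h0
  rw [h2, kap_nonarch hv, mul_zero, add_zero] at h1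
  exact le_antisymm h1 (CpB_nonneg G v)

/-- The sum of the positive parts of the local sizes. -/
theorem ls_lp_le {σ : Type} (G : MvPolynomial σ M) :
    ls (fun v => lp v G) ≤ Module.finrank ℚ M * Cp (map (algebraMap M A) G) := by
  classical
  have hk : FS (fun v : AbsoluteValue M ℝ => Real.log (G.support.card + 1) * kap v) :=
    FS_kap.mul_left _
  have h1 := Pool.Agent.Helper29.TG.ls_mono (FS_lp G) ((CpB_FS G).add hk)
    fun v _ => CpB_lp G v
  rw [Pool.Agent.Helper29.TG.ls_add (CpB_FS G) hk, Pool.Agent.Helper29.TG.ls_mul_left, ls_kap,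
    Pool.Agent.Helper29.TG.ls_sum _ fun m _ => Pool.Agent.Helper29.TG.FS_nm (CpB_ne _)] at h1
  refine h1.trans (le_of_eq ?_)
  have hn : (Module.finrank ℚ M : ℝ) ≠ 0 := by
    exact_mod_cast (Module.finrank_pos (R := ℚ) (M := M)).ne'
  have hs : (map (algebraMap M A) G).support = G.support :=
    support_map_of_injective _ (algebraMap M A).injective
  unfold Cp
  rw [hs, mul_add, Finset.mul_sum]
  congr 1
  · refine Finset.sum_congr rfl fun m _ => ?_
    rw [Pool.Agent.Helper29.TG.ls_nm (CpB_ne _)]
    have h2 : (![(map (algebraMap M A) G).coeff m, 1] : Fin 2 → A) =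
        fun i => algebraMap M A ((![G.coeff m, 1] : Fin 2 → M) i) := by
      funext i
      fin_cases i
      · simp [coeff_map]
      · simp
    rw [h2, aht_map, mul_div_cancel₀ _ hn]
  · ring

theorem Cp_nonneg [Algebra.IsAlgebraic ℚ A] {σ : Type} (G : MvPolynomial σ A) : 0 ≤ Cp G := by
  unfold Cp
  refine add_nonneg (Finset.sum_nonneg fun m _ => aht_nonneg _) (Real.log_nonneg ?_)
  have : (0 : ℝ) ≤ G.support.card := Nat.cast_nonneg _
  linarith

end Pool.Agent.Helper45.NZ
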