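import Pool.Agent.Helper45.NZ.Size
import Pool.Agent.Helper45.NZ.CpB
import Pool.Agent.Helper38.TNA.Per

/-!
# Project NZ: growth of the absolute height
-/

set_option autoImplicit false

namespace Pool.Agent.Helper45.NZ

open MvPolynomial Height AdmissibleAbsValues
open Pool.Agent.Helper29.TG (nm ls FS Mem)
open Pool.Agent.Helper36 (step iter)
open Pool.Agent.Helper38.TQ

variable {ν : ℕ} {A : Type} [Field A] [CharZero A] [IsAlgClosed A] [Algebra.IsAlgebraic ℚ A]
  [Algebra A ℂ]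

omit [CharZero A] [IsAlgClosed A] [Algebra.IsAlgebraic ℚ A] [Algebra A ℂ] in
/-- The absolute value of a sum. -/
theorem Grow_sum_le (W : AbsoluteValue A ℝ) (b : Fin (ν + 1) → A) {B : ℝ}
    (hb : ∀ j, W (b j) ≤ B) : W (∑ j, b j) ≤ Real.exp (kap W * Real.log (ν + 1)) * B := by
  classical
  by_cases h : IsNonarchimedean W
  · have h1 : kap W = 0 := by
      unfold kap
      rw [if_pos h]
    rw [h1, zero_mul, Real.exp_zero, one_mul]
    obtain ⟨j, -, hj⟩ := IsNonarchimedean.finset_image_add_of_nonempty h b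
      (t := Finset.univ) Finset.univ_nonempty
    exact hj.trans (hb j)
  · have h1 : kap W = 1 := by
      unfold kap
      rw [if_neg h]
    have h2 : (0 : ℝ) < (ν : ℝ) + 1 := by positivity
    rw [h1, one_mul, Real.exp_log h2]
    refine (W.sum_le Finset.univ b).trans ?_
    refine (Finset.sum_le_sum fun j _ => hb j).trans (le_of_eq ?_)
    rw [Finset.sum_const, Finset.card_univ, Fintype.card_fin, nsmul_eq_mul]
    push_cast
    ring

omit [CharZero A] [IsAlgClosed A] [Algebra.IsAlgebraic ℚ A] [Algebra A ℂ] in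
theorem Grow_sz_le_exp {σ : Type} (W : AbsoluteValue A ℝ) (G : MvPolynomial σ A) :
    sz W G ≤ Real.exp (lp W G) := by
  rcases (sz_nonneg W G).eq_or_lt with h | h
  · rw [← h]
    exact (Real.exp_pos _).le
  · have h1 : Real.log (sz W G) ≤ lp W G := le_max_right _ _
    calc sz W G = Real.exp (Real.log (sz W G)) := (Real.exp_log h).symm
      _ ≤ Real.exp (lp W G) := Real.exp_le_exp.2 h1

/-- The inequality at one place. -/
theorem Grow_loc {d : ℕ} {F : Fin (ν + 1) → MvPolynomial (Fin (ν + 1)) A}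
    {M : ℕ} {q : Fin (ν + 1) × Fin (ν + 1) → MvPolynomial (Fin (ν + 1)) A}
    (hq : ∀ a, (q a).IsHomogeneous M)
    (h : ∀ a, ∑ j, q (a, j) * F j = MvPolynomial.X a ^ (M + d))
    (W : AbsoluteValue A ℝ) {y : Fin (ν + 1) → A} (hy : y ≠ 0) (hs : step F y ≠ 0) :
    (d : ℝ) * Real.log (nm W y) ≤ Real.log (nm W (step F y)) + ∑ a, lp W (q a) +
      Real.log (ν + 1) * kap W := by
  classical
  have hn0 : 0 < nm W y := Pool.Agent.Helper29.TG.nm_pos W hy
  have hs0 : 0 < nm W (step F y) := Pool.Agent.Helper29.TG.nm_pos W hs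
  obtain ⟨i, hi⟩ := Pool.Agent.Helper29.TG.exists_nm_eq W hy
  have hlp : ∀ a, lp W (q a) ≤ ∑ a, lp W (q a) := fun a =>
    Finset.single_le_sum (f := fun a => lp W (q a)) (fun a _ => le_max_left _ _)
      (Finset.mem_univ a)
  have h1 : W (y i ^ (M + d)) ≤ Real.exp (kap W * Real.log (ν + 1)) *
      (Real.exp (∑ a, lp W (q a)) * nm W y ^ M * nm W (step F y)) := by
    rw [Pool.Agent.Helper38.TNA.Periodic_cert h y i]
    refine Grow_sum_le W _ fun j => ?_
    rw [map_mul, Algebra.algebraMap_self, MvPolynomial.map_id]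
    refine mul_le_mul ?_ (Pool.Agent.Helper29.TG.le_nm W (step F y) j) (W.nonneg _)
      (mul_nonneg (Real.exp_pos _).le (pow_nonneg hn0.le _))
    refine (eval_le_sz W (hq (i, j)) y).trans ?_
    refine mul_le_mul_of_nonneg_right ?_ (pow_nonneg hn0.le _)
    exact (Grow_sz_le_exp W _).trans (Real.exp_le_exp.2 (hlp _))
  rw [map_pow, ← hi.2, pow_add] at h1
  have h2 : 0 < nm W y ^ M := pow_pos hn0 _
  have h3 : nm W y ^ d ≤ Real.exp (kap W * Real.log (ν + 1) + ∑ a, lp W (q a)) *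
      nm W (step F y) := by
    refine le_of_mul_le_mul_left (a := nm W y ^ M) (h1.trans (le_of_eq ?_)) h2
    rw [Real.exp_add]
    ring
  have h4 := Real.log_le_log (pow_pos hn0 _) h3
  rw [Real.log_pow, Real.log_mul (Real.exp_pos _).ne' hs0.ne', Real.log_exp] at h4
  linarith

/-- The height of the image of a point. -/
theorem growA {d : ℕ} {F : Fin (ν + 1) → MvPolynomial (Fin (ν + 1)) A}
    (hF : IsEndo d fun i => map (algebraMap A ℂ) (F i)) :
    ∃ C : ℝ, 0 ≤ C ∧ ∀ y : Fin (ν + 1) → A, y ≠ 0 → d * aht y ≤ aht (step F y) + C := by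
  classical
  obtain ⟨e, q, hq, h⟩ := Pool.Agent.Helper36.exists_nullstellensatz (L := ℂ) F
    (fun i => Pool.Agent.Helper30.TKN.homog_of_endo hF i)
    (Pool.Agent.Helper30.TKN.growth_aeval_zero hF)
  have hlog : (0 : ℝ) ≤ Real.log (ν + 1) := Real.log_nonneg (by
    have : (0 : ℝ) ≤ ν := Nat.cast_nonneg _
    linarith)
  refine ⟨∑ a, Cp (q a) + Real.log (ν + 1),
    add_nonneg (Finset.sum_nonneg fun a _ => Cp_nonneg _) hlog, ?_⟩
  intro y hy
  have hs : step F y ≠ 0 := Pool.Agent.Helper38.TNA.step_ne_zeroL hF hy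
  -- the number field
  have hfin : Finite ((Fin (ν + 1) ⊕ Fin (ν + 1)) ⊕
      (Σ a : Fin (ν + 1) × Fin (ν + 1), ((q a).support : Set (Fin (ν + 1) →₀ ℕ)))) := inferInstance
  obtain ⟨M, _, _, _, α, hα⟩ := exists_field (A := A)
    (fun o : (Fin (ν + 1) ⊕ Fin (ν + 1)) ⊕
      (Σ a : Fin (ν + 1) × Fin (ν + 1), ((q a).support : Set (Fin (ν + 1) →₀ ℕ))) =>
      Sum.elim (Sum.elim y (step F y)) (fun p => (q p.1).coeff p.2.1) o)
  set y' : Fin (ν + 1) → M := fun i => α (Sum.inl (Sum.inl i)) with hy'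
  set s' : Fin (ν + 1) → M := fun i => α (Sum.inl (Sum.inr i)) with hs'
  have hye : y = fun i => algebraMap M A (y' i) :=
    funext fun i => (hα (Sum.inl (Sum.inl i))).symm
  have hse : step F y = fun i => algebraMap M A (s' i) :=
    funext fun i => (hα (Sum.inl (Sum.inr i))).symm
  have hqe : ∀ a, ∃ G' : MvPolynomial (Fin (ν + 1)) M, map (algebraMap M A) G' = q a := by
    intro a
    have h1 : q a ∈ Set.range (map (σ := Fin (ν + 1)) (algebraMap M A)) := by
      rw [mem_range_map_iff_coeffs_subset]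
      intro x hx
      obtain ⟨m, hm, rfl⟩ := mem_coeffs_iff.1 hx
      exact ⟨α (Sum.inr ⟨a, ⟨m, hm⟩⟩), hα (Sum.inr ⟨a, ⟨m, hm⟩⟩)⟩
    exact h1
  choose q' hq' using hqe
  have hy'0 : y' ≠ 0 := by
    intro h0
    refine hy ?_
    rw [hye, h0]
    funext a
    exact map_zero _
  have hs'0 : s' ≠ 0 := by
    intro h0
    refine hs ?_
    rw [hse, h0]
    funext a
    exact map_zero _
  have hd : (0 : ℝ) < Module.finrank ℚ M := by
    exact_mod_cast Module.finrank_pos
  have hptw : ∀ v : AbsoluteValue M ℝ, Mem v → (d : ℝ) * Real.log (nm v y') ≤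
      Real.log (nm v s') + ∑ a, lp v (q' a) + Real.log (ν + 1) * kap v := by
    intro v hv
    obtain ⟨W, hW, hW1, hW2⟩ := exists_ext (A := A) hv
    have h1 := Grow_loc hq h W hy hs
    have h2 : nm W y = nm v y' := by rw [hye, nm_ext hW1]
    have h3 : nm W (step F y) = nm v s' := by rw [hse, nm_ext hW1]
    have h4 : ∀ a, lp W (q a) = lp v (q' a) := fun a => by
      rw [← lp_ext hW1 hW2, hq']
    rw [h2, h3, kap_ext hW2] at h1
    simp only [h4] at h1
    exact h1
  have hFSy : FS (fun v : AbsoluteValue M ℝ => (d : ℝ) * Real.log (nm v y')) :=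
    (Pool.Agent.Helper29.TG.FS_nm hy'0).mul_left _
  have hFSs : FS (fun v : AbsoluteValue M ℝ => Real.log (nm v s')) :=
    Pool.Agent.Helper29.TG.FS_nm hs'0
  have hFSq : ∀ a ∈ Finset.univ, FS (fun v : AbsoluteValue M ℝ => lp v (q' a)) :=
    fun a _ => FS_lp _
  have hFSqs : FS (fun v : AbsoluteValue M ℝ => ∑ a, lp v (q' a)) :=
    Pool.Agent.Helper29.TG.FS.sum Finset.univ hFSq
  have hFSk : FS (fun v : AbsoluteValue M ℝ => Real.log (ν + 1) * kap v) := FS_kap.mul_left _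
  have hls := Pool.Agent.Helper29.TG.ls_mono hFSy ((hFSs.add hFSqs).add hFSk) hptw
  rw [Pool.Agent.Helper29.TG.ls_add (hFSs.add hFSqs) hFSk,
    Pool.Agent.Helper29.TG.ls_add hFSs hFSqs, Pool.Agent.Helper29.TG.ls_mul_left,
    Pool.Agent.Helper29.TG.ls_mul_left, ls_kap, Pool.Agent.Helper29.TG.ls_nm hy'0,
    Pool.Agent.Helper29.TG.ls_nm hs'0, Pool.Agent.Helper29.TG.ls_sum _ hFSq] at hls
  have hC : ∑ a, ls (fun v : AbsoluteValue M ℝ => lp v (q' a)) ≤
      ∑ a, Module.finrank ℚ M * Cp (q a) := by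
    refine Finset.sum_le_sum fun a _ => ?_
    have h1 := ls_lp_le (A := A) (q' a)
    rwa [hq'] at h1
  have e1 : logHeight y' = aht y * (Module.finrank ℚ M : ℝ) := by
    rw [hye, aht_map, div_mul_cancel₀ _ hd.ne']
  have e2 : logHeight s' = aht (step F y) * (Module.finrank ℚ M : ℝ) := by
    rw [hse, aht_map, div_mul_cancel₀ _ hd.ne']
  rw [e1, e2] at hls
  rw [← Finset.mul_sum] at hC
  have e6 : (d : ℝ) * aht y * (Module.finrank ℚ M : ℝ) ≤
      (aht (step F y) + (∑ a, Cp (q a) + Real.log (ν + 1))) * (Module.finrank ℚ M : ℝ) := by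
    linarith
  exact le_of_mul_le_mul_right e6 hd

/-- The heights of the points of an orbit. -/
theorem iter_lower {d : ℕ} {F : Fin (ν + 1) → MvPolynomial (Fin (ν + 1)) A}
    (hF : IsEndo d fun i => map (algebraMap A ℂ) (F i)) :
    ∃ C : ℝ, 0 ≤ C ∧ ∀ y : Fin (ν + 1) → A, y ≠ 0 → ∀ N : ℕ,
      (d : ℝ) ^ N * (aht y - C) ≤ aht (iter F y N) - C := by
  obtain ⟨C, hC0, hC⟩ := growA hF
  refine ⟨C, hC0, fun y hy N => ?_⟩
  have hd : (2 : ℝ) ≤ d := by exact_mod_cast hF.two_le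
  induction N with
  | zero => simp [Pool.Agent.Helper36.iter_zero]
  | succ n ih =>
    have h1 := hC (iter F y n) (Pool.Agent.Helper38.TNA.iter_ne_zeroL hF hy n)
    rw [← Pool.Agent.Helper36.iter_succ] at h1
    have h2 : (d : ℝ) * ((d : ℝ) ^ n * (aht y - C)) ≤ d * (aht (iter F y n) - C) :=
      mul_le_mul_of_nonneg_left ih (by linarith)
    have h3 : 2 * C ≤ d * C := mul_le_mul_of_nonneg_right hd hC0
    rw [pow_succ]
    linarith

/-- The heights of the periodic points are bounded. -/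
theorem per_bound {d : ℕ} {F : Fin (ν + 1) → MvPolynomial (Fin (ν + 1)) A}
    (hF : IsEndo d fun i => map (algebraMap A ℂ) (F i)) :
    ∃ C : ℝ, 0 ≤ C ∧ ∀ (w : Fin (ν + 1) → A) (N : ℕ) (γ : A), w ≠ 0 → 0 < N →
      iter F w N = γ • w → aht w ≤ C := by
  obtain ⟨C, hC0, hC⟩ := iter_lower hF
  refine ⟨C, hC0, fun w N γ hw hN hiter => ?_⟩
  have hd : (2 : ℝ) ≤ d := by exact_mod_cast hF.two_le
  have hγ : γ ≠ 0 := by
    rintro rfl
    rw [zero_smul] at hiter
    exact Pool.Agent.Helper38.TNA.iter_ne_zeroL hF hw N hiter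
  have h1 := hC w hw N
  have h0 : aht (γ • w) = aht w := aht_smul hγ w
  rw [hiter, h0] at h1
  by_contra hcon
  push Not at hcon
  have h2 : (2 : ℝ) ≤ (d : ℝ) ^ N := by
    calc (2 : ℝ) ≤ d := hd
      _ = (d : ℝ) ^ 1 := (pow_one _).symm
      _ ≤ (d : ℝ) ^ N := pow_le_pow_right₀ (by linarith) hN
  nlinarith

end Pool.Agent.Helper45.NZ
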