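import Pool.Agent.Helper45.NZ.Aht
import Pool.Agent.Helper38.TNA.Per
import Pool.Agent.Helper36.Growth

/-!
# Project NZ: Northcott's theorem along an orbit
-/

set_option autoImplicit false

namespace Pool.Agent.Helper45.NZ

open MvPolynomial Height AdmissibleAbsValues
open Pool.Agent.Helper36 (step iter)
open Pool.Agent.Helper38.TQ

variable {ν : ℕ} {A : Type} [Field A] [CharZero A] [IsAlgClosed A] [Algebra.IsAlgebraic ℚ A]
  [Algebra A ℂ]

omit [CharZero A] [IsAlgClosed A] [Algebra.IsAlgebraic ℚ A] [Algebra A ℂ] in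
theorem North_map {M : Type} [Field M] [Algebra M A] {σ : Type} {G : MvPolynomial σ A}
    (h : ∀ m ∈ G.support, ∃ α : M, algebraMap M A α = G.coeff m) :
    ∃ G' : MvPolynomial σ M, map (algebraMap M A) G' = G := by
  have h1 : G ∈ Set.range (map (σ := σ) (algebraMap M A)) := by
    rw [mem_range_map_iff_coeffs_subset]
    intro x hx
    obtain ⟨m, hm, rfl⟩ := mem_coeffs_iff.1 hx
    obtain ⟨α, hα⟩ := h m hm
    exact ⟨α, hα⟩
  exact h1

omit [CharZero A] [IsAlgClosed A] [Algebra.IsAlgebraic ℚ A] [Algebra A ℂ] in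
/-- The orbit over the small field. -/
theorem North_iter {M : Type} [Field M] [Algebra M A]
    {F : Fin (ν + 1) → MvPolynomial (Fin (ν + 1)) A}
    {F' : Fin (ν + 1) → MvPolynomial (Fin (ν + 1)) M}
    (hFF : ∀ i, map (algebraMap M A) (F' i) = F i) (x' : Fin (ν + 1) → M) (n : ℕ) :
    iter F (fun a => algebraMap M A (x' a)) n = fun a => algebraMap M A (iter F' x' n a) := by
  induction n with
  | zero => rfl
  | succ n ih =>
    rw [Pool.Agent.Helper36.iter_succ, Pool.Agent.Helper36.iter_succ, ih]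
    funext i
    simp only [step]
    rw [← hFF i, aeval_map_algebraMap]
    exact aeval_algebraMap_apply A (iter F' x' n) (F' i)

/-- The heights of the points of an infinite orbit tend to infinity. -/
theorem aht_tendsto {d : ℕ} {F : Fin (ν + 1) → MvPolynomial (Fin (ν + 1)) A}
    (hF : IsEndo d fun i => map (algebraMap A ℂ) (F i)) {x : Fin (ν + 1) → A} (hx : x ≠ 0)
    (hdist : ∀ n m, n < m → ¬ PEq (iter F x n) (iter F x m)) (B : ℝ) :
    ∃ n₀, ∀ n, n₀ ≤ n → B < aht (iter F x n) := by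
  classical
  obtain ⟨M, _, _, _, α, hα⟩ := exists_field
    (τ := Fin (ν + 1) ⊕ (Σ i : Fin (ν + 1), {m // m ∈ (F i).support}))
    (fun o => Sum.elim (fun a => x a) (fun p => (F p.1).coeff p.2.1) o)
  set x' : Fin (ν + 1) → M := fun a => α (Sum.inl a) with hx'
  have hxx : x = fun a => algebraMap M A (x' a) := by
    funext a
    exact (hα (Sum.inl a)).symm
  have hF' : ∀ i, ∃ G : MvPolynomial (Fin (ν + 1)) M, map (algebraMap M A) G = F i := by
    intro i
    exact North_map fun m hm => ⟨α (Sum.inr ⟨i, ⟨m, hm⟩⟩), hα (Sum.inr ⟨i, ⟨m, hm⟩⟩)⟩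
  choose F' hFF using hF'
  have hx0 : x' ≠ 0 := by
    intro h0
    apply hx
    rw [hxx, h0]
    funext a
    exact map_zero _
  let _ : Algebra M ℂ := ((algebraMap A ℂ).comp (algebraMap M A)).toAlgebra
  have hmap : (algebraMap M ℂ) = (algebraMap A ℂ).comp (algebraMap M A) := rfl
  have hend : IsEndo d fun i => map (algebraMap M ℂ) (F' i) := by
    have h1 : (fun i => map (algebraMap M ℂ) (F' i)) = fun i => map (algebraMap A ℂ) (F i) := by
      funext i
      rw [← hFF i, map_map, hmap]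
    rw [h1]
    exact hF
  have hhom := fun i => Pool.Agent.Helper30.TKN.homog_of_endo hend i
  have hgr := Pool.Agent.Helper36.growth (L := ℂ) hend.two_le F' hhom
    (Pool.Agent.Helper30.TKN.growth_aeval_zero hend) (fun n => iter F' x' n)
    (fun n => Pool.Agent.Helper38.TNA.iter_ne_zeroL hend hx0 n)
    (fun n => Pool.Agent.Helper36.iter_succ F' x' n)
  rcases hgr with ⟨n, m, hnm, c, hc, hcm⟩ | ⟨n₀, hn₀⟩
  · exfalso
    refine hdist n m hnm ⟨algebraMap M A c, ?_, ?_⟩
    · exact (map_ne_zero (algebraMap M A)).2 hc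
    · rw [hxx, North_iter hFF, North_iter hFF, hcm]
      funext a
      simp only [Pi.smul_apply, smul_eq_mul, map_mul]
  · have hd : (0 : ℝ) < Module.finrank ℚ M := by
      exact_mod_cast Module.finrank_pos
    obtain ⟨k, hk⟩ := pow_unbounded_of_one_lt (B * Module.finrank ℚ M) (one_lt_two : (1 : ℝ) < 2)
    refine ⟨n₀ + k, fun n hn => ?_⟩
    rw [hxx, North_iter hFF, aht_map, lt_div_iff₀ hd]
    refine hk.trans_le ?_
    refine le_trans ?_ (hn₀ n (by omega))
    have hd2 : (2 : ℝ) ≤ d := by exact_mod_cast hend.two_le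
    calc (2 : ℝ) ^ k ≤ (d : ℝ) ^ k := pow_le_pow_left₀ (by norm_num) hd2 k
      _ ≤ (d : ℝ) ^ (n - n₀) := pow_le_pow_right₀ (by linarith) (by omega)

end Pool.Agent.Helper45.NZ
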