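import Pool.Agent.Helper45.NZ.Main
import Pool.Agent.Helper45.NZ.Grow
import Pool.Agent.Helper45.NZ.North
import Pool.Agent.Helper38.TNA.CaseA

/-!
# Project NZ: curves with infinitely many preperiodic points
-/

set_option autoImplicit false

namespace Pool.Agent.Helper45.NZ

open MvPolynomial
open Pool.Agent.Helper36 (step iter)
open Pool.Agent.Helper38.TQ
open Pool.Agent.Helper38.TNA
open Pool.Agent.Helper63.TN
open Pool.Agent.Helper30.TKN
open Pool.Agent.Helper30.ZB

variable {ν : ℕ}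

/-- The point is preperiodic. -/
def IsPre {A : Type} [Field A] (F : Fin (ν + 1) → MvPolynomial (Fin (ν + 1)) A)
    (w : Fin (ν + 1) → A) : Prop :=
  ∃ m l : ℕ, m < l ∧ PEq (iter F w m) (iter F w l)

/-- The curve contains arbitrarily many preperiodic points. -/
def ManyPreA {A : Type} [Field A] (I : Ideal (MvPolynomial (Fin (ν + 1)) A))
    (F : Fin (ν + 1) → MvPolynomial (Fin (ν + 1)) A) : Prop :=
  ∀ s : ℕ, ∃ w : Fin s → Fin (ν + 1) → A, (∀ j, OnI I (w j) ∧ IsPre F (w j)) ∧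
    ∀ i j, i ≠ j → ¬ PEq (w i) (w j)

variable {A : Type} [Field A] [CharZero A] [IsAlgClosed A] [Algebra.IsAlgebraic ℚ A]
  [Algebra A ℂ]

/-- The points of the orbit of a preperiodic point. -/
theorem pre_iter {d : ℕ} {F : Fin (ν + 1) → MvPolynomial (Fin (ν + 1)) A}
    (hF : ∀ i, (F i).IsHomogeneous d) {w : Fin (ν + 1) → A} (h : IsPre F w) (N : ℕ) :
    IsPre F (iter F w N) := by
  obtain ⟨m, l, hml, c, hc, hcw⟩ := h
  refine ⟨m, l, hml, c ^ d ^ N, pow_ne_zero _ hc, ?_⟩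
  rw [← Pool.Agent.Helper36.iter_add, ← Pool.Agent.Helper36.iter_add, Nat.add_comm l N,
    Nat.add_comm m N, Pool.Agent.Helper36.iter_add, Pool.Agent.Helper36.iter_add, hcw,
    iter_smulL hF]

/-- The heights of the preperiodic points are bounded. -/
theorem pre_bound {d : ℕ} {F : Fin (ν + 1) → MvPolynomial (Fin (ν + 1)) A}
    (hF : IsEndo d fun i => map (algebraMap A ℂ) (F i)) :
    ∃ C : ℝ, 0 ≤ C ∧ ∀ w : Fin (ν + 1) → A, w ≠ 0 → IsPre F w → aht w ≤ C := by
  obtain ⟨C, hC, hlow⟩ := iter_lower hF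
  refine ⟨C, hC, fun w hw hpre => ?_⟩
  obtain ⟨m, l, hml, c, hc, hcw⟩ := hpre
  have hFh := fun i => homog_of_endo hF i
  have h2 : (2 : ℝ) ≤ d := by exact_mod_cast hF.two_le
  obtain ⟨r, rfl⟩ : ∃ r, l = m + r := ⟨l - m, by omega⟩
  have hr : 0 < r := by omega
  set z := iter F w m with hz
  have hz0 : z ≠ 0 := iter_ne_zeroL hF hw m
  have h3 : aht (iter F z r) = aht z := by
    have h4 : iter F z r = iter F w (m + r) := by
      rw [hz, Nat.add_comm m r, Pool.Agent.Helper36.iter_add]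
    rw [h4, hcw]
    exact aht_smul hc z
  have h5 : aht z ≤ C := by
    by_contra hcon
    push Not at hcon
    have h6 := hlow z hz0 r
    rw [h3] at h6
    have h7 : (2 : ℝ) ≤ (d : ℝ) ^ r := by
      calc (2 : ℝ) ≤ d := h2
        _ = (d : ℝ) ^ 1 := (pow_one _).symm
        _ ≤ (d : ℝ) ^ r := pow_le_pow_right₀ (by linarith) hr
    nlinarith
  have h8 := hlow w hw m
  have h9 : (d : ℝ) ^ m * (aht w - C) ≤ 0 := by
    rw [← hz] at h8
    linarith
  have h10 : (0 : ℝ) < (d : ℝ) ^ m := by positivity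
  by_contra hcon
  push Not at hcon
  have := mul_pos h10 (sub_pos.2 hcon)
  linarith

/-- **Curves with infinitely many preperiodic points**: the heights of the returns which are not the
last one are bounded. -/
theorem aht_return_le_pre {d : ℕ} {F : Fin (ν + 1) → MvPolynomial (Fin (ν + 1)) A}
    (hF : IsEndo d fun i => map (algebraMap A ℂ) (F i))
    {I : Ideal (MvPolynomial (Fin (ν + 1)) A)} (hI : IsCurve I)
    (hnp : NonPer I F) (hmany : ManyPreA I F) (x : Fin (ν + 1) → A) :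
    ∃ B : ℝ, ∀ i n, i < n → OnI I (iter F x i) → OnI I (iter F x n) →
      aht (iter F x i) ≤ B := by
  classical
  have : Infinite A := IsAlgClosed.instInfinite
  have hFh := fun i => homog_of_endo hF i
  have hd : 0 < d := by have := hF.two_le; omega
  obtain ⟨S, hS1, hS2⟩ := exists_gens hI.prime hI.hom hnp
  obtain ⟨R₀, hR⟩ := hilb hI
  obtain ⟨C₁, hC₁, hper⟩ := pre_bound hF
  obtain ⟨C₂, hC₂, hlow⟩ := iter_lower hF
  choose e he hhe using fun h : S => (hS1 h.1 h.2).2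
  set Λ : ℝ := Real.log (ν + 1) + ν * Real.log 4 with hΛ
  have hΛ0 : 0 ≤ Λ := by
    rw [hΛ]
    have h1 : 0 ≤ Real.log ((ν : ℝ) + 1) := Real.log_nonneg (by
      have : (0 : ℝ) ≤ ν := Nat.cast_nonneg _
      linarith)
    have h2 : 0 ≤ Real.log 4 := Real.log_nonneg (by norm_num)
    positivity
  -- the bound for the point on the image
  have key : ∀ N, 0 < N → ∀ y : Fin (ν + 1) → A, OnI I y → OnI I (iter F y N) →
      aht (iter F y N) ≤ (d : ℝ) ^ N * ∑ h : S, R₀ * (2 * e h * C₁ + Cp h.1 + e h * Λ) := by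
    intro N hN y hy hyN
    obtain ⟨h, hhS, hhJ⟩ := hS2 N hN
    let J := img F N I
    have hJp : J.IsPrime := img_prime hI.prime
    have hJh : Hom J := img_hom hd hFh hI.hom N
    let T : Set (Fin (ν + 1) → A) := {P | ∃ w : Fin (ν + 1) → A, OnI I w ∧ IsPre F w ∧
      P = iter F w N}
    have hT0 : ∀ P ∈ T, P ≠ 0 := by
      rintro P ⟨w, hw, -, rfl⟩
      exact iter_ne_zeroL hF hw.1 N
    have hdense : ∀ (g : MvPolynomial (Fin (ν + 1)) A) (m : ℕ), g.IsHomogeneous m → g ∉ J →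
        ∃ P ∈ T, eval P g ≠ 0 := by
      intro g m hg hgJ
      by_contra hcon
      push Not at hcon
      have h1 : pull F N g ∉ I := fun h => hgJ (mem_img.2 h)
      obtain ⟨B, hB⟩ := bound_points (k := A) hI (pull_isHomogeneous hFh hg N) h1
      obtain ⟨w, hw, hne⟩ := hmany (B + 1)
      have h2 := hB A (B + 1) w (fun j => ⟨(hw j).1, ?_⟩) hne
      · omega
      · rw [Pool.Agent.Helper38.TNA.aeval_pull]
        exact hcon (iter F (w j) N) ⟨w j, (hw j).1, (hw j).2, rfl⟩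
    have hTJ : ∀ P ∈ T, ∀ g ∈ J, eval P g = 0 := by
      rintro P ⟨w, hw, -, rfl⟩ g hg
      have h1 := Pool.Agent.Helper38.TNA.aeval_pull (L := A) F g N w
      have h2 := hw.2 _ (mem_img.1 hg)
      rw [h1] at h2
      exact h2
    have hTs : ∀ P ∈ T, aht P ≤ C₁ := by
      rintro P ⟨w, hw, hw2, rfl⟩
      exact hper (iter F w N) (iter_ne_zeroL hF hw.1 N) (pre_iter hFh hw2 N)
    have hRJ : ∀ m, R J m ≤ R₀ * d ^ N * m + R₀ := by
      intro m
      calc R J m ≤ R I (m * d ^ N) := R_img_le hFh I N m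
        _ ≤ R₀ * (m * d ^ N) + R₀ := hR _
        _ = _ := by ring
    have h3 := zhang_bezout_number hJp hJh hRJ (he ⟨h, hhS⟩) (hhe ⟨h, hhS⟩) hhJ hC₁ hT0 hTJ
      hdense hTs (y := iter F y N) hyN.1 (fun g hg => by
        have h4 := Pool.Agent.Helper38.TNA.aeval_pull (L := A) F g N y
        have h5 := hy.2 _ (mem_img.1 hg)
        rw [h4] at h5
        exact h5) (hyN.2 h (hS1 h hhS).1)
    refine h3.trans ?_
    have h5 : (R₀ : ℝ) * (2 * e ⟨h, hhS⟩ * C₁ + Cp h + e ⟨h, hhS⟩ * Λ) ≤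
        ∑ h : S, (R₀ : ℝ) * (2 * e h * C₁ + Cp h.1 + e h * Λ) :=
      Finset.single_le_sum (f := fun h : S => (R₀ : ℝ) * (2 * e h * C₁ + Cp h.1 + e h * Λ))
        (fun i _ => by
          have := Cp_nonneg i.1
          positivity) (Finset.mem_univ (⟨h, hhS⟩ : S))
    push_cast
    calc (R₀ : ℝ) * (d : ℝ) ^ N * (2 * e ⟨h, hhS⟩ * C₁ + Cp h +
          e ⟨h, hhS⟩ * (Real.log (ν + 1) + ν * Real.log 4)) =
        (d : ℝ) ^ N * (R₀ * (2 * e ⟨h, hhS⟩ * C₁ + Cp h + e ⟨h, hhS⟩ * Λ)) := by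
          rw [hΛ]; ring
      _ ≤ _ := mul_le_mul_of_nonneg_left h5 (by positivity)
  refine ⟨(∑ h : S, R₀ * (2 * e h * C₁ + Cp h.1 + e h * Λ)) + C₂, fun i n hin hi hn => ?_⟩
  obtain ⟨N, rfl⟩ : ∃ N, n = i + N := ⟨n - i, by omega⟩
  have hN : 0 < N := by omega
  have h1 : iter F x (i + N) = iter F (iter F x i) N := by
    rw [Nat.add_comm i N, Pool.Agent.Helper36.iter_add]
  rw [h1] at hn
  have h2 := key N hN _ hi hn
  have h3 := hlow _ hi.1 N
  have hdN : (0 : ℝ) < (d : ℝ) ^ N := by positivity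
  have h4 : (d : ℝ) ^ N * (aht (iter F x i) - C₂) ≤
      (d : ℝ) ^ N * ∑ h : S, R₀ * (2 * e h * C₁ + Cp h.1 + e h * Λ) := by linarith
  have h5 := le_of_mul_le_mul_left h4 hdN
  linarith

/-- On a curve which is not periodic but contains many preperiodic points there are only finitely
many points of an infinite orbit. -/
theorem caseP {d : ℕ} {F : Fin (ν + 1) → MvPolynomial (Fin (ν + 1)) A}
    (hF : IsEndo d fun i => map (algebraMap A ℂ) (F i))
    {I : Ideal (MvPolynomial (Fin (ν + 1)) A)} (hI : IsCurve I)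
    (hnp : NonPer I F) (hmany : ManyPreA I F) {x : Fin (ν + 1) → A} (hx : x ≠ 0)
    (hdist : ∀ n m, n < m → ¬ PEq (iter F x n) (iter F x m)) :
    {n | OnI I (iter F x n)}.Finite := by
  obtain ⟨B, hB⟩ := aht_return_le_pre hF hI hnp hmany x
  obtain ⟨n₁, hn₁⟩ := aht_tendsto hF hx hdist B
  by_cases h : ∃ i, n₁ ≤ i ∧ OnI I (iter F x i)
  · obtain ⟨i, hi, hiI⟩ := h
    refine (Set.finite_Iic i).subset fun n hn => ?_
    rw [Set.mem_Iic]
    by_contra hcon
    push Not at hcon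
    have h1 := hB i n hcon hiI hn
    have h2 := hn₁ i hi
    linarith
  · push Not at h
    refine (Set.finite_Iio n₁).subset fun n hn => ?_
    rw [Set.mem_Iio]
    by_contra hcon
    push Not at hcon
    exact h n hcon hn

end Pool.Agent.Helper45.NZ
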