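import Mathlib

/-!
# Project NZ: the height in an extension of number fields
-/

set_option autoImplicit false

namespace Pool.Agent.Helper45.NZ

open Height NumberField

/-- The archimedean part of the height as a product over embeddings. -/
theorem ScaleQ_arch {L : Type} [Field L] [NumberField L] {ι : Type} (x : ι → L) :
    ∏ v : InfinitePlace L, (⨆ i, v (x i)) ^ v.mult = ∏ σ : L →+* ℂ, ⨆ i, ‖σ (x i)‖ := by
  classical
  rw [← Finset.prod_fiberwise Finset.univ InfinitePlace.mk (fun σ : L →+* ℂ => ⨆ i, ‖σ (x i)‖)]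
  have h (w : InfinitePlace L) (φ) (hφ : φ ∈ ({φ | InfinitePlace.mk φ = w} : Finset _)) :
      (⨆ i, ‖φ (x i)‖) = ⨆ i, w (x i) := by
    rw [← (Finset.mem_filter.mp hφ).2]
    rfl
  simp_rw [Finset.prod_congr rfl (h _), Finset.prod_const, InfinitePlace.card_filter_mk_eq]

/-- The number of extensions of an embedding. -/
theorem ScaleQ_card {L M : Type} [Field L] [NumberField L] [Field M] [NumberField M]
    [Algebra L M] (τ : L →+* ℂ) [DecidableEq (L →+* ℂ)] :
    ({σ : M →+* ℂ | σ.comp (algebraMap L M) = τ} : Finset (M →+* ℂ)).card =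
      Module.finrank L M := by
  classical
  let _ : Algebra L ℂ := τ.toAlgebra
  rw [← AlgHom.card L M ℂ, ← Fintype.card_coe]
  refine Fintype.card_congr ⟨fun σ => ⟨σ.1, fun r => ?_⟩, fun φ => ⟨φ.toRingHom, ?_⟩, ?_, ?_⟩
  · exact congrArg (fun f : L →+* ℂ => f r) (Finset.mem_filter.1 σ.2).2
  · rw [Finset.mem_filter]
    exact ⟨Finset.mem_univ _, RingHom.ext fun r => φ.commutes r⟩
  · intro σ
    rfl
  · intro φ
    rfl

/-- The archimedean part of the height in an extension. -/
theorem ScaleQ_arch_map {L M : Type} [Field L] [NumberField L] [Field M] [NumberField M]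
    [Algebra L M] {ι : Type} (x : ι → L) :
    ∏ v : InfinitePlace M, (⨆ i, v (algebraMap L M (x i))) ^ v.mult =
      (∏ v : InfinitePlace L, (⨆ i, v (x i)) ^ v.mult) ^ Module.finrank L M := by
  classical
  rw [ScaleQ_arch fun i => algebraMap L M (x i), ScaleQ_arch,
    ← Finset.prod_fiberwise Finset.univ (fun σ : M →+* ℂ => σ.comp (algebraMap L M)),
    ← Finset.prod_pow]
  refine Finset.prod_congr rfl fun τ _ => ?_
  rw [← ScaleQ_card (M := M) τ, ← Finset.prod_const]
  refine Finset.prod_congr rfl fun σ hσ => ?_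
  rw [← (Finset.mem_filter.mp hσ).2]
  rfl

/-- The finite part of the height in an extension, for integral vectors. -/
theorem ScaleQ_fin_map {L M : Type} [Field L] [NumberField L] [Field M] [NumberField M]
    [Algebra L M] {ι : Type} [Finite ι] {x : ι → 𝓞 L} (hx : x ≠ 0) :
    ∏ᶠ v : FinitePlace M, ⨆ i, v (algebraMap L M (x i)) =
      (∏ᶠ v : FinitePlace L, ⨆ i, v (x i : L)) ^ Module.finrank L M := by
  have hy : (fun i => algebraMap (𝓞 L) (𝓞 M) (x i)) ≠ 0 := by
    intro h
    apply hx
    funext i
    exact (map_eq_zero_iff _ (FaithfulSMul.algebraMap_injective (𝓞 L) (𝓞 M))).1 (congrFun h i)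
  have h1 := absNorm_mul_finprod_finitePlace_eq_one hx
  have h2 := absNorm_mul_finprod_finitePlace_eq_one hy
  have h3 : Ideal.span (Set.range fun i => algebraMap (𝓞 L) (𝓞 M) (x i)) =
      (Ideal.span (Set.range x)).map (algebraMap (𝓞 L) (𝓞 M)) := by
    rw [Ideal.map_span, ← Set.range_comp]
    rfl
  have h4 : ∀ i, ((algebraMap (𝓞 L) (𝓞 M) (x i) : 𝓞 M) : M) = algebraMap L M (x i) := by
    intro i
    rfl
  rw [h3, Ideal.absNorm_algebraMap, ← IsFractionRing.finrank_eq (𝓞 L) L (𝓞 M) M] at h2
  push_cast at h2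
  simp only [h4] at h2
  have h5 := congrArg (fun a => a ^ Module.finrank L M) h1
  simp only [mul_pow, one_pow] at h5
  have h6 : ((Ideal.absNorm (Ideal.span (Set.range x)) : ℝ)) ^ Module.finrank L M ≠ 0 := by
    intro h
    rw [h, zero_mul] at h5
    exact zero_ne_one h5
  exact mul_left_cancel₀ h6 (h2.trans h5.symm)

/-- The height of a vector is multiplied by the degree of the extension. -/
theorem logHeight_map {L M : Type} [Field L] [NumberField L] [Field M] [NumberField M]
    [Algebra L M] {ι : Type} [Finite ι] (x : ι → L) :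
    logHeight (fun i => algebraMap L M (x i)) = Module.finrank L M * logHeight x := by
  classical
  by_cases hx : x = 0
  · subst hx
    have h1 : (fun i => algebraMap L M ((0 : ι → L) i)) = 0 := by
      funext i
      simp
    rw [h1, logHeight_zero, logHeight_zero, mul_zero]
  have := Fintype.ofFinite ι
  obtain ⟨b, hb⟩ := IsLocalization.exist_integer_multiples_of_finite (nonZeroDivisors (𝓞 L)) x
  have hb0 : (algebraMap (𝓞 L) L b : L) ≠ 0 :=
    IsFractionRing.to_map_ne_zero_of_mem_nonZeroDivisors b.2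
  choose ξ hξ using hb
  have hξ' : ∀ i, (ξ i : L) = algebraMap (𝓞 L) L b * x i := by
    intro i
    have := hξ i
    rw [Algebra.smul_def] at this
    exact this
  have hξ0 : ξ ≠ 0 := by
    intro h
    apply hx
    funext i
    have h1 := hξ' i
    rw [h] at h1
    simp only [Pi.zero_apply, map_zero] at h1
    rcases mul_eq_zero.1 h1.symm with h2 | h2
    · exact absurd h2 hb0
    · exact h2
  have e1 : (fun i => (ξ i : L)) = (algebraMap (𝓞 L) L b : L) • x := by
    funext i
    rw [hξ', Pi.smul_apply, smul_eq_mul]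
  have e2 : (fun i => algebraMap L M (ξ i : L)) =
      algebraMap L M (algebraMap (𝓞 L) L b) • fun i => algebraMap L M (x i) := by
    funext i
    rw [hξ', Pi.smul_apply, smul_eq_mul, map_mul]
  have hb1 : algebraMap L M (algebraMap (𝓞 L) L b) ≠ 0 := by
    rw [Ne, map_eq_zero_iff _ (algebraMap L M).injective]
    exact hb0
  rw [← logHeight_smul_eq_logHeight _ hb1, ← e2, ← logHeight_smul_eq_logHeight x hb0, ← e1,
    logHeight_eq_log_mulHeight, logHeight_eq_log_mulHeight, ← Real.log_pow]
  have hn1 : (fun i => (ξ i : L)) ≠ 0 := by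
    intro h
    apply hξ0
    funext i
    exact RingOfIntegers.ext (congrFun h i)
  have hn2 : (fun i => algebraMap L M (ξ i : L)) ≠ 0 := by
    intro h
    apply hn1
    funext i
    exact (map_eq_zero_iff _ (algebraMap L M).injective).1 (congrFun h i)
  rw [NumberField.mulHeight_eq hn1, NumberField.mulHeight_eq hn2, mul_pow,
    ScaleQ_arch_map, ScaleQ_fin_map hξ0]

end Pool.Agent.Helper45.NZ
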