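import Pool.Agent.Helper45.NZ.Defs
import Pool.Agent.Helper45.NZ.ScaleQ

/-!
# Project NZ: the absolute height
-/

set_option autoImplicit false

namespace Pool.Agent.Helper45.NZ

open MvPolynomial Height AdmissibleAbsValues
open Pool.Agent.Helper29.TG (nm ls FS Mem)

variable {A : Type} [Field A] [CharZero A]

/-- A finite subextension of `A` which is contained in the image of the number field `M`. -/
theorem Aht_embed {M : Type} [Field M] [NumberField M] [Algebra M A]
    (L : IntermediateField ℚ A) (hL : ∀ l ∈ L, ∃ m : M, algebraMap M A m = l) :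
    ∃ ψ : L →ₐ[ℚ] M, ∀ l : L, algebraMap M A (ψ l) = l := by
  let φ : M →ₐ[ℚ] A := (algebraMap M A).toRatAlgHom
  have hφ : ∀ m, φ m = algebraMap M A m := fun m => rfl
  have h1 : L ≤ φ.fieldRange := by
    intro l hl
    obtain ⟨m, hm⟩ := hL l hl
    exact ⟨m, hm⟩
  let e : M ≃ₐ[ℚ] φ.fieldRange := AlgEquiv.ofInjectiveField φ
  refine ⟨(e.symm : φ.fieldRange →ₐ[ℚ] M).comp (IntermediateField.inclusion h1), fun l => ?_⟩
  have h2 : ((e (e.symm (IntermediateField.inclusion h1 l)) : φ.fieldRange) : A) =
      ((IntermediateField.inclusion h1 l : φ.fieldRange) : A) := by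
    rw [AlgEquiv.apply_symm_apply]
  exact h2

/-- The absolute height can be computed in any number field which contains the coordinates. -/
theorem aht_map {M : Type} [Field M] [NumberField M] [Algebra M A] {ι : Type} [Finite ι]
    (x : ι → M) :
    aht (fun i => algebraMap M A (x i)) = logHeight x / (Module.finrank ℚ M : ℝ) := by
  classical
  set y : ι → A := fun i => algebraMap M A (x i) with hy
  have hint : ∀ m : M, IsIntegral ℚ (algebraMap M A m) := by
    intro m
    have h1 : IsIntegral ℚ m := Algebra.IsIntegral.isIntegral m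
    exact h1.map ((algebraMap M A).toRatAlgHom)
  have hfd : FiniteDimensional ℚ (IntermediateField.adjoin ℚ (Set.range y)) := by
    have : Finite (Set.range y) := Set.finite_range y
    refine IntermediateField.finiteDimensional_adjoin ?_
    rintro _ ⟨i, rfl⟩
    exact hint (x i)
  have hL : ∀ l ∈ IntermediateField.adjoin ℚ (Set.range y), ∃ m : M, algebraMap M A m = l := by
    have h1 : IntermediateField.adjoin ℚ (Set.range y) ≤
        ((algebraMap M A).toRatAlgHom : M →ₐ[ℚ] A).fieldRange := by
      rw [IntermediateField.adjoin_le_iff]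
      rintro _ ⟨i, rfl⟩
      exact ⟨x i, rfl⟩
    intro l hl
    obtain ⟨m, hm⟩ := h1 hl
    exact ⟨m, hm⟩
  obtain ⟨ψ, hψ⟩ := Aht_embed (M := M) _ hL
  unfold aht
  rw [dif_pos hfd]
  have : NumberField (IntermediateField.adjoin ℚ (Set.range y)) :=
    { to_charZero := inferInstance, to_finiteDimensional := hfd }
  let _ : Algebra (IntermediateField.adjoin ℚ (Set.range y)) M := ψ.toRingHom.toAlgebra
  have : IsScalarTower ℚ (IntermediateField.adjoin ℚ (Set.range y)) M :=
    IsScalarTower.of_algebraMap_eq fun q => (ψ.commutes q).symm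
  have h2 := logHeight_map (M := M) (fun i => (⟨y i, IntermediateField.subset_adjoin ℚ _ ⟨i, rfl⟩⟩ :
      IntermediateField.adjoin ℚ (Set.range y)))
  have h3 : (fun i => algebraMap (IntermediateField.adjoin ℚ (Set.range y)) M
      (⟨y i, IntermediateField.subset_adjoin ℚ _ ⟨i, rfl⟩⟩ :
      IntermediateField.adjoin ℚ (Set.range y))) = x := by
    funext i
    apply (algebraMap M A).injective
    exact hψ _
  rw [h3] at h2
  have h4 := Module.finrank_mul_finrank ℚ (IntermediateField.adjoin ℚ (Set.range y)) M
  have h5 : (Module.finrank ℚ (IntermediateField.adjoin ℚ (Set.range y)) : ℝ) ≠ 0 := by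
    have := Module.finrank_pos (R := ℚ) (M := IntermediateField.adjoin ℚ (Set.range y))
    positivity
  have h6 : (Module.finrank (IntermediateField.adjoin ℚ (Set.range y)) M : ℝ) ≠ 0 := by
    have h7 : 0 < Module.finrank ℚ M := Module.finrank_pos
    rw [← h4] at h7
    have h8 := Nat.pos_of_mul_pos_left h7
    positivity
  rw [h2, ← h4]
  push_cast
  field_simp

/-- Finitely many elements are in a number field. -/
theorem exists_field [Algebra.IsAlgebraic ℚ A] {τ : Type} [Finite τ] (a : τ → A) :
    ∃ (M : Type) (_ : Field M) (_ : NumberField M) (_ : Algebra M A) (α : τ → M),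
      ∀ i, algebraMap M A (α i) = a i := by
  have hfd : FiniteDimensional ℚ (IntermediateField.adjoin ℚ (Set.range a)) := by
    have : Finite (Set.range a) := Set.finite_range a
    refine IntermediateField.finiteDimensional_adjoin ?_
    rintro _ ⟨i, rfl⟩
    exact Algebra.IsIntegral.isIntegral (a i)
  exact ⟨IntermediateField.adjoin ℚ (Set.range a), inferInstance,
    { to_charZero := inferInstance, to_finiteDimensional := hfd }, inferInstance,
    fun i => ⟨a i, IntermediateField.subset_adjoin ℚ _ ⟨i, rfl⟩⟩, fun i => rfl⟩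

theorem aht_nonneg [Algebra.IsAlgebraic ℚ A] {ι : Type} [Finite ι] (x : ι → A) : 0 ≤ aht x := by
  obtain ⟨M, _, _, _, α, hα⟩ := exists_field x
  have h : x = fun i => algebraMap M A (α i) := funext fun i => (hα i).symm
  rw [h, aht_map]
  exact div_nonneg (logHeight_nonneg _) (Nat.cast_nonneg _)

theorem aht_smul [Algebra.IsAlgebraic ℚ A] {ι : Type} [Finite ι] {c : A} (hc : c ≠ 0)
    (x : ι → A) : aht (fun i => c * x i) = aht x := by
  obtain ⟨M, _, _, _, α, hα⟩ := exists_field (fun o : Option ι => o.elim c x)
  have h : x = fun i => algebraMap M A (α (some i)) := funext fun i => (hα (some i)).symm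
  have h1 : algebraMap M A (α none) = c := hα none
  have h2 : (fun i => c * x i) = fun i => algebraMap M A ((α none • fun i => α (some i)) i) := by
    funext i
    rw [h]
    simp [h1]
  have h3 : α none ≠ 0 := by
    intro h4
    rw [h4, map_zero] at h1
    exact hc h1.symm
  rw [h2, aht_map, logHeight_smul_eq_logHeight _ h3, h, aht_map]

end Pool.Agent.Helper45.NZ
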