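import Pool.Agent.Helper30.ZB.Defs
import Pool.Agent.Helper29.TG.CtSum

/-!
# Project NZ (Zhang-Bezout for curves over the algebraic numbers): definitions

`A` is an algebraically closed field, algebraic over `ℚ`; `M` is a number field with an embedding
in `A`.
-/

set_option autoImplicit false

namespace Pool.Agent.Helper45.NZ

open MvPolynomial Height AdmissibleAbsValues
open Pool.Agent.Helper29.TG (nm ls FS Mem)

/-- The absolute logarithmic height of a vector with coordinates algebraic over `ℚ`. -/
noncomputable def aht {A : Type} [Field A] [CharZero A] {ι : Type} (x : ι → A) : ℝ :=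
  open Classical in
  if h : FiniteDimensional ℚ (IntermediateField.adjoin ℚ (Set.range x)) then
    have : NumberField (IntermediateField.adjoin ℚ (Set.range x)) :=
      { to_charZero := inferInstance, to_finiteDimensional := h }
    logHeight (fun i => (⟨x i, IntermediateField.subset_adjoin ℚ _ ⟨i, rfl⟩⟩ :
      IntermediateField.adjoin ℚ (Set.range x))) /
        (Module.finrank ℚ (IntermediateField.adjoin ℚ (Set.range x)) : ℝ)
  else 0

section

variable {A : Type} [Field A]

/-- The absolute value `W` is nonarchimedean or given by an embedding in the complex numbers. -/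
def Pl (W : AbsoluteValue A ℝ) : Prop :=
  IsNonarchimedean W ∨ ∃ τ : A →+* ℂ, ∀ a, W a = ‖τ a‖

/-- `0` for nonarchimedean absolute values, `1` for the others. -/
noncomputable def kap (W : AbsoluteValue A ℝ) : ℝ :=
  open Classical in if IsNonarchimedean W then 0 else 1

/-- The size of a polynomial: the maximum of the absolute values of the coefficients for a
nonarchimedean absolute value, the sum for the others. -/
noncomputable def sz {σ : Type} (W : AbsoluteValue A ℝ) (G : MvPolynomial σ A) : ℝ :=
  open Classical in
  if IsNonarchimedean W then ⨆ m : G.support, W (G.coeff m) else ∑ m ∈ G.support, W (G.coeff m)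

/-- The positive part of the logarithm of the size. -/
noncomputable def lp {σ : Type} (W : AbsoluteValue A ℝ) (G : MvPolynomial σ A) : ℝ :=
  max 0 (Real.log (sz W G))

/-- A bound for the height of a polynomial. -/
noncomputable def Cp {σ : Type} [CharZero A] (G : MvPolynomial σ A) : ℝ :=
  ∑ m ∈ G.support, aht ![G.coeff m, 1] + Real.log (G.support.card + 1)

end

end Pool.Agent.Helper45.NZ
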