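import Pool.Agent.Helper88.NF.Frame
import Pool.Agent.Helper45.NZ.CaseP
import Pool.Agent.Helper33.SS.Dim

/-!
# Project NZ: curves with a dense set of preperiodic points

On a curve over the algebraic numbers in which the preperiodic points are dense every return set is a
finite union of progressions.
-/

set_option autoImplicit false

namespace Pool.Agent.Helper45.NZ

open MvPolynomial
open Pool.Agent.Helper33.SS (InZ ev inZ_smul lineIdeal mem_lineIdeal lineIdeal_prime
  lineIdeal_lt_point lineIdeal_inj)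
open Pool.Agent.Helper36 (iter iter_succ iter_add step APSet APSet_union APSet_of_finite
  APSet_empty APSet_of_evClosed)
open Pool.Agent.Helper38.TQ
open Pool.Agent.Helper63.TN (OnI IsCurve NonPer van van_form van_hom van_prime van_curve van_on
  mem_van)
open Pool.Agent.Helper88.NF (exists_reps on_of_forms on_add on_sub endo_descend iter_ev iter_alg)

/-- A finite union of progressions. -/
def Prog (S : Set ℕ) : Prop := ∃ T, S = APSet T

theorem Prog.union {S T : Set ℕ} (hS : Prog S) (hT : Prog T) : Prog (S ∪ T) := by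
  obtain ⟨A, rfl⟩ := hS
  obtain ⟨B, rfl⟩ := hT
  exact ⟨A ∪ B, (APSet_union A B).symm⟩

theorem Prog.of_finite {S : Set ℕ} (hS : S.Finite) : Prog S := APSet_of_finite hS

/-- A set is a finite union of progressions if this is true for every free ultrafilter which
contains it. -/
theorem prog_of_ultra {S : Set ℕ} (h : ∀ U : Ultrafilter ℕ, Free U → S ∈ (U : Filter ℕ) →
    ∃ T : Set ℕ, T ∈ (U : Filter ℕ) ∧ T ⊆ S ∧ Prog T) : Prog S := by
  by_contra hS
  have h0 : Prog (∅ : Set ℕ) := Prog.of_finite Set.finite_empty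
  let F : Filter ℕ :=
    { sets := {A | ∃ (T : Set ℕ) (m : ℕ), T ⊆ S ∧ Prog T ∧ (S \ T) ∩ Set.Ici m ⊆ A}
      univ_sets := ⟨∅, 0, Set.empty_subset _, h0, Set.subset_univ _⟩
      sets_of_superset := fun {A B} hA hAB => by
        obtain ⟨T, m, h1, h2, h3⟩ := hA
        exact ⟨T, m, h1, h2, h3.trans hAB⟩
      inter_sets := fun {A B} hA hB => by
        obtain ⟨T, m, h1, h2, h3⟩ := hA
        obtain ⟨T', m', h1', h2', h3'⟩ := hB
        refine ⟨T ∪ T', max m m', Set.union_subset h1 h1', h2.union h2', ?_⟩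
        rintro n ⟨⟨k1, k2⟩, k3⟩
        rw [Set.mem_Ici, max_le_iff] at k3
        rw [Set.mem_union, not_or] at k2
        exact ⟨h3 ⟨⟨k1, k2.1⟩, k3.1⟩, h3' ⟨⟨k1, k2.2⟩, k3.2⟩⟩ }
  have hmem : ∀ A : Set ℕ, A ∈ F ↔
      ∃ (T : Set ℕ) (m : ℕ), T ⊆ S ∧ Prog T ∧ (S \ T) ∩ Set.Ici m ⊆ A := fun A => Iff.rfl
  have hne : F.NeBot := by
    rw [Filter.neBot_iff]
    intro hb
    have h1 : (∅ : Set ℕ) ∈ F := by
      rw [hb]
      exact Filter.mem_bot
    obtain ⟨T, m, h2, h3, h4⟩ := (hmem _).1 h1
    apply hS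
    have h5 : S = T ∪ (S ∩ Set.Iio m) := by
      ext n
      constructor
      · intro hn
        by_cases hT : n ∈ T
        · exact Or.inl hT
        · right
          refine ⟨hn, ?_⟩
          by_contra hm
          rw [Set.mem_Iio, not_lt] at hm
          exact h4 ⟨⟨hn, hT⟩, hm⟩
      · rintro (hn | hn)
        · exact h2 hn
        · exact hn.1
    rw [h5]
    exact h3.union (Prog.of_finite ((Set.finite_Iio m).subset Set.inter_subset_right))
  have hle : ((Ultrafilter.of F : Ultrafilter ℕ) : Filter ℕ) ≤ F := Ultrafilter.of_le F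
  have hfree : Free (Ultrafilter.of F) := by
    intro m
    refine hle ((hmem _).2 ⟨∅, m, Set.empty_subset _, h0, ?_⟩)
    rintro n ⟨_, hn⟩
    exact hn
  have hSU : S ∈ ((Ultrafilter.of F : Ultrafilter ℕ) : Filter ℕ) := by
    refine hle ((hmem _).2 ⟨∅, 0, Set.empty_subset _, h0, ?_⟩)
    rintro n ⟨⟨hn, _⟩, _⟩
    exact hn
  obtain ⟨T, h1, h2, h3⟩ := h _ hfree hSU
  have h4 : S \ T ∈ ((Ultrafilter.of F : Ultrafilter ℕ) : Filter ℕ) := by
    refine hle ((hmem _).2 ⟨T, 0, h2, h3, ?_⟩)
    rintro n ⟨hn, _⟩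
    exact hn
  have h5 := Filter.inter_mem h1 h4
  rw [Set.inter_sdiff_self] at h5
  exact (Ultrafilter.of F).empty_notMem h5

/-- A chain of four primes over `I` bounds the dimension of the quotient from below. -/
theorem three_le_dim {R : Type*} [CommRing R] {I p q r s : Ideal R} [hp : p.IsPrime]
    [hq : q.IsPrime] [hr : r.IsPrime] [hs : s.IsPrime] (h1 : I ≤ p) (h2 : p < q) (h3 : q < r)
    (h4 : r < s) : (3 : WithBot ℕ∞) ≤ ringKrullDim (R ⧸ I) := by
  rw [ringKrullDim_quotient]
  let P : PrimeSpectrum.zeroLocus (R := R) (I : Set R) := ⟨⟨p, hp⟩, h1⟩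
  let Q : PrimeSpectrum.zeroLocus (R := R) (I : Set R) := ⟨⟨q, hq⟩, h1.trans h2.le⟩
  let T : PrimeSpectrum.zeroLocus (R := R) (I : Set R) := ⟨⟨r, hr⟩, h1.trans (h2.trans h3).le⟩
  let W : PrimeSpectrum.zeroLocus (R := R) (I : Set R) :=
    ⟨⟨s, hs⟩, h1.trans ((h2.trans h3).trans h4).le⟩
  have hPQ : P < Q := h2
  have hQT : Q < T := h3
  have hTW : T < W := h4
  let c : LTSeries (PrimeSpectrum.zeroLocus (R := R) (I : Set R)) :=
    (((RelSeries.singleton _ P).snoc Q (by simpa using hPQ)).snoc T (by simpa using hQT)).snoc W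
      (by simpa using hTW)
  have hc : c.length = 3 := rfl
  have := Order.LTSeries.length_le_krullDim c
  rw [hc] at this
  simpa using this

variable {N : ℕ}

/-- The point is preperiodic. -/
def PreC (f : Fin (N + 1) → MvPolynomial (Fin (N + 1)) ℂ) (z : Fin (N + 1) → ℂ) : Prop :=
  ∃ m l : ℕ, m < l ∧ ∃ c : ℂ, (ev f)^[l] z = c • (ev f)^[m] z

/-- The preperiodic points are dense in the closed set `V`. -/
def DensePre (f : Fin (N + 1) → MvPolynomial (Fin (N + 1)) ℂ)
    (V : Set (MvPolynomial (Fin (N + 1)) ℂ)) : Prop :=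
  ∀ g : MvPolynomial (Fin (N + 1)) ℂ, (∃ e : ℕ, g.IsHomogeneous e) →
    (∀ z : Fin (N + 1) → ℂ, z ≠ 0 → InZ V z → PreC f z → eval z g = 0) →
    ∀ z : Fin (N + 1) → ℂ, z ≠ 0 → InZ V z → eval z g = 0

/-- A polynomial which vanishes on a punctured line vanishes on the line. -/
theorem line_zero {z : Fin (N + 1) → ℂ} {g : MvPolynomial (Fin (N + 1)) ℂ}
    (h : ∀ c : ℂ, c ≠ 0 → eval (c • z) g = 0) (e : ℕ) :
    eval z (homogeneousComponent e g) = 0 := by
  refine Pool.Agent.Helper63.TN.vanLine_hom (fun c => ?_) e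
  have h1 : Pool.Agent.Helper63.TN.vanLine z g = 0 := by
    refine Polynomial.eq_zero_of_infinite_isRoot _ ?_
    refine ((Set.finite_singleton (0 : ℂ)).infinite_compl).mono fun c hc => ?_
    show Polynomial.IsRoot _ _
    rw [Polynomial.IsRoot, Pool.Agent.Helper63.TN.eval_vanLine]
    exact h c hc
  rw [← Pool.Agent.Helper63.TN.eval_vanLine, h1, Polynomial.eval_zero]

theorem preC_smul {d : ℕ} {f : Fin (N + 1) → MvPolynomial (Fin (N + 1)) ℂ}
    (hf : ∀ i, (f i).IsHomogeneous d) {z : Fin (N + 1) → ℂ} (h : PreC f z) {c : ℂ} (hc : c ≠ 0) :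
    PreC f (c • z) := by
  obtain ⟨m, l, hml, b, hb⟩ := h
  refine ⟨m, l, hml, c ^ d ^ l * b * (c ^ d ^ m)⁻¹, ?_⟩
  rw [Pool.Agent.Helper33.SS.evc_smul hf, Pool.Agent.Helper33.SS.evc_smul hf, hb, smul_smul,
    smul_smul, mul_assoc (c ^ d ^ l * b), inv_mul_cancel₀ (pow_ne_zero _ hc), mul_one]

variable {A : Type} [Field A]

/-- If the preperiodic points are dense in `V`, every curve in `V` contains many of them. -/
theorem many_of_dense [IsAlgClosed A] [Algebra A ℂ] {d : ℕ}
    {F : Fin (N + 1) → MvPolynomial (Fin (N + 1)) A}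
    (hF : IsEndo d fun i => map (algebraMap A ℂ) (F i))
    (V : Set (MvPolynomial (Fin (N + 1)) ℂ)) (hV : ∀ g ∈ V, ∃ e : ℕ, g.IsHomogeneous e)
    (hdim : ringKrullDim (MvPolynomial (Fin (N + 1)) ℂ ⧸ Ideal.span V) ≤ 2)
    (hdense : DensePre (fun i => map (algebraMap A ℂ) (F i)) V)
    {U : Ultrafilter ℕ} (hU : Free U) {x : ℕ → Fin (N + 1) → A} (hx : ∀ n, x n ≠ 0)
    (hxV : ∀ᶠ n in (U : Filter ℕ), InZ V fun i => algebraMap A ℂ (x n i))
    (hI : IsCurve (van U x)) (hdist : ∀ n m, n < m → ¬ PEq (x n) (x m)) :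
    ManyPreA (van U x) F := by
  classical
  by_contra hfew
  have hinf : Infinite A := IsAlgClosed.instInfinite
  have hFA := endo_descend hF
  have hinj : Function.Injective (algebraMap A ℂ) := (algebraMap A ℂ).injective
  obtain ⟨B, hB⟩ := exists_reps (fun w => OnI (van U x) w ∧ IsPre F w) hfew
  set y : ℕ → Fin (N + 1) → ℂ := fun n i => algebraMap A ℂ (x n i) with hy
  have hy0 : ∀ n, y n ≠ 0 := by
    intro n h
    apply hx n
    funext i
    apply hinj
    have := congrFun h i
    simpa [hy] using this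
  set J := van U y with hJ
  have hJp : J.IsPrime := van_prime hy0
  have hVJ : Ideal.span V ≤ J := by
    rw [Ideal.span_le]
    intro g hg
    obtain ⟨e, he⟩ := hV g hg
    show g ∈ J
    rw [hJ, van_form he]
    filter_upwards [hxV] with n hn
    exact hn g hg
  -- two different points
  have hon : ∀ᶠ n in (U : Filter ℕ), OnI J (y n) := van_on hy0
  have hline : ∀ n, OnI J (y n) → J ≤ lineIdeal (y n) := by
    intro n hn g hg
    rw [mem_lineIdeal]
    intro c
    rw [← sum_homogeneousComponent g, map_sum]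
    refine Finset.sum_eq_zero fun e _ => ?_
    have h1 : eval (c • y n) (homogeneousComponent e g) =
        c ^ e * eval (y n) (homogeneousComponent e g) :=
      eval_smul_hom (homogeneousComponent_isHomogeneous e g) c (y n)
    have h2 : (fun i => y n i * c) = c • y n := by
      funext i
      simp [mul_comm]
    have h3 := hn.2 _ (van_hom hg e)
    rw [h2, h1]
    have h4 : aeval (y n) (homogeneousComponent e g) = eval (y n) (homogeneousComponent e g) := by
      rw [← MvPolynomial.coe_aeval_eq_eval]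
      rfl
    rw [h4] at h3
    rw [h3, mul_zero]
  have hne : ∀ n m, n < m → ∀ c : ℂ, y m ≠ c • y n := by
    intro n m hnm c hc
    have hc0 : c ≠ 0 := by
      rintro rfl
      exact hy0 m (by rw [hc, zero_smul])
    exact hdist n m hnm (PEq.descend (algebraMap A ℂ) (hx n) (hx m) ⟨c, hc0, hc⟩)
  obtain ⟨n₁, hn₁⟩ := hon.exists
  obtain ⟨n₂, hn₂, hn₁₂⟩ := (hon.and (hU (n₁ + 1))).exists
  have hn₁₂ : n₁ < n₂ := by
    have : n₁ + 1 ≤ n₂ := hn₁₂
    omega
  -- `J` is a minimal prime
  have hJmin : J ∈ (Ideal.span V).minimalPrimes := by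
    obtain ⟨P, hP, hPJ⟩ := Ideal.exists_minimalPrimes_le hVJ
    have hPp : P.IsPrime := hP.1.1
    rcases eq_or_lt_of_le hPJ with h | h
    · rw [← h]
      exact hP
    · exfalso
      have hLp : (lineIdeal (y n₁)).IsPrime := lineIdeal_prime _
      have h2 : J < lineIdeal (y n₁) := by
        refine lt_of_le_of_ne (hline n₁ hn₁) fun h2 => ?_
        obtain ⟨j, hj⟩ := Function.ne_iff.1 (hy0 n₁)
        have hj' : y n₁ j ≠ 0 := hj
        apply hne n₁ n₂ hn₁₂ (y n₂ j / y n₁ j)
        funext i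
        have h3 : (X i * C (y n₁ j) - X j * C (y n₁ i) : MvPolynomial (Fin (N + 1)) ℂ) ∈ J := by
          rw [h2, mem_lineIdeal]
          intro c
          simp
          ring
        have h4 := hline n₂ hn₂ h3
        rw [mem_lineIdeal] at h4
        have h5 := h4 1
        simp only [map_sub, map_mul, eval_X, eval_C, mul_one] at h5
        rw [Pi.smul_apply, smul_eq_mul]
        field_simp
        linear_combination h5
      have hkp : (RingHom.ker (eval (y n₁) : MvPolynomial (Fin (N + 1)) ℂ →+* ℂ)).IsPrime :=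
        RingHom.ker_isPrime _
      have h3 := three_le_dim hP.1.2 h h2 (lineIdeal_lt_point (hy0 n₁))
      exact absurd (h3.trans hdim) (by decide)
  have hfin : (Ideal.span V).minimalPrimes.Finite :=
    Ideal.finite_minimalPrimes_of_isNoetherianRing _ _
  have hother : ∀ P : Ideal (MvPolynomial (Fin (N + 1)) ℂ), ∃ h : MvPolynomial (Fin (N + 1)) ℂ,
      P ∈ (Ideal.span V).minimalPrimes → P ≠ J → h ∈ P ∧ h ∉ J := by
    intro P
    by_cases h : P ∈ (Ideal.span V).minimalPrimes ∧ P ≠ J
    · have h1 : ¬ P ≤ J := fun h2 => h.2 (le_antisymm h2 (hJmin.2 h.1.1 h2))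
      obtain ⟨g, hg, hg'⟩ := SetLike.not_le_iff_exists.1 h1
      exact ⟨g, fun _ _ => ⟨hg, hg'⟩⟩
    · exact ⟨0, fun h1 h2 => absurd ⟨h1, h2⟩ h⟩
  choose hh hhP using hother
  -- linear forms
  have hlin : ∀ b : Fin (N + 1) → A, ∃ l : MvPolynomial (Fin (N + 1)) ℂ, l ∉ J ∧
      (b ≠ 0 → ∀ c : ℂ, eval (c • fun i => algebraMap A ℂ (b i)) l = 0) := by
    intro b
    by_cases hb : b = 0
    · exact ⟨1, fun h => hJp.ne_top ((Ideal.eq_top_iff_one _).2 h), fun h => absurd hb h⟩
    by_contra hcon
    push Not at hcon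
    have h1 : ∀ i j, (C (algebraMap A ℂ (b j)) * X i - C (algebraMap A ℂ (b i)) * X j :
        MvPolynomial (Fin (N + 1)) ℂ) ∈ J := by
      intro i j
      by_contra h
      obtain ⟨-, c, hc⟩ := hcon _ h
      apply hc
      simp
      ring
    have h2 : ∀ n, OnI J (y n) → ∃ c : ℂ, c ≠ 0 ∧ y n = c • fun i => algebraMap A ℂ (b i) := by
      intro n hn
      obtain ⟨j, hj⟩ := Function.ne_iff.1 hb
      have hj' : algebraMap A ℂ (b j) ≠ 0 := (map_ne_zero _).2 hj
      have h4 : y n = (y n j / algebraMap A ℂ (b j)) • fun i => algebraMap A ℂ (b i) := by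
        funext i
        have h3 := hn.2 _ (h1 i j)
        simp only [map_sub, map_mul, aeval_X, aeval_C, Algebra.algebraMap_self_apply] at h3
        rw [Pi.smul_apply, smul_eq_mul]
        field_simp
        linear_combination h3
      refine ⟨_, ?_, h4⟩
      intro h0
      rw [h0, zero_smul] at h4
      exact hy0 n h4
    obtain ⟨c₁, hc₁, h3⟩ := h2 n₁ hn₁
    obtain ⟨c₂, hc₂, h4⟩ := h2 n₂ hn₂
    apply hne n₁ n₂ hn₁₂ (c₂ * c₁⁻¹)
    rw [h4, h3, smul_smul, mul_assoc, inv_mul_cancel₀ hc₁, mul_one]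
  choose ll hll hll0 using hlin
  set g : MvPolynomial (Fin (N + 1)) ℂ :=
    (∏ P ∈ hfin.toFinset.erase J, hh P) * ∏ b ∈ B, ll b with hg
  have hgJ : g ∉ J := by
    rw [hg]
    intro h
    rcases hJp.mem_or_mem h with h | h
    · rw [Ideal.IsPrime.prod_mem_iff] at h
      obtain ⟨P, hP, hPJ⟩ := h
      rw [Finset.mem_erase, Set.Finite.mem_toFinset] at hP
      exact (hhP P hP.2 hP.1).2 hPJ
    · rw [Ideal.IsPrime.prod_mem_iff] at h
      obtain ⟨b, -, hb⟩ := h
      exact hll b hb
  -- `g` vanishes at the preperiodic points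
  have hgz : ∀ z : Fin (N + 1) → ℂ, z ≠ 0 → InZ V z →
      PreC (fun i => map (algebraMap A ℂ) (F i)) z → eval z g = 0 := by
    intro z hz hzV hpre
    have hkp : (RingHom.ker (eval z : MvPolynomial (Fin (N + 1)) ℂ →+* ℂ)).IsPrime :=
      RingHom.ker_isPrime _
    have hle : Ideal.span V ≤ RingHom.ker (eval z : MvPolynomial (Fin (N + 1)) ℂ →+* ℂ) := by
      rw [Ideal.span_le]
      exact hzV
    obtain ⟨P, hP, hPz⟩ := Ideal.exists_minimalPrimes_le hle
    by_cases hPJ : P = J
    · subst hPJ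
      have hzJ : ∀ G ∈ J, eval z G = 0 := fun G hG => hPz hG
      obtain ⟨m, l, hml, c, hc⟩ := hpre
      rw [iter_ev, iter_ev] at hc
      have hc0 : c ≠ 0 := by
        rintro rfl
        exact iter_ne_zero hFA hz l (by rw [hc, zero_smul])
      obtain ⟨w, c₁, hc₁, hw⟩ := isConst_of_preper_complex hFA hz ⟨m, l, hml, c, hc0, hc⟩
      have hw' : z = c₁ • fun i => algebraMap A ℂ (w i) := hw
      have hw0 : w ≠ 0 := by
        rintro rfl
        apply hz
        rw [hw]
        funext i
        simp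
      have hon' : OnI (van U x) w := by
        refine on_of_forms hI hw0 fun G hG e he => ?_
        have h1 : map (algebraMap A ℂ) G ∈ J := by
          rw [hJ, van_form (he.map _)]
          filter_upwards [(van_form he).1 hG] with n hn
          rw [eval_map_k]
          have h4 : aeval (y n) G = algebraMap A ℂ (aeval (x n) G) :=
            aeval_algebraMap_apply (A := A) (B := ℂ) (x n) G
          have h5 : aeval (x n) G = eval (x n) G := by
            rw [← MvPolynomial.coe_aeval_eq_eval]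
            rfl
          rw [h4, h5, hn, map_zero]
        have h2 := hzJ _ h1
        rw [eval_map_k, hw', aeval_smul_hom he] at h2
        have h3 := (mul_eq_zero.1 h2).resolve_left (pow_ne_zero _ hc₁)
        have h4 : aeval (fun i => algebraMap A ℂ (w i)) G = algebraMap A ℂ (aeval w G) :=
          aeval_algebraMap_apply (A := A) (B := ℂ) w G
        rw [h4] at h3
        exact (map_eq_zero _).1 h3
      have hpre' : IsPre F w := by
        refine ⟨m, l, hml, ?_⟩
        have h3 : PEq (iter F z m) (iter F z l) := ⟨c, hc0, hc⟩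
        have h4 : PEq (fun i => algebraMap A ℂ (w i)) z := ⟨c₁, hc₁, hw'⟩
        have h5 := ((PEq.iter hFA h4 m).trans h3).trans (PEq.iter hFA h4.symm l)
        have h6 : ∀ n, iter F (fun i => algebraMap A ℂ (w i)) n =
            fun i => algebraMap A ℂ (iter F w n i) := fun n =>
          Pool.Agent.Helper36.iter_map F (Algebra.ofId A ℂ) w n
        rw [h6, h6] at h5
        exact PEq.descend (algebraMap A ℂ) (iter_ne_zero hFA hw0 m) (iter_ne_zero hFA hw0 l) h5
      obtain ⟨b, hb, γ, hγ, hγw⟩ := hB w ⟨hon', hpre'⟩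
      have hb0 : b ≠ 0 := by
        rintro rfl
        apply hw0
        rw [hγw, smul_zero]
      have h7 : z = (c₁ * algebraMap A ℂ γ) • fun i => algebraMap A ℂ (b i) := by
        rw [hw', ← smul_smul]
        congr 1
        funext i
        rw [hγw]
        simp
      rw [hg, map_mul, map_prod, map_prod]
      apply mul_eq_zero_of_right
      refine Finset.prod_eq_zero hb ?_
      rw [h7]
      exact hll0 b hb0 _
    · rw [hg, map_mul, map_prod]
      apply mul_eq_zero_of_left
      refine Finset.prod_eq_zero (i := P) ?_ ?_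
      · rw [Finset.mem_erase, Set.Finite.mem_toFinset]
        exact ⟨hPJ, hP⟩
      · exact hPz (hhP P hP hPJ).1
  apply hgJ
  rw [← sum_homogeneousComponent g]
  refine Ideal.sum_mem _ fun e _ => ?_
  rw [hJ, van_form (homogeneousComponent_isHomogeneous e g)]
  filter_upwards [hxV] with n hn
  refine hdense _ ⟨e, homogeneousComponent_isHomogeneous e g⟩ (fun z hz hzV hpre => ?_) (y n)
    (hy0 n) hn
  refine line_zero (fun c hc => ?_) e
  refine hgz _ (smul_ne_zero hc hz) ?_ (preC_smul hF.hom hpre hc)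
  rwa [inZ_smul hV hc]

/-- Curves with a dense set of preperiodic points, over the algebraic numbers. -/
theorem prog_over [IsAlgClosed A] [CharZero A] [Algebra.IsAlgebraic ℚ A] [Algebra A ℂ] {d : ℕ}
    {F : Fin (N + 1) → MvPolynomial (Fin (N + 1)) A}
    (hF : IsEndo d fun i => map (algebraMap A ℂ) (F i))
    {a : Fin (N + 1) → A} (ha : a ≠ 0) (V : Set (MvPolynomial (Fin (N + 1)) ℂ))
    (hV : ∀ g ∈ V, ∃ e : ℕ, g.IsHomogeneous e)
    (hdim : ringKrullDim (MvPolynomial (Fin (N + 1)) ℂ ⧸ Ideal.span V) ≤ 2)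
    (hdense : DensePre (fun i => map (algebraMap A ℂ) (F i)) V)
    (hdist : ∀ n m, n < m → ¬ PEq (iter F a n) (iter F a m)) :
    Prog {n | InZ V fun i => algebraMap A ℂ (iter F a n i)} := by
  classical
  have hFA := endo_descend hF
  have hinf : Infinite A := IsAlgClosed.instInfinite
  refine prog_of_ultra fun U hU hS => ?_
  have hS' : ∀ᶠ n in (U : Filter ℕ), InZ V fun i => algebraMap A ℂ (iter F a n i) := hS
  have hcur : OnCurve U (iter F a) := curveSet_of_krull hV hdim A (iter F a) U hS'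
  have hI : IsCurve (van U (iter F a)) :=
    van_curve (k := A) (fun n => iter_ne_zero hFA ha n) hcur
  have hon : ∀ᶠ n in (U : Filter ℕ), OnI (van U (iter F a)) (iter F a n) :=
    van_on fun n => iter_ne_zero hFA ha n
  have hsub : ∀ n, OnI (van U (iter F a)) (iter F a n) →
      InZ V fun i => algebraMap A ℂ (iter F a n i) := fun n h => on_sub hV hS' h
  refine ⟨{n | OnI (van U (iter F a)) (iter F a n)}, hon, hsub, ?_⟩
  by_cases hnp : NonPer (van U (iter F a)) F
  · exact Prog.of_finite (caseP hF hI hnp (many_of_dense hF V hV hdim hdense hU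
      (fun n => iter_ne_zero hFA ha n) hS' hI hdist) ha hdist)
  · unfold NonPer at hnp
    push Not at hnp
    obtain ⟨M, hM, hM'⟩ := hnp
    refine APSet_of_evClosed hM (Set.finite_empty.subset ?_)
    rintro n ⟨hn1, hn2⟩
    exact hn2 (on_add hFA hI hM' ha hn1)

/-- **Curves with a dense set of preperiodic points.** The return sets are finite unions of
progressions, for endomorphisms and points over the algebraic numbers. -/
theorem prog_dense_alg (N d : ℕ) (hd : 2 ≤ d)
    (f : Fin (N + 1) → MvPolynomial (Fin (N + 1)) ℂ) (hf : ∀ i, (f i).IsHomogeneous d)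
    (hnz : ∀ x : Fin (N + 1) → ℂ, (∀ i, eval x (f i) = 0) → x = 0)
    (hfalg : ∀ i m, IsAlgebraic ℚ ((f i).coeff m))
    (a : Fin (N + 1) → ℂ) (ha : a ≠ 0) (haalg : ∀ i, IsAlgebraic ℚ (a i))
    (V : Set (MvPolynomial (Fin (N + 1)) ℂ)) (hV : ∀ g ∈ V, ∃ e : ℕ, g.IsHomogeneous e)
    (hdim : ringKrullDim (MvPolynomial (Fin (N + 1)) ℂ ⧸ Ideal.span V) ≤ 2)
    (hdense : DensePre f V) :
    Prog {n | InZ V ((ev f)^[n] a)} := by
  classical
  by_cases hper : ∃ n k, 1 ≤ k ∧ ∃ c : ℂ, (ev f)^[n + k] a = c • (ev f)^[n] a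
  · -- preperiodic points
    have hev0 : ∀ x : Fin (N + 1) → ℂ, ev f x = 0 → x = 0 := fun x h =>
      hnz x fun i => congrFun h i
    have horb0 : ∀ n, (ev f)^[n] a ≠ 0 := by
      intro n
      induction n with
      | zero => exact ha
      | succ n ih =>
        rw [Function.iterate_succ_apply']
        exact fun h => ih (hev0 _ h)
    obtain ⟨n₀, k, hk, c, hc⟩ := hper
    refine APSet_of_evClosed hk ((Set.finite_Iio n₀).subset ?_)
    rintro n ⟨hn1, hn2⟩
    by_contra hlt
    apply hn2
    have hle : n₀ ≤ n := not_lt.1 hlt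
    obtain ⟨m, rfl⟩ := Nat.exists_eq_add_of_le hle
    have h1 : (ev f)^[n₀ + m + k] a = c ^ (d ^ m) • (ev f)^[n₀ + m] a := by
      rw [show n₀ + m + k = m + (n₀ + k) by ring, Function.iterate_add_apply, hc,
        Pool.Agent.Helper33.SS.evc_smul hf, ← Function.iterate_add_apply, add_comm m n₀]
    have hc0 : c ≠ 0 := by
      rintro rfl
      exact horb0 (n₀ + k) (by rw [hc, zero_smul])
    show InZ V ((ev f)^[n₀ + m + k] a)
    rw [h1, inZ_smul hV (pow_ne_zero _ hc0)]
    exact hn1
  · push Not at hper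
    let A : Type := algebraicClosure ℚ ℂ
    have hAcl : IsAlgClosed A :=
      (IsAlgClosed.algebraicClosure_eq_bot_iff (algebraicClosure ℚ ℂ) ℂ).1
        (algebraicClosure.algebraicClosure_eq_bot ℚ ℂ)
    have hinj : Function.Injective (algebraMap A ℂ) := (algebraMap A ℂ).injective
    have hAalg : ∀ x : A, IsAlgebraic ℚ (algebraMap A ℂ x) := fun x =>
      mem_algebraicClosure_iff.1 x.2
    have hch : CharZero A := charZero_of_injective_algebraMap (R := ℚ) (A := A)
      (algebraMap ℚ A).injective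
    have hal : Algebra.IsAlgebraic ℚ A := by
      have h1 : @Algebra.IsAlgebraic ℚ A _ _ (algebraicClosure ℚ ℂ).algebra' :=
        algebraicClosure.isAlgebraic ℚ ℂ
      have h0 : (algebraicClosure ℚ ℂ).algebra' = (DivisionRing.toRatAlgebra : Algebra ℚ A) :=
        Subsingleton.elim _ _
      rw [h0] at h1
      exact h1
    have hlift : ∀ i, ∃ F : MvPolynomial (Fin (N + 1)) A,
        MvPolynomial.map (algebraMap A ℂ) F = f i := by
      intro i
      refine ⟨∑ m ∈ (f i).support, MvPolynomial.monomial m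
        (⟨(f i).coeff m, mem_algebraicClosure_iff.2 (hfalg i m)⟩ : A), ?_⟩
      rw [map_sum]
      conv_rhs => rw [(f i).as_sum]
      refine Finset.sum_congr rfl fun m _ => ?_
      rw [MvPolynomial.map_monomial]
      rfl
    choose F hFf using hlift
    have hff : (fun i => map (algebraMap A ℂ) (F i)) = f := funext hFf
    set a₀ : Fin (N + 1) → A := fun i => ⟨a i, mem_algebraicClosure_iff.2 (haalg i)⟩ with ha₀
    have ha₀a : (fun i => algebraMap A ℂ (a₀ i)) = a := rfl
    have hit : ∀ n, (ev f)^[n] a = fun i => algebraMap A ℂ (iter F a₀ n i) := by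
      intro n
      have h1 := iter_alg F a₀ n
      rw [hff, ha₀a] at h1
      exact h1
    have ha₀0 : a₀ ≠ 0 := by
      intro h
      apply ha
      rw [← ha₀a, h]
      funext i
      simp
    have hF : IsEndo d fun i => map (algebraMap A ℂ) (F i) := by
      rw [hff]
      exact ⟨hd, hf, hnz⟩
    have h1 := prog_over hF ha₀0 V hV hdim (by rw [hff]; exact hdense) (fun n m hnm h => by
      obtain ⟨c, hc, h1⟩ := h
      apply hper n (m - n) (by omega) (algebraMap A ℂ c)
      rw [show n + (m - n) = m by omega, hit, hit, h1]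
      funext i
      simp)
    have h2 : {n | InZ V ((ev f)^[n] a)} =
        {n | InZ V fun i => algebraMap A ℂ (iter F a₀ n i)} := by
      ext n
      simp only [Set.mem_ofPred_eq]
      rw [hit]
    rw [h2]
    exact h1

end Pool.Agent.Helper45.NZ
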