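import Pool.Agent.Helper45.NZ.Dense
import Pool.Agent.Helper38.TNA.WrapN

/-!
# Project NZ: curves with a dense set of preperiodic points, complex points
-/

set_option autoImplicit false

namespace Pool.Agent.Helper45.NZ

open MvPolynomial
open Pool.Agent.Helper33.SS (InZ ev inZ_smul)
open Pool.Agent.Helper36 (iter iter_succ APSet)
open Pool.Agent.Helper38.TQ
open Pool.Agent.Helper88.NF (iter_ev)

variable {N : ℕ}

/-- **Curves with a dense set of preperiodic points.** The return sets of all complex points are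
finite unions of progressions, for endomorphisms over the algebraic numbers. -/
theorem prog_dense (N d : ℕ) (hd : 2 ≤ d)
    (f : Fin (N + 1) → MvPolynomial (Fin (N + 1)) ℂ) (hf : ∀ i, (f i).IsHomogeneous d)
    (hnz : ∀ x : Fin (N + 1) → ℂ, (∀ i, eval x (f i) = 0) → x = 0)
    (hfalg : ∀ i m, IsAlgebraic ℚ ((f i).coeff m))
    (a : Fin (N + 1) → ℂ) (ha : a ≠ 0)
    (V : Set (MvPolynomial (Fin (N + 1)) ℂ)) (hV : ∀ g ∈ V, ∃ e : ℕ, g.IsHomogeneous e)
    (hdim : ringKrullDim (MvPolynomial (Fin (N + 1)) ℂ ⧸ Ideal.span V) ≤ 2)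
    (hdense : DensePre f V) :
    ∃ T : Finset (ℕ × ℕ), {n | InZ V ((ev f)^[n] a)} =
      {n | ∃ p ∈ T, ∃ m : ℕ, n = p.1 * m + p.2} := by
  classical
  let A : Type := algebraicClosure ℚ ℂ
  have hAcl : IsAlgClosed A :=
    (IsAlgClosed.algebraicClosure_eq_bot_iff (algebraicClosure ℚ ℂ) ℂ).1
      (algebraicClosure.algebraicClosure_eq_bot ℚ ℂ)
  have hAalg : ∀ x : A, IsAlgebraic ℚ (algebraMap A ℂ x) := fun x =>
    mem_algebraicClosure_iff.1 x.2
  have hlift : ∀ i, ∃ F : MvPolynomial (Fin (N + 1)) A,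
      MvPolynomial.map (algebraMap A ℂ) F = f i := by
    intro i
    refine ⟨∑ m ∈ (f i).support, MvPolynomial.monomial m
      (⟨(f i).coeff m, mem_algebraicClosure_iff.2 (hfalg i m)⟩ : A), ?_⟩
    rw [map_sum]
    conv_rhs => rw [(f i).as_sum]
    refine Finset.sum_congr rfl fun m _ => ?_
    rw [MvPolynomial.map_monomial]
    rfl
  choose F hFf using hlift
  have hff : (fun i => map (algebraMap A ℂ) (F i)) = f := funext hFf
  have hF : IsEndo d fun i => map (algebraMap A ℂ) (F i) := by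
    rw [hff]
    exact ⟨hd, hf, hnz⟩
  have hFA := Pool.Agent.Helper88.NF.endo_descend hF
  by_cases hc : IsConst A a
  · obtain ⟨z, c, hc0, hz⟩ := hc
    have hz' : a = c • fun i => algebraMap A ℂ (z i) := hz
    have hz0 : (fun i => algebraMap A ℂ (z i)) ≠ 0 := by
      intro h0
      apply ha
      rw [hz', h0, smul_zero]
    obtain ⟨T, hT⟩ := prog_dense_alg N d hd f hf hnz hfalg (fun i => algebraMap A ℂ (z i)) hz0
      (fun i => hAalg _) V hV hdim hdense
    refine ⟨T, ?_⟩
    have h1 : {n | InZ V ((ev f)^[n] a)} =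
        {n | InZ V ((ev f)^[n] fun i => algebraMap A ℂ (z i))} := by
      ext n
      simp only [Set.mem_ofPred_eq]
      rw [hz', Pool.Agent.Helper33.SS.evc_smul hf, inZ_smul hV (pow_ne_zero _ hc0)]
    rw [h1, hT]
    rfl
  · have hcur := curveSet_of_krull hV hdim
    obtain ⟨T, hT⟩ := Pool.Agent.Helper38.TNA.dml_curve_all hFA ha hc hV hcur
    refine ⟨T, ?_⟩
    rw [← hT]
    ext n
    simp only [Set.mem_ofPred_eq]
    rw [← hff, iter_ev]
    rfl

end Pool.Agent.Helper45.NZ
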