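import Pool.Agent.Helper45.NZ.Size

/-!
# Project NZ: the size of evaluation determinants
-/

set_option autoImplicit false

namespace Pool.Agent.Helper45.NZ

open MvPolynomial
open Pool.Agent.Helper29.TG (nm)
open Pool.Agent.Helper30.ZB (lf fam)

variable {A : Type} [Field A] {ν : ℕ} {W : AbsoluteValue A ℝ}

private theorem detW_abs_sign {ι : Type} [Fintype ι] [DecidableEq ι] (W : AbsoluteValue A ℝ)
    (s : Equiv.Perm ι) (x : A) : W (Equiv.Perm.sign s • x) = W x := by
  rcases Int.units_eq_one_or (Equiv.Perm.sign s) with h | h <;> simp [h]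

private theorem detW_nonarch {ι : Type} [Fintype ι] [DecidableEq ι] (hW : IsNonarchimedean W)
    (M : Matrix ι ι A) {b : ℝ} (hb : ∀ s : Equiv.Perm ι, ∏ i, W (M (s i) i) ≤ b) :
    W M.det ≤ b := by
  rw [Matrix.det_apply]
  have h0 : (Finset.univ : Finset (Equiv.Perm ι)).Nonempty := ⟨1, Finset.mem_univ _⟩
  obtain ⟨s, -, hs⟩ := IsNonarchimedean.finset_image_add_of_nonempty hW
    (fun s : Equiv.Perm ι => Equiv.Perm.sign s • ∏ i, M (s i) i) h0
  refine hs.trans ?_
  rw [detW_abs_sign, map_prod]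
  exact hb s

private theorem detW_arch {ι : Type} [Fintype ι] [DecidableEq ι]
    (M : Matrix ι ι A) {b : ℝ} (hb : ∀ s : Equiv.Perm ι, ∏ i, W (M (s i) i) ≤ b) :
    W M.det ≤ (Nat.factorial (Fintype.card ι) : ℝ) * b := by
  rw [Matrix.det_apply]
  refine (W.sum_le _ _).trans ?_
  calc ∑ s : Equiv.Perm ι, W (Equiv.Perm.sign s • ∏ i, M (s i) i)
      ≤ ∑ _s : Equiv.Perm ι, b := by
        refine Finset.sum_le_sum fun s _ => ?_
        rw [detW_abs_sign, map_prod]
        exact hb s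
    _ = (Nat.factorial (Fintype.card ι) : ℝ) * b := by
        rw [Finset.sum_const, nsmul_eq_mul, Finset.card_univ, Fintype.card_perm]

/-- The ultrametric bound, or the trivial bound. -/
theorem det_le (hW : Pl W) {ι : Type} [Fintype ι] [DecidableEq ι] (P : ι → Fin (ν + 1) → A)
    (g : ι → MvPolynomial (Fin (ν + 1)) A) {m : ℕ} (hg : ∀ κ, (g κ).IsHomogeneous m) :
    W (Matrix.of fun i κ => eval (P i) (g κ)).det ≤
      Real.exp (kap W * Real.log (Nat.factorial (Fintype.card ι))) *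
        ((∏ i, nm W (P i) ^ m) * ∏ κ, sz W (g κ)) := by
  have _ := hW
  have hb : ∀ s : Equiv.Perm ι,
      ∏ i, W ((Matrix.of fun i κ => eval (P i) (g κ)) (s i) i) ≤
        (∏ i, nm W (P i) ^ m) * ∏ κ, sz W (g κ) := by
    intro s
    calc ∏ i, W ((Matrix.of fun i κ => eval (P i) (g κ)) (s i) i)
        ≤ ∏ i, (nm W (P (s i)) ^ m * sz W (g i)) := by
          refine Finset.prod_le_prod (fun i _ => W.nonneg _) fun i _ => ?_
          rw [Matrix.of_apply, mul_comm]
          exact eval_le_sz W (hg i) (P (s i))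
      _ = (∏ i, nm W (P i) ^ m) * ∏ κ, sz W (g κ) := by
          rw [Finset.prod_mul_distrib]
          congr 1
          exact Equiv.prod_comp s fun i => nm W (P i) ^ m
  by_cases hn : IsNonarchimedean W
  · have hk : kap W = 0 := by
      unfold kap
      rw [if_pos hn]
    rw [hk, zero_mul, Real.exp_zero, one_mul]
    exact detW_nonarch hn _ hb
  · have hk : kap W = 1 := by
      unfold kap
      rw [if_neg hn]
    rw [hk, one_mul, Real.exp_log (by positivity)]
    exact detW_arch _ hb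

private theorem detW_log_prod_le {α : Type} [Fintype α] (f : α → ℝ) :
    Real.log (∏ a, f a) ≤ ∑ a, max 0 (Real.log (f a)) := by
  by_cases h : ∃ a, f a = 0
  · obtain ⟨a, ha⟩ := h
    rw [Finset.prod_eq_zero (Finset.mem_univ a) ha, Real.log_zero]
    exact Finset.sum_nonneg fun _ _ => le_max_left _ _
  · push Not at h
    rw [Real.log_prod fun a _ => h a]
    exact Finset.sum_le_sum fun a _ => le_max_right _ _

private theorem detW_log_le {x y : ℝ} (hx : 0 ≤ x) (hxy : x ≤ y) {c : ℝ}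
    (hc : 0 ≤ c) (hy : Real.log y ≤ c) : max 0 (Real.log x) ≤ c := by
  refine max_le hc ?_
  rcases hx.eq_or_lt with h | h
  · rw [← h, Real.log_zero]
    exact hc
  · exact (Real.log_le_log h hxy).trans hy

private theorem detW_log_mul_le {x y a b : ℝ} (hx : Real.log x ≤ a) (hy : Real.log y ≤ b)
    (ha : 0 ≤ a) (hb : 0 ≤ b) : Real.log (x * y) ≤ a + b := by
  rcases eq_or_ne x 0 with h | h
  · rw [h, zero_mul, Real.log_zero]
    exact add_nonneg ha hb
  rcases eq_or_ne y 0 with h' | h'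
  · rw [h', mul_zero, Real.log_zero]
    exact add_nonneg ha hb
  rw [Real.log_mul h h']
  exact add_le_add hx hy

private theorem detW_log_pow_le {x a : ℝ} (hx : Real.log x ≤ a) (n : ℕ) :
    Real.log (x ^ n) ≤ n * a := by
  rw [Real.log_pow]
  exact mul_le_mul_of_nonneg_left hx (Nat.cast_nonneg n)

private theorem detW_lp_nonneg {σ : Type} (W : AbsoluteValue A ℝ) (G : MvPolynomial σ A) :
    0 ≤ lp W G := le_max_left _ _

private theorem detW_log_le_lp {σ : Type} (W : AbsoluteValue A ℝ) (G : MvPolynomial σ A) :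
    Real.log (sz W G) ≤ lp W G := le_max_right _ _

private theorem detW_sum (n : ℕ) :
    ∑ j : Fin (n + 1), ((j : ℕ) : ℝ) = ((n * (n + 1) / 2 : ℕ) : ℝ) := by
  rw [Fin.sum_univ_eq_sum_range (fun j => ((j : ℕ) : ℝ)) (n + 1), ← Nat.cast_sum,
    Finset.sum_range_id]
  congr 2
  rw [Nat.add_sub_cancel, mul_comm]

private theorem detW_sum' (n : ℕ) :
    ∑ j : Fin (n + 1), ((n - (j : ℕ) : ℕ) : ℝ) = ((n * (n + 1) / 2 : ℕ) : ℝ) := by
  rw [← detW_sum n, Fin.sum_univ_eq_sum_range (fun j => ((n - j : ℕ) : ℝ)) (n + 1),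
    Fin.sum_univ_eq_sum_range (fun j => ((j : ℕ) : ℝ)) (n + 1),
    ← Finset.sum_range_reflect (fun j => ((j : ℕ) : ℝ)) (n + 1)]
  refine Finset.sum_congr rfl fun j _ => ?_
  simp

/-- The forms of the family. -/
theorem fam_le (W : AbsoluteValue A ℝ) {q s : ℕ} {h : MvPolynomial (Fin (ν + 1)) A} {e : ℕ}
    {qa : Fin q → MvPolynomial (Fin (ν + 1)) A} {pc : Fin s → MvPolynomial (Fin (ν + 1)) A}
    (n : ℕ) {c : Fin (ν + 1) → A} (hc : ∀ a, W (c a) ≤ 1) :
    Real.log (∏ κ, sz W (fam h e qa pc n c κ)) ≤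
      ((q * (n * (n + 1) / 2) : ℕ) : ℝ) * lp W h +
        ((n + 1 : ℕ) : ℝ) * (s * lp W h + ∑ a, lp W (qa a) + ∑ i, lp W (pc i)) +
          kap W * (((e * q * (n * (n + 1) / 2) : ℕ) : ℝ) * Real.log (ν + 1)) := by
  refine (detW_log_prod_le _).trans ?_
  rw [Fintype.sum_sum_type, Fintype.sum_prod_type]
  have hK : 0 ≤ kap W * Real.log (ν + 1) := by
    refine mul_nonneg (kap_nonneg W) (Real.log_nonneg ?_)
    have : (0 : ℝ) ≤ ν := Nat.cast_nonneg ν
    linarith
  have h1 : ∀ (j : Fin (n + 1)) (a : Fin q),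
      max 0 (Real.log (sz W (fam h e qa pc n c (Sum.inl (j, a))))) ≤
        ((j : ℕ) : ℝ) * lp W h + ((n - (j : ℕ) : ℕ) : ℝ) * (e * (kap W * Real.log (ν + 1))) +
          lp W (qa a) := by
    intro j a
    have e1 : 0 ≤ ((j : ℕ) : ℝ) * lp W h := mul_nonneg (Nat.cast_nonneg _) (detW_lp_nonneg W h)
    have e2 : 0 ≤ ((n - (j : ℕ) : ℕ) : ℝ) * (e * (kap W * Real.log (ν + 1))) :=
      mul_nonneg (Nat.cast_nonneg _) (mul_nonneg (Nat.cast_nonneg _) hK)
    refine detW_log_le (sz_nonneg W _)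
      (y := sz W h ^ (j : ℕ) * Real.exp (kap W * Real.log (ν + 1)) ^ ((n - (j : ℕ)) * e) *
        sz W (qa a)) ?_ (add_nonneg (add_nonneg e1 e2) (detW_lp_nonneg W _)) ?_
    · change sz W (h ^ (j : ℕ) * lf A c ^ ((n - (j : ℕ)) * e) * qa a) ≤ _
      refine (sz_mul_le W _ _).trans (mul_le_mul_of_nonneg_right ?_ (sz_nonneg W _))
      refine (sz_mul_le W _ _).trans ?_
      refine mul_le_mul (sz_pow_le W _ _) ?_ (sz_nonneg W _) (pow_nonneg (sz_nonneg W _) _)
      exact (sz_pow_le W _ _).trans (pow_le_pow_left₀ (sz_nonneg W _) (sz_lf_le W hc) _)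
    · refine detW_log_mul_le (detW_log_mul_le (detW_log_pow_le (detW_log_le_lp W h) _) ?_ e1 e2)
        (detW_log_le_lp W _) (add_nonneg e1 e2) (detW_lp_nonneg W _)
      rw [Real.log_pow, Real.log_exp, Nat.cast_mul, mul_assoc]
  have h2 : ∀ i : Fin s, max 0 (Real.log (sz W (fam h e qa pc n c (Sum.inr i)))) ≤
      ((n + 1 : ℕ) : ℝ) * lp W h + lp W (pc i) := by
    intro i
    have e1 : 0 ≤ ((n + 1 : ℕ) : ℝ) * lp W h :=
      mul_nonneg (Nat.cast_nonneg _) (detW_lp_nonneg W h)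
    refine detW_log_le (sz_nonneg W _) (y := sz W h ^ (n + 1) * sz W (pc i)) ?_
      (add_nonneg e1 (detW_lp_nonneg W _)) ?_
    · change sz W (h ^ (n + 1) * pc i) ≤ _
      exact (sz_mul_le W _ _).trans (mul_le_mul_of_nonneg_right (sz_pow_le W _ _)
        (sz_nonneg W _))
    · exact detW_log_mul_le (detW_log_pow_le (detW_log_le_lp W h) _)
        (detW_log_le_lp W _) e1 (detW_lp_nonneg W _)
  have h3 : ∑ j : Fin (n + 1), ∑ a : Fin q,
      max 0 (Real.log (sz W (fam h e qa pc n c (Sum.inl (j, a))))) ≤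
        ((q * (n * (n + 1) / 2) : ℕ) : ℝ) * lp W h +
          kap W * (((e * q * (n * (n + 1) / 2) : ℕ) : ℝ) * Real.log (ν + 1)) +
            ((n + 1 : ℕ) : ℝ) * ∑ a, lp W (qa a) := by
    refine (Finset.sum_le_sum fun j _ => Finset.sum_le_sum fun a _ => h1 j a).trans ?_
    simp only [Finset.sum_add_distrib, Finset.sum_const, Finset.card_univ, Fintype.card_fin,
      nsmul_eq_mul, ← Finset.mul_sum, ← Finset.sum_mul]
    rw [detW_sum, detW_sum']
    push_cast
    refine le_of_eq ?_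
    ring
  have h4 : ∑ i : Fin s, max 0 (Real.log (sz W (fam h e qa pc n c (Sum.inr i)))) ≤
      ((n + 1 : ℕ) : ℝ) * (s * lp W h) + ((n + 1 : ℕ) : ℝ) * ∑ i, lp W (pc i) := by
    refine (Finset.sum_le_sum fun i _ => h2 i).trans ?_
    simp only [Finset.sum_add_distrib, Finset.sum_const, Finset.card_univ, Fintype.card_fin,
      nsmul_eq_mul]
    have h5 : 0 ≤ ∑ i, lp W (pc i) := Finset.sum_nonneg fun i _ => detW_lp_nonneg W _
    have h6 : (1 : ℝ) ≤ ((n + 1 : ℕ) : ℝ) := by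
      push_cast
      have : (0 : ℝ) ≤ n := Nat.cast_nonneg n
      linarith
    nlinarith
  refine (add_le_add h3 h4).trans (le_of_eq ?_)
  ring

end Pool.Agent.Helper45.NZ
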