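import Pool.Agent.Helper45.NZ.Loc
import Pool.Agent.Helper45.NZ.CpB

/-!
# Project NZ: the sum over all places
-/

set_option autoImplicit false

namespace Pool.Agent.Helper45.NZ

open MvPolynomial Height AdmissibleAbsValues
open Pool.Agent.Helper29.TG
open Pool.Agent.Helper30.ZB

variable {A : Type} [Field A] [CharZero A] {ν : ℕ}

/-- A number field which contains a finite set of elements. -/
theorem exists_field_set [Algebra.IsAlgebraic ℚ A] {S : Set A} (hS : S.Finite) :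
    ∃ (M : Type) (_ : Field M) (_ : NumberField M) (_ : Algebra M A),
      ∀ a ∈ S, ∃ α : M, algebraMap M A α = a := by
  have := hS.to_subtype
  obtain ⟨M, _, _, _, α, hα⟩ := exists_field (fun a : S => (a : A))
  exact ⟨M, _, inferInstance, _, fun a ha => ⟨α ⟨a, ha⟩, hα ⟨a, ha⟩⟩⟩

theorem exists_map {M : Type} [Field M] [Algebra M A] {σ : Type} {G : MvPolynomial σ A}
    (h : ∀ m ∈ G.support, ∃ α : M, algebraMap M A α = G.coeff m) :
    ∃ G' : MvPolynomial σ M, map (algebraMap M A) G' = G := by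
  have h1 : G ∈ Set.range (map (σ := σ) (algebraMap M A)) := by
    rw [mem_range_map_iff_coeffs_subset]
    intro x hx
    obtain ⟨m, hm, rfl⟩ := mem_coeffs_iff.1 hx
    obtain ⟨α, hα⟩ := h m hm
    exact ⟨α, hα⟩
  exact h1

/-- **The inequality for the heights.** -/
theorem level [IsAlgClosed A] [Algebra.IsAlgebraic ℚ A]
    {J : Ideal (MvPolynomial (Fin (ν + 1)) A)} {h : MvPolynomial (Fin (ν + 1)) A} {e : ℕ}
    {c : Fin (ν + 1) → A} {m₂ q s : ℕ} {qa : Fin q → MvPolynomial (Fin (ν + 1)) A}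
    {pc : Fin s → MvPolynomial (Fin (ν + 1)) A} (D : Data J h e c m₂ q s qa pc)
    (n : ℕ) {t : ℕ} (χ : Fin t → (Qo (J ⊔ Ideal.span {h}) c →ₐ[A] A))
    (P : (Fin (n + 1) × Fin q) ⊕ Fin s → Fin (ν + 1) → A)
    (hN : ∀ a : Qo (J ⊔ Ideal.span {h}) c, Algebra.norm A a = ∏ i, χ i a)
    (hP0 : ∀ κ, P κ ≠ 0) (hPJ : ∀ κ, ∀ g ∈ J, eval (P κ) g = 0)
    (hdet : (Matrix.of fun κ κ' => eval (P κ) (fam h e qa pc n c κ')).det ≠ 0) :
    ((e * (n * (n + 1) / 2) : ℕ) : ℝ) *
          ∑ i, aht (fun a => χ i (cls (J ⊔ Ideal.span {h}) c (X a))) ≤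
      ((m₂ + n * e : ℕ) : ℝ) * ∑ κ, aht (P κ) +
        (((q * (n * (n + 1) / 2) : ℕ) : ℝ) * Cp h +
          ((n + 1 : ℕ) : ℝ) * (s * Cp h + ∑ a, Cp (qa a) + ∑ i, Cp (pc i))) +
        (((e * q * (n * (n + 1) / 2) : ℕ) : ℝ) * (Real.log (ν + 1) + ν * Real.log 4) +
          Real.log (Nat.factorial ((n + 1) * q + s))) := by
  classical
  set u : Fin t → Fin (ν + 1) → A := fun i a => χ i (cls (J ⊔ Ideal.span {h}) c (X a)) with hu
  have hu0 : ∀ i, u i ≠ 0 := fun i => (Pts_of_hom A (χ i)).2.1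
  set dt : A := (Matrix.of fun κ κ' => eval (P κ) (fam h e qa pc n c κ')).det with hdt
  -- the number field
  set S : Set A := (⋃ i, ⋃ a, {u i a}) ∪ (⋃ κ, ⋃ a, {P κ a}) ∪ {dt} ∪
    (⋃ m ∈ h.support, {h.coeff m}) ∪ (⋃ a, ⋃ m ∈ (qa a).support, {(qa a).coeff m}) ∪
    (⋃ i, ⋃ m ∈ (pc i).support, {(pc i).coeff m}) with hS
  have hfin : S.Finite := by
    refine Set.Finite.union (Set.Finite.union (Set.Finite.union (Set.Finite.union
      (Set.Finite.union ?_ ?_) ?_) ?_) ?_) ?_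
    · exact Set.finite_iUnion fun i => Set.finite_iUnion fun a => Set.finite_singleton _
    · exact Set.finite_iUnion fun i => Set.finite_iUnion fun a => Set.finite_singleton _
    · exact Set.finite_singleton _
    · exact h.support.finite_toSet.biUnion fun m _ => Set.finite_singleton _
    · exact Set.finite_iUnion fun a =>
        (qa a).support.finite_toSet.biUnion fun m _ => Set.finite_singleton _
    · exact Set.finite_iUnion fun a =>
        (pc a).support.finite_toSet.biUnion fun m _ => Set.finite_singleton _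
  obtain ⟨M, _, _, _, hM⟩ := exists_field_set hfin
  have hMu : ∀ i a, ∃ α : M, algebraMap M A α = u i a := fun i a => hM _ (by
    simp only [hS, Set.mem_union, Set.mem_iUnion, Set.mem_singleton_iff]
    exact Or.inl (Or.inl (Or.inl (Or.inl (Or.inl ⟨i, a, rfl⟩)))))
  have hMP : ∀ κ a, ∃ α : M, algebraMap M A α = P κ a := fun κ a => hM _ (by
    simp only [hS, Set.mem_union, Set.mem_iUnion, Set.mem_singleton_iff]
    exact Or.inl (Or.inl (Or.inl (Or.inl (Or.inr ⟨κ, a, rfl⟩)))))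
  obtain ⟨dt', hdt'⟩ : ∃ α : M, algebraMap M A α = dt := hM _ (by
    simp only [hS, Set.mem_union, Set.mem_iUnion, Set.mem_singleton_iff]
    simp only [true_or, or_true])
  obtain ⟨h', hh'⟩ : ∃ G' : MvPolynomial (Fin (ν + 1)) M, map (algebraMap M A) G' = h :=
    exists_map fun m hm => hM _ (by
      simp only [hS, Set.mem_union, Set.mem_iUnion, Set.mem_singleton_iff]
      exact Or.inl (Or.inl (Or.inr ⟨m, hm, rfl⟩)))
  have hqa' : ∀ a, ∃ G' : MvPolynomial (Fin (ν + 1)) M, map (algebraMap M A) G' = qa a := fun a =>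
    exists_map fun m hm => hM _ (by
      simp only [hS, Set.mem_union, Set.mem_iUnion, Set.mem_singleton_iff]
      exact Or.inl (Or.inr ⟨a, m, hm, rfl⟩))
  have hpc' : ∀ i, ∃ G' : MvPolynomial (Fin (ν + 1)) M, map (algebraMap M A) G' = pc i := fun i =>
    exists_map fun m hm => hM _ (by
      simp only [hS, Set.mem_union, Set.mem_iUnion, Set.mem_singleton_iff]
      exact Or.inr ⟨i, m, hm, rfl⟩)
  choose u' hu' using hMu
  choose P' hP' using hMP
  choose qa' hqa' using hqa'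
  choose pc' hpc' using hpc'
  have hu'e : ∀ i, u i = fun a => algebraMap M A (u' i a) := fun i => funext fun a => (hu' i a).symm
  have hP'e : ∀ κ, P κ = fun a => algebraMap M A (P' κ a) := fun κ => funext fun a => (hP' κ a).symm
  have hu'0 : ∀ i, u' i ≠ 0 := by
    intro i h0
    refine hu0 i ?_
    rw [hu'e, h0]
    funext a
    exact map_zero _
  have hP'0 : ∀ κ, P' κ ≠ 0 := by
    intro κ h0
    refine hP0 κ ?_
    rw [hP'e, h0]
    funext a
    exact map_zero _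
  have hdt'0 : dt' ≠ 0 := by
    intro h0
    refine hdet ?_
    rw [← hdt', h0, map_zero]
  have hd : (0 : ℝ) < Module.finrank ℚ M := by
    exact_mod_cast Module.finrank_pos
  -- the two sides
  set F : AbsoluteValue M ℝ → ℝ := fun v => Real.log (v dt') +
    ((e * (n * (n + 1) / 2) : ℕ) : ℝ) * ∑ i, Real.log (nm v (u' i)) with hF
  set G₁ : AbsoluteValue M ℝ → ℝ := fun v =>
    ((m₂ + n * e : ℕ) : ℝ) * ∑ κ, Real.log (nm v (P' κ)) with hG₁
  set G₂ : AbsoluteValue M ℝ → ℝ := fun v => s * lp v h' + ∑ a, lp v (qa' a) +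
    ∑ i, lp v (pc' i) with hG₂
  set G₃ : AbsoluteValue M ℝ → ℝ := fun v => ((q * (n * (n + 1) / 2) : ℕ) : ℝ) * lp v h' +
    ((n + 1 : ℕ) : ℝ) * G₂ v with hG₃
  set Λ : ℝ := ((e * q * (n * (n + 1) / 2) : ℕ) : ℝ) * (Real.log (ν + 1) + ν * Real.log 4) +
          Real.log (Nat.factorial ((n + 1) * q + s)) with hΛ
  have hptw : ∀ v, Mem v → F v ≤ G₁ v + G₃ v + Λ * kap v := by
    intro v hv
    obtain ⟨W, hW, hW1, hW2⟩ := exists_ext (A := A) hv
    have h1 := loc hW D n χ P hN hP0 hPJ hdet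
    have h2 : W dt = v dt' := by rw [← hdt', hW1]
    have h3 : ∀ i, nm W (fun a => χ i (cls (J ⊔ Ideal.span {h}) c (X a))) = nm v (u' i) := by
      intro i
      have h4 : (fun a => χ i (cls (J ⊔ Ideal.span {h}) c (X a))) =
        fun a => algebraMap M A (u' i a) := hu'e i
      rw [h4, nm_ext hW1]
    have h4 : ∀ κ, nm W (P κ) = nm v (P' κ) := fun κ => by rw [hP'e, nm_ext hW1]
    have h5 : lp W h = lp v h' := by
      rw [← lp_ext hW1 hW2, hh']
    have h6 : ∀ a, lp W (qa a) = lp v (qa' a) := fun a => by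
      rw [← lp_ext hW1 hW2, hqa']
    have h7 : ∀ i, lp W (pc i) = lp v (pc' i) := fun i => by
      rw [← lp_ext hW1 hW2, hpc']
    rw [← hdt, h2, h5, kap_ext hW2] at h1
    simp only [h3, h4, h6, h7] at h1
    simp only [hF, hG₁, hG₂, hG₃, hΛ]
    linarith
  have hFSu : ∀ i ∈ Finset.univ, FS (fun v : AbsoluteValue M ℝ => Real.log (nm v (u' i))) :=
    fun i _ => FS_nm (hu'0 i)
  have hFSP : ∀ κ ∈ Finset.univ, FS (fun v : AbsoluteValue M ℝ => Real.log (nm v (P' κ))) :=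
    fun κ _ => FS_nm (hP'0 κ)
  have hFSF : FS F := (FS_log hdt'0).add ((FS.sum Finset.univ hFSu).mul_left _)
  have hFS1 : FS G₁ := (FS.sum Finset.univ hFSP).mul_left _
  have hFSqa : ∀ a ∈ Finset.univ, FS (fun v : AbsoluteValue M ℝ => lp v (qa' a)) :=
    fun a _ => FS_lp _
  have hFSpc : ∀ a ∈ Finset.univ, FS (fun v : AbsoluteValue M ℝ => lp v (pc' a)) :=
    fun a _ => FS_lp _
  have hFS2 : FS G₂ := (((FS_lp h').mul_left _).add (FS.sum Finset.univ hFSqa)).add
    (FS.sum Finset.univ hFSpc)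
  have hFS3 : FS G₃ := ((FS_lp h').mul_left _).add (hFS2.mul_left _)
  have hFSk : FS (fun v : AbsoluteValue M ℝ => Λ * kap v) := FS_kap.mul_left _
  have hls := ls_mono hFSF ((hFS1.add hFS3).add hFSk) hptw
  have e1 : ls F = ((e * (n * (n + 1) / 2) : ℕ) : ℝ) *
      ∑ i, aht (u i) * (Module.finrank ℚ M : ℝ) := by
    rw [hF, ls_add (FS_log hdt'0) ((FS.sum Finset.univ hFSu).mul_left _), ls_log hdt'0, zero_add,
      ls_mul_left, ls_sum _ hFSu]
    congr 1
    refine Finset.sum_congr rfl fun i _ => ?_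
    rw [ls_nm (hu'0 i), hu'e, aht_map, div_mul_cancel₀ _ hd.ne']
  have e2 : ls G₁ = ((m₂ + n * e : ℕ) : ℝ) * ∑ κ, aht (P κ) * (Module.finrank ℚ M : ℝ) := by
    rw [hG₁, ls_mul_left, ls_sum _ hFSP]
    congr 1
    refine Finset.sum_congr rfl fun i _ => ?_
    rw [ls_nm (hP'0 i), hP'e, aht_map, div_mul_cancel₀ _ hd.ne']
  have hCh : ls (fun v => lp v h') ≤ Module.finrank ℚ M * Cp h := by
    have h1 := ls_lp_le (A := A) h'
    rwa [hh'] at h1
  have hCqa : ∀ a, ls (fun v => lp v (qa' a)) ≤ Module.finrank ℚ M * Cp (qa a) := by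
    intro a
    have h1 := ls_lp_le (A := A) (qa' a)
    rwa [hqa'] at h1
  have hCpc : ∀ i, ls (fun v => lp v (pc' i)) ≤ Module.finrank ℚ M * Cp (pc i) := by
    intro i
    have h1 := ls_lp_le (A := A) (pc' i)
    rwa [hpc'] at h1
  have e3 : ls G₂ ≤ s * (Module.finrank ℚ M * Cp h) + ∑ a, Module.finrank ℚ M * Cp (qa a) +
      ∑ i, Module.finrank ℚ M * Cp (pc i) := by
    rw [hG₂, ls_add (((FS_lp h').mul_left _).add (FS.sum Finset.univ hFSqa))
      (FS.sum Finset.univ hFSpc), ls_add ((FS_lp h').mul_left _) (FS.sum Finset.univ hFSqa),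
      ls_mul_left, ls_sum _ hFSqa, ls_sum _ hFSpc]
    refine add_le_add (add_le_add ?_ ?_) ?_
    · exact mul_le_mul_of_nonneg_left hCh (Nat.cast_nonneg _)
    · exact Finset.sum_le_sum fun a _ => hCqa a
    · exact Finset.sum_le_sum fun a _ => hCpc a
  have e4 : ls G₃ ≤ ((q * (n * (n + 1) / 2) : ℕ) : ℝ) * (Module.finrank ℚ M * Cp h) +
      ((n + 1 : ℕ) : ℝ) * (s * (Module.finrank ℚ M * Cp h) +
        ∑ a, Module.finrank ℚ M * Cp (qa a) + ∑ i, Module.finrank ℚ M * Cp (pc i)) := by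
    rw [hG₃, ls_add ((FS_lp h').mul_left _) (hFS2.mul_left _), ls_mul_left, ls_mul_left]
    refine add_le_add ?_ ?_
    · exact mul_le_mul_of_nonneg_left hCh (Nat.cast_nonneg _)
    · exact mul_le_mul_of_nonneg_left e3 (Nat.cast_nonneg _)
  rw [ls_add (hFS1.add hFS3) hFSk, ls_add hFS1 hFS3, ls_mul_left Λ, ls_kap, e1, e2] at hls
  have e5 := hls.trans (add_le_add_left (add_le_add_right e4 _) _)
  rw [← Finset.mul_sum, ← Finset.mul_sum, ← Finset.sum_mul, ← Finset.sum_mul] at e5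
  have e6 : ((e * (n * (n + 1) / 2) : ℕ) : ℝ) * (∑ i, aht (u i)) * (Module.finrank ℚ M : ℝ) ≤
      (((m₂ + n * e : ℕ) : ℝ) * (∑ κ, aht (P κ)) +
        (((q * (n * (n + 1) / 2) : ℕ) : ℝ) * Cp h +
          ((n + 1 : ℕ) : ℝ) * (s * Cp h + ∑ a, Cp (qa a) + ∑ i, Cp (pc i))) + Λ) *
        (Module.finrank ℚ M : ℝ) := by
    refine le_trans (le_of_eq ?_) (e5.trans (le_of_eq ?_)) <;> ring
  exact le_of_mul_le_mul_right e6 hd

end Pool.Agent.Helper45.NZ
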