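import Pool.Agent.Helper45.NZ.Defs

/-!
# Project NZ: norms of linear polynomials and the coefficients of their product

Gauss's lemma (`Polynomial.gaussNorm_mul`) for nonarchimedean `W`, and Mahler measures
(`Polynomial.mahlerMeasure_mul`, `Polynomial.norm_coeff_le_choose_mul_mahlerMeasure`,
`Polynomial.mahlerMeasure_le_sum_norm_coeff`) over `ℂ`:
`∏ nm (u i) ≤ ∏ 2 ^ ν M(p_i) = 2 ^ (ν t) M(P) ≤ 2 ^ (ν t) (ν t + 1) max ≤ 4 ^ (ν t) max`.
-/

set_option autoImplicit false

namespace Pool.Agent.Helper45.NZ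

open Pool.Agent.Helper29.TG (nm)

variable {A : Type} [Field A] {W : AbsoluteValue A ℝ}

/-- The coefficients of the polynomial with given coefficients. -/
theorem zb_coeff {ν : ℕ} (x : Fin (ν + 1) → A) (a : Fin (ν + 1)) :
    (∑ b : Fin (ν + 1), Polynomial.C (x b) * Polynomial.X ^ (b : ℕ)).coeff (a : ℕ) = x a := by
  rw [Polynomial.finsetSum_coeff, Finset.sum_eq_single a]
  · simp
  · intro b _ hb
    rw [Polynomial.coeff_C_mul_X_pow, if_neg]
    intro h
    exact hb (Fin.ext h.symm)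
  · intro h
    exact absurd (Finset.mem_univ a) h

theorem zb_deg {ν : ℕ} (x : Fin (ν + 1) → A) :
    (∑ b : Fin (ν + 1), Polynomial.C (x b) * Polynomial.X ^ (b : ℕ)).natDegree ≤ ν := by
  refine Polynomial.natDegree_sum_le_of_forall_le _ _ (fun b _ => ?_)
  exact (Polynomial.natDegree_C_mul_X_pow_le _ _).trans (by omega)

theorem zb_na (h : IsNonarchimedean W) {ν t : ℕ} (u : Fin t → Fin (ν + 1) → A) :
    ∃ j : ℕ, ∏ i, nm W (u i) ≤
      W ((∏ i, ∑ a : Fin (ν + 1), Polynomial.C (u i a) * Polynomial.X ^ (a : ℕ)).coeff j) := by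
  set p : Fin t → Polynomial A :=
    fun i => ∑ a : Fin (ν + 1), Polynomial.C (u i a) * Polynomial.X ^ (a : ℕ) with hp
  have h1 : ∀ i, nm W (u i) ≤ (p i).gaussNorm W 1 := by
    intro i
    refine Pool.Agent.Helper29.TG.nm_le ((p i).gaussNorm_nonneg W zero_le_one) (fun a => ?_)
    have := (p i).le_gaussNorm W (zero_le_one : (0 : ℝ) ≤ 1) (a : ℕ)
    rw [one_pow, mul_one] at this
    have h2 : (p i).coeff (a : ℕ) = u i a := zb_coeff (u i) a
    rwa [h2] at this
  have h3 : ∀ s : Finset (Fin t),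
      ∏ i ∈ s, (p i).gaussNorm W 1 = (∏ i ∈ s, p i).gaussNorm W 1 := by
    intro s
    induction s using Finset.induction_on with
    | empty =>
      have : (1 : Polynomial A) = Polynomial.C 1 := by simp
      rw [Finset.prod_empty, Finset.prod_empty, this, Polynomial.gaussNorm_C, map_one]
    | insert i s hi ih =>
      rw [Finset.prod_insert hi, Finset.prod_insert hi, ih,
        Polynomial.gaussNorm_mul h one_pos]
  obtain ⟨j, hj⟩ := Polynomial.exists_eq_gaussNorm W 1 (∏ i, p i)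
  refine ⟨j, ?_⟩
  rw [one_pow, mul_one] at hj
  rw [← hj, ← h3]
  exact Finset.prod_le_prod (fun i _ => Pool.Agent.Helper29.TG.nm_nonneg W (u i))
    (fun i _ => h1 i)

theorem zb_ar {τ : A →+* ℂ} (hτ : ∀ a, W a = ‖τ a‖) {ν t : ℕ} (u : Fin t → Fin (ν + 1) → A) :
    ∃ j : ℕ, ∏ i, nm W (u i) ≤ (4 : ℝ) ^ (t * ν) *
      W ((∏ i, ∑ a : Fin (ν + 1), Polynomial.C (u i a) * Polynomial.X ^ (a : ℕ)).coeff j) := by
  set p : Fin t → Polynomial A :=
    fun i => ∑ a : Fin (ν + 1), Polynomial.C (u i a) * Polynomial.X ^ (a : ℕ) with hp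
  have h1 : ∀ i, nm W (u i) ≤ (2 : ℝ) ^ ν * ((p i).map τ).mahlerMeasure := by
    intro i
    have hM := ((p i).map τ).mahlerMeasure_nonneg
    refine Pool.Agent.Helper29.TG.nm_le (by positivity) (fun a => ?_)
    have h2 : ((p i).map τ).coeff (a : ℕ) = τ (u i a) := by
      rw [Polynomial.coeff_map]
      exact congrArg τ (zb_coeff (u i) a)
    rw [hτ, ← h2]
    refine (Polynomial.norm_coeff_le_choose_mul_mahlerMeasure (a : ℕ) ((p i).map τ)).trans ?_
    refine mul_le_mul_of_nonneg_right ?_ hM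
    have h4 : ((p i).map τ).natDegree ≤ ν :=
      (Polynomial.natDegree_map_le).trans (zb_deg (u i))
    have h5 : ((p i).map τ).natDegree.choose (a : ℕ) ≤ 2 ^ ν :=
      (Nat.choose_le_two_pow _ _).trans (Nat.pow_le_pow_right (by norm_num) h4)
    exact_mod_cast h5
  have h3 : ∀ s : Finset (Fin t),
      ∏ i ∈ s, ((p i).map τ).mahlerMeasure = ((∏ i ∈ s, p i).map τ).mahlerMeasure := by
    intro s
    induction s using Finset.induction_on with
    | empty =>
      rw [Finset.prod_empty, Finset.prod_empty, Polynomial.map_one,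
        Polynomial.mahlerMeasure_one]
    | insert i s hi ih =>
      rw [Finset.prod_insert hi, Finset.prod_insert hi, ih, Polynomial.map_mul,
        Polynomial.mahlerMeasure_mul]
  set Q : Polynomial ℂ := (∏ i, p i).map τ with hQ
  have hdeg : Q.natDegree ≤ t * ν := by
    refine (Polynomial.natDegree_map_le).trans ?_
    refine (Polynomial.natDegree_prod_le _ _).trans ?_
    have : ∑ i : Fin t, (p i).natDegree ≤ ∑ _i : Fin t, ν :=
      Finset.sum_le_sum (fun i _ => zb_deg (u i))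
    simpa using this
  obtain ⟨j, -, hj⟩ := Finset.exists_max_image (Finset.range (t * ν + 1))
    (fun n => ‖Q.coeff n‖) ⟨0, by simp⟩
  refine ⟨j, ?_⟩
  have h6 : Q.mahlerMeasure ≤ (2 : ℝ) ^ (t * ν) * ‖Q.coeff j‖ := by
    refine (Polynomial.mahlerMeasure_le_sum_norm_coeff Q).trans ?_
    rw [Polynomial.sum_over_range' Q (fun _ => norm_zero) (t * ν + 1) (by omega)]
    refine (Finset.sum_le_sum (fun n hn => hj n hn)).trans ?_
    rw [Finset.sum_const, Finset.card_range, nsmul_eq_mul]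
    refine mul_le_mul_of_nonneg_right ?_ (norm_nonneg _)
    have : t * ν + 1 ≤ 2 ^ (t * ν) := Nat.lt_two_pow_self
    exact_mod_cast this
  have h7 : W ((∏ i, p i).coeff j) = ‖Q.coeff j‖ := by
    rw [hQ, Polynomial.coeff_map, hτ]
  rw [h7]
  calc ∏ i, nm W (u i) ≤ ∏ i : Fin t, ((2 : ℝ) ^ ν * ((p i).map τ).mahlerMeasure) :=
        Finset.prod_le_prod (fun i _ => Pool.Agent.Helper29.TG.nm_nonneg W (u i))
          (fun i _ => h1 i)
    _ = (2 : ℝ) ^ (t * ν) * Q.mahlerMeasure := by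
        rw [Finset.prod_mul_distrib, h3, Finset.prod_const, Finset.card_univ, Fintype.card_fin,
          ← pow_mul, mul_comm ν t]
    _ ≤ (2 : ℝ) ^ (t * ν) * ((2 : ℝ) ^ (t * ν) * ‖Q.coeff j‖) :=
        mul_le_mul_of_nonneg_left h6 (by positivity)
    _ = (4 : ℝ) ^ (t * ν) * ‖Q.coeff j‖ := by
        rw [← mul_assoc, ← mul_pow]
        norm_num

theorem prod_le_coeff (hW : Pl W) {ν t : ℕ} (u : Fin t → Fin (ν + 1) → A) :
    ∃ j : ℕ, ∏ i, nm W (u i) ≤ Real.exp (kap W * (t * (ν * Real.log 4))) *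
      W ((∏ i, ∑ a : Fin (ν + 1), Polynomial.C (u i a) * Polynomial.X ^ (a : ℕ)).coeff j) := by
  by_cases h : IsNonarchimedean W
  · obtain ⟨j, hj⟩ := zb_na h u
    refine ⟨j, ?_⟩
    have hk : kap W = 0 := by
      unfold kap
      exact if_pos h
    rw [hk, zero_mul, Real.exp_zero, one_mul]
    exact hj
  · obtain ⟨τ, hτ⟩ := hW.resolve_left h
    obtain ⟨j, hj⟩ := zb_ar hτ u
    refine ⟨j, ?_⟩
    have hk : kap W = 1 := by
      unfold kap
      exact if_neg h
    have he : Real.exp (kap W * (t * (ν * Real.log 4))) = (4 : ℝ) ^ (t * ν) := by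
      rw [hk, one_mul, ← mul_assoc, ← Nat.cast_mul, mul_comm, Real.exp_mul, Real.exp_log (by norm_num),
        Real.rpow_natCast]
    rw [he]
    exact hj

end Pool.Agent.Helper45.NZ
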