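import Pool.Agent.Helper45.NZ.ZetaA
import Pool.Agent.Helper45.NZ.ZetaB

/-!
# Project NZ: a linear form which is large at finitely many points

The linear form is `∑ ζ ^ a X_a`, where `ζ` is a root of unity of order `n > ν t`. The product of
the values at the points `u i` is the value at `ζ` of the product `P` of the polynomials
`∑ u i a T ^ a`.
-/

set_option autoImplicit false

namespace Pool.Agent.Helper45.NZ

open Pool.Agent.Helper29.TG (nm)

variable {A : Type} [Field A] [IsAlgClosed A] [CharZero A] {W : AbsoluteValue A ℝ}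

theorem exists_choice (hW : Pl W) {ν t : ℕ} (u : Fin t → Fin (ν + 1) → A) (hu : ∀ i, u i ≠ 0) :
    ∃ c : Fin (ν + 1) → A, (∀ a, W (c a) ≤ 1) ∧ (∏ i, ∑ a, c a * u i a) ≠ 0 ∧
      ∑ i, Real.log (nm W (u i)) ≤
        Real.log (W (∏ i, ∑ a, c a * u i a)) + kap W * (t * (ν * Real.log 4)) := by
  obtain ⟨j, hj⟩ := prod_le_coeff hW u
  obtain ⟨ζ, hζ, h1⟩ := exists_zeta hW
    (∏ i, ∑ a : Fin (ν + 1), Polynomial.C (u i a) * Polynomial.X ^ (a : ℕ))
  have h2 : (∏ i, ∑ a : Fin (ν + 1), Polynomial.C (u i a) * Polynomial.X ^ (a : ℕ)).eval ζ =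
      ∏ i, ∑ a : Fin (ν + 1), ζ ^ (a : ℕ) * u i a := by
    rw [Polynomial.eval_prod]
    refine Finset.prod_congr rfl fun i _ => ?_
    rw [Polynomial.eval_finsetSum]
    refine Finset.sum_congr rfl fun a _ => ?_
    rw [Polynomial.eval_mul, Polynomial.eval_C, Polynomial.eval_pow, Polynomial.eval_X, mul_comm]
  have hpos : ∀ i, 0 < nm W (u i) := fun i => Pool.Agent.Helper29.TG.nm_pos W (hu i)
  have hprod : 0 < ∏ i, nm W (u i) := Finset.prod_pos fun i _ => hpos i
  have h3 : ∏ i, nm W (u i) ≤ Real.exp (kap W * (t * (ν * Real.log 4))) *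
      W (∏ i, ∑ a : Fin (ν + 1), ζ ^ (a : ℕ) * u i a) := by
    rw [← h2]
    exact hj.trans (mul_le_mul_of_nonneg_left (h1 j) (Real.exp_pos _).le)
  have hW0 : 0 < W (∏ i, ∑ a : Fin (ν + 1), ζ ^ (a : ℕ) * u i a) := by
    by_contra hcon
    push Not at hcon
    have h4 := hprod.trans_le (h3.trans
      (mul_le_mul_of_nonneg_left hcon (Real.exp_pos _).le))
    rw [mul_zero] at h4
    exact lt_irrefl _ h4
  refine ⟨fun a => ζ ^ (a : ℕ), fun a => ?_, ?_, ?_⟩
  · rw [map_pow, hζ, one_pow]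
  · intro h0
    rw [h0, map_zero] at hW0
    exact lt_irrefl _ hW0
  · have h5 := Real.log_le_log hprod h3
    rw [Real.log_mul (Real.exp_pos _).ne' hW0.ne', Real.log_exp,
      Real.log_prod fun i _ => (hpos i).ne'] at h5
    linarith

end Pool.Agent.Helper45.NZ
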