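import Pool.Agent.Helper30.ZB.Det
import Pool.Agent.Helper30.ZB.Pts
import Pool.Agent.Helper45.NZ.DetW
import Pool.Agent.Helper45.NZ.Zeta

/-!
# Project NZ: the inequality at one place
-/

set_option autoImplicit false

namespace Pool.Agent.Helper45.NZ

open MvPolynomial
open Pool.Agent.Helper29.TG (nm nm_pos)
open Pool.Agent.Helper30.ZB

variable {A : Type} [Field A] {ν : ℕ}

/-- The family consists of forms of degree `m₂ + n e`. -/
theorem fam_hom {J : Ideal (MvPolynomial (Fin (ν + 1)) A)}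
    {h : MvPolynomial (Fin (ν + 1)) A} {e : ℕ}
    {c : Fin (ν + 1) → A} {m₂ q s : ℕ} {qa : Fin q → MvPolynomial (Fin (ν + 1)) A}
    {pc : Fin s → MvPolynomial (Fin (ν + 1)) A} (D : Data J h e c m₂ q s qa pc) (n : ℕ)
    (c' : Fin (ν + 1) → A) (κ : (Fin (n + 1) × Fin q) ⊕ Fin s) :
    (fam h e qa pc n c' κ).IsHomogeneous (m₂ + n * e) := by
  have hlf : (lf A c').IsHomogeneous 1 := by
    unfold lf
    refine IsHomogeneous.sum _ _ _ fun i _ => ?_
    have h1 := (isHomogeneous_C (Fin (ν + 1)) (algebraMap A A (c' i))).mul (isHomogeneous_X A i)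
    rwa [zero_add] at h1
  rcases κ with ⟨j, a⟩ | i
  · have h1 := ((D.h_hom.pow (j : ℕ)).mul (hlf.pow ((n - j) * e))).mul (D.qa_hom a)
    have h3 : ∀ j' n' : ℕ, j' ≤ n' → e * j' + 1 * ((n' - j') * e) + m₂ = m₂ + n' * e := by
      intro j' n' hj
      obtain ⟨r, rfl⟩ := Nat.exists_eq_add_of_le hj
      rw [Nat.add_sub_cancel_left]
      ring
    have h2 : e * (j : ℕ) + 1 * ((n - j) * e) + m₂ = m₂ + n * e :=
      h3 j n (Nat.lt_succ_iff.1 j.2)
    rw [h2] at h1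
    exact h1
  · have h1 := (D.h_hom.pow (n + 1)).mul (D.pc_hom i)
    have h2 : e * (n + 1) + (m₂ - e) = m₂ + n * e := by
      have h3 := D.e_le
      have h4 : e * (n + 1) = n * e + e := by ring
      omega
    rw [h2] at h1
    exact h1

/-- The number of the homomorphisms. -/
theorem card_eq [CharZero A] {J : Ideal (MvPolynomial (Fin (ν + 1)) A)}
    {h : MvPolynomial (Fin (ν + 1)) A} {e : ℕ} {c : Fin (ν + 1) → A} {m₂ q s : ℕ}
    {qa : Fin q → MvPolynomial (Fin (ν + 1)) A} {pc : Fin s → MvPolynomial (Fin (ν + 1)) A}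
    (D : Data J h e c m₂ q s qa pc) {t : ℕ}
    (χ : Fin t → (Qo (J ⊔ Ideal.span {h}) c →ₐ[A] A))
    (hN : ∀ a : Qo (J ⊔ Ideal.span {h}) c, Algebra.norm A a = ∏ i, χ i a) : t = q := by
  let B : Module.Basis (Fin q) A (Qo (J ⊔ Ideal.span {h}) c) :=
    Module.Basis.mk D.qa_ind D.qa_span
  have h1 : Module.finrank A (Qo (J ⊔ Ideal.span {h}) c) = q := by
    rw [Module.finrank_eq_card_basis B, Fintype.card_fin]
  have h2 := hN (algebraMap A (Qo (J ⊔ Ideal.span {h}) c) 2)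
  rw [Algebra.norm_algebraMap, h1] at h2
  have h3 : ∀ i, χ i (algebraMap A (Qo (J ⊔ Ideal.span {h}) c) 2) = 2 := by
    intro i
    exact (χ i).commutes 2
  rw [Finset.prod_congr rfl fun i _ => h3 i, Finset.prod_const, Finset.card_univ,
    Fintype.card_fin] at h2
  have h4 : ((2 ^ q : ℕ) : A) = ((2 ^ t : ℕ) : A) := by
    push_cast
    exact h2
  exact (Nat.pow_right_injective le_rfl (Nat.cast_injective h4)).symm

/-- **The inequality at one place.** -/
theorem loc [IsAlgClosed A] [CharZero A] {W : AbsoluteValue A ℝ} (hW : Pl W)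
    {J : Ideal (MvPolynomial (Fin (ν + 1)) A)} {h : MvPolynomial (Fin (ν + 1)) A} {e : ℕ}
    {c : Fin (ν + 1) → A} {m₂ q s : ℕ} {qa : Fin q → MvPolynomial (Fin (ν + 1)) A}
    {pc : Fin s → MvPolynomial (Fin (ν + 1)) A} (D : Data J h e c m₂ q s qa pc)
    (n : ℕ) {t : ℕ} (χ : Fin t → (Qo (J ⊔ Ideal.span {h}) c →ₐ[A] A))
    (P : (Fin (n + 1) × Fin q) ⊕ Fin s → Fin (ν + 1) → A)
    (hN : ∀ a : Qo (J ⊔ Ideal.span {h}) c, Algebra.norm A a = ∏ i, χ i a)
    (hP0 : ∀ κ, P κ ≠ 0) (hPJ : ∀ κ, ∀ g ∈ J, eval (P κ) g = 0)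
    (hdet : (Matrix.of fun κ κ' => eval (P κ) (fam h e qa pc n c κ')).det ≠ 0) :
    Real.log (W (Matrix.of fun κ κ' => eval (P κ) (fam h e qa pc n c κ')).det) +
        ((e * (n * (n + 1) / 2) : ℕ) : ℝ) *
          ∑ i, Real.log (nm W fun a => χ i (cls (J ⊔ Ideal.span {h}) c (X a))) ≤
      ((m₂ + n * e : ℕ) : ℝ) * ∑ κ, Real.log (nm W (P κ)) +
        (((q * (n * (n + 1) / 2) : ℕ) : ℝ) * lp W h +
          ((n + 1 : ℕ) : ℝ) * (s * lp W h + ∑ a, lp W (qa a) + ∑ i, lp W (pc i))) +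
        kap W * (((e * q * (n * (n + 1) / 2) : ℕ) : ℝ) * (Real.log (ν + 1) + ν * Real.log 4) +
          Real.log (Nat.factorial ((n + 1) * q + s))) := by
  classical
  have htq : t = q := card_eq D χ hN
  set u : Fin t → Fin (ν + 1) → A := fun i a => χ i (cls (J ⊔ Ideal.span {h}) c (X a)) with hu
  have hu0 : ∀ i, u i ≠ 0 := fun i => (Pts_of_hom A (χ i)).2.1
  obtain ⟨c', hc1, hc2, hc3⟩ := exists_choice hW u hu0
  obtain ⟨T, hT1, hT2⟩ := Det_change D n c'
  have hlf : ∀ i, χ i (cls (J ⊔ Ideal.span {h}) c (lf A c')) = ∑ a, c' a * u i a := by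
    intro i
    rw [← (Pts_of_hom A (χ i)).2.2 (lf A c')]
    unfold lf
    rw [map_sum]
    refine Finset.sum_congr rfl fun a _ => ?_
    rw [map_mul, aeval_C, aeval_X]
    rfl
  have hE : (Matrix.of fun κ κ' => eval (P κ) (fam h e qa pc n c' κ')) =
      (Matrix.of fun κ κ' => eval (P κ) (fam h e qa pc n c κ')) * T.transpose := by
    ext κ κ'
    rw [Matrix.mul_apply, Matrix.of_apply]
    have h1 := hPJ κ _ (hT1 κ')
    rw [map_sub, map_sum, sub_eq_zero] at h1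
    rw [h1]
    refine Finset.sum_congr rfl fun κ'' _ => ?_
    rw [map_mul, eval_C, Matrix.of_apply, Matrix.transpose_apply, mul_comm]
  have hdet' : (Matrix.of fun κ κ' => eval (P κ) (fam h e qa pc n c' κ')).det =
      (Matrix.of fun κ κ' => eval (P κ) (fam h e qa pc n c κ')).det *
        (∏ i, ∑ a, c' a * u i a) ^ (e * (n * (n + 1) / 2)) := by
    rw [hE, Matrix.det_mul, Matrix.det_transpose, hT2, hN]
    congr 2
    exact Finset.prod_congr rfl fun i _ => hlf i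
  have hdne : (Matrix.of fun κ κ' => eval (P κ) (fam h e qa pc n c' κ')).det ≠ 0 := by
    rw [hdet']
    exact mul_ne_zero hdet (pow_ne_zero _ hc2)
  have h1 := det_le hW P (fam h e qa pc n c') (fun κ => fam_hom D n c' κ)
  have h2 := fam_le W (h := h) (e := e) (qa := qa) (pc := pc) n hc1
  have hlhs : 0 < W (Matrix.of fun κ κ' => eval (P κ) (fam h e qa pc n c' κ')).det :=
    W.pos hdne
  have hfam : 0 < ∏ κ, sz W (fam h e qa pc n c' κ) := by
    by_contra hcon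
    have h3 : 0 ≤ ∏ κ, sz W (fam h e qa pc n c' κ) :=
      Finset.prod_nonneg fun κ _ => sz_nonneg W _
    have h4 : ∏ κ, sz W (fam h e qa pc n c' κ) = 0 := le_antisymm (not_lt.1 hcon) h3
    rw [h4, mul_zero, mul_zero] at h1
    exact absurd h1 (not_le.2 hlhs)
  have hnmP : ∀ κ, 0 < nm W (P κ) := fun κ => nm_pos W (hP0 κ)
  have hprodP : 0 < ∏ κ, nm W (P κ) ^ (m₂ + n * e) :=
    Finset.prod_pos fun κ _ => pow_pos (hnmP κ) _
  have h5 := Real.log_le_log hlhs h1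
  rw [Real.log_mul (Real.exp_pos _).ne' (mul_pos hprodP hfam).ne', Real.log_exp,
    Real.log_mul hprodP.ne' hfam.ne', Real.log_prod fun κ _ => (pow_pos (hnmP κ) _).ne'] at h5
  have h6 : ∑ κ, Real.log (nm W (P κ) ^ (m₂ + n * e)) =
      ((m₂ + n * e : ℕ) : ℝ) * ∑ κ, Real.log (nm W (P κ)) := by
    rw [Finset.mul_sum]
    exact Finset.sum_congr rfl fun κ _ => Real.log_pow _ _
  rw [h6] at h5
  have h7 : Real.log (W (Matrix.of fun κ κ' => eval (P κ) (fam h e qa pc n c' κ')).det) =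
      Real.log (W (Matrix.of fun κ κ' => eval (P κ) (fam h e qa pc n c κ')).det) +
        ((e * (n * (n + 1) / 2) : ℕ) : ℝ) * Real.log (W (∏ i, ∑ a, c' a * u i a)) := by
    rw [hdet', map_mul, map_pow, Real.log_mul (W.pos hdet).ne' (pow_pos (W.pos hc2) _).ne',
      Real.log_pow]
  rw [h7] at h5
  have h8 : Fintype.card ((Fin (n + 1) × Fin q) ⊕ Fin s) = (n + 1) * q + s := by
    simp
  rw [h8] at h5
  have h9 := mul_le_mul_of_nonneg_left hc3
    (Nat.cast_nonneg (α := ℝ) (e * (n * (n + 1) / 2)))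
  have h10 : ((e * (n * (n + 1) / 2) : ℕ) : ℝ) * (kap W * ((t : ℝ) * (ν * Real.log 4))) =
      kap W * (((e * q * (n * (n + 1) / 2) : ℕ) : ℝ) * (ν * Real.log 4)) := by
    have h11 : e * q * (n * (n + 1) / 2) = (e * (n * (n + 1) / 2)) * q := by ring
    rw [htq, h11, Nat.cast_mul (e * (n * (n + 1) / 2)) q]
    ring
  rw [mul_add ((e * (n * (n + 1) / 2) : ℕ) : ℝ), h10] at h9
  have h12 : ∀ i, (fun a => χ i (cls (J ⊔ Ideal.span {h}) c (X a))) = u i := fun i => rfl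
  simp only [h12]
  linarith

end Pool.Agent.Helper45.NZ
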