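import Pool.Agent.Helper30.ZB.Lin
import Pool.Agent.Helper30.ZB.Quot
import Pool.Agent.Helper30.ZB.Norm
import Pool.Agent.Helper45.NZ.Level
import Pool.Agent.Helper45.TNC.Pts

/-!
# Project NZ: the theorem of Zhang and Bezout for curves over the algebraic numbers
-/

set_option autoImplicit false

namespace Pool.Agent.Helper45.NZ

open MvPolynomial
open Pool.Agent.Helper30.ZB

variable {A : Type} [Field A] {ν : ℕ}

/-- Telescoping. -/
theorem telescope {J : Ideal (MvPolynomial (Fin (ν + 1)) A)} (hp : J.IsPrime) (hJ : Hom J)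
    {h : MvPolynomial (Fin (ν + 1)) A} {e : ℕ} (hh : h.IsHomogeneous e) (hhJ : h ∉ J) (m n : ℕ) :
    R J (m + n * e) = R J m + ∑ i ∈ Finset.range n, R (J ⊔ Ideal.span {h}) (m + (i + 1) * e) := by
  induction n with
  | zero => simp
  | succ n ih =>
    have h1 := Dim_add hp hJ hh hhJ (m + n * e)
    rw [show m + n * e + e = m + (n + 1) * e by ring] at h1
    rw [h1, ih, Finset.sum_range_succ]
    ring

/-- The dimensions modulo `h` do not tend to infinity. -/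
theorem bounded {J : Ideal (MvPolynomial (Fin (ν + 1)) A)} (hp : J.IsPrime) (hJ : Hom J)
    {δ c₀ : ℕ} (hδ : ∀ m, R J m ≤ δ * m + c₀) {h : MvPolynomial (Fin (ν + 1)) A} {e : ℕ}
    (he : 0 < e) (hh : h.IsHomogeneous e) (hhJ : h ∉ J) (m₀ : ℕ) :
    ∃ m, m₀ ≤ m ∧ R (J ⊔ Ideal.span {h}) m ≤ e * δ := by
  by_contra hcon
  push Not at hcon
  have h1 : ∀ n, n * (e * δ + 1) ≤ δ * (m₀ + n * e) + c₀ := by
    intro n
    have h2 := telescope hp hJ hh hhJ m₀ n
    have h3 := hδ (m₀ + n * e)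
    have h4 : n * (e * δ + 1) ≤
        ∑ i ∈ Finset.range n, R (J ⊔ Ideal.span {h}) (m₀ + (i + 1) * e) := by
      calc n * (e * δ + 1) = ∑ i ∈ Finset.range n, (e * δ + 1) := by simp
        _ ≤ _ := Finset.sum_le_sum fun i _ => hcon _ (by nlinarith)
    omega
  have h5 := h1 (δ * m₀ + c₀ + 1)
  nlinarith

theorem log_factorial_le {r R₀ : ℕ} (h : r ≤ R₀) :
    Real.log (Nat.factorial r) ≤ R₀ * Real.log R₀ := by
  have h1 : (Nat.factorial r : ℝ) ≤ (R₀ : ℝ) ^ R₀ := by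
    have h2 : Nat.factorial r ≤ R₀ ^ R₀ :=
      (Nat.factorial_le h).trans (Nat.factorial_le_pow R₀)
    exact_mod_cast h2
  have h3 := Real.log_le_log (by exact_mod_cast Nat.factorial_pos r) h1
  rwa [Real.log_pow] at h3

/-- The limit. -/
theorem limit {q s : ℕ} {H L C₃ : ℝ}
    (h : ∀ n : ℕ, ((n * (n + 1) / 2 : ℕ) : ℝ) * H ≤
      ((n * (n + 1) / 2 : ℕ) : ℝ) * L + ((n : ℝ) + 1) * C₃ +
        Real.log (Nat.factorial ((n + 1) * q + s))) : H ≤ L := by
  by_contra hcon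
  push Not at hcon
  set ε : ℝ := H - L with hε
  have hε0 : 0 < ε := by rw [hε]; linarith
  set g : ℝ := ((q + s + 1 : ℕ) : ℝ) with hg
  have hg0 : 0 < g := by
    rw [hg]
    exact_mod_cast Nat.succ_pos _
  have hlo := Real.isLittleO_log_id_atTop.def (c := ε / (8 * g ^ 2)) (by positivity)
  obtain ⟨x₀, hx₀⟩ := Filter.eventually_atTop.1 hlo
  obtain ⟨n, hn⟩ := exists_nat_ge (max (max x₀ (8 * |C₃| / ε + 1)) 1)
  have hn1 : (1 : ℝ) ≤ n := (le_max_right _ _).trans hn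
  have hn2 : x₀ ≤ n := (le_max_left _ _).trans ((le_max_left _ _).trans hn)
  have hn3 : 8 * |C₃| / ε + 1 ≤ n := (le_max_right _ _).trans ((le_max_left _ _).trans hn)
  have hT : ((n * (n + 1) / 2 : ℕ) : ℝ) * 2 = (n : ℝ) * (n + 1) := by
    have h2 : 2 ∣ n * (n + 1) := (Nat.even_mul_succ_self n).two_dvd
    have h3 := Nat.div_mul_cancel h2
    have h4 : (((n * (n + 1) / 2) * 2 : ℕ) : ℝ) = ((n * (n + 1) : ℕ) : ℝ) := by rw [h3]
    rw [Nat.cast_mul] at h4
    rw [Nat.cast_ofNat] at h4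
    rw [h4]
    push_cast
    ring
  set R₀ : ℕ := (n + 1) * (q + s + 1) with hR₀
  have hR0 : 0 < R₀ := Nat.mul_pos (Nat.succ_pos _) (Nat.succ_pos _)
  have hrR : (n + 1) * q + s ≤ R₀ := by
    rw [hR₀]
    nlinarith [Nat.zero_le (n * s)]
  have hRc : (R₀ : ℝ) = ((n : ℝ) + 1) * g := by
    rw [hR₀, hg]
    push_cast
    ring
  have hlog := log_factorial_le hrR
  have hg1 : 1 ≤ g := by
    rw [hg]
    exact_mod_cast Nat.succ_le_succ (Nat.zero_le _)
  have hx : x₀ ≤ (R₀ : ℝ) := by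
    rw [hRc]
    nlinarith
  have h5 := hx₀ _ hx
  have hlogR : 0 ≤ Real.log R₀ := Real.log_natCast_nonneg _
  rw [Real.norm_of_nonneg hlogR, id, Real.norm_of_nonneg (Nat.cast_nonneg _)] at h5
  have h6 : (R₀ : ℝ) * Real.log R₀ ≤ ε * ((n : ℝ) + 1) ^ 2 / 8 := by
    have h7 := mul_le_mul_of_nonneg_left h5 (Nat.cast_nonneg (α := ℝ) R₀)
    refine h7.trans (le_of_eq ?_)
    rw [hRc]
    field_simp
  have h8 := h n
  have h9 : ((n * (n + 1) / 2 : ℕ) : ℝ) * ε ≤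
      ((n : ℝ) + 1) * C₃ + ε * ((n : ℝ) + 1) ^ 2 / 8 := by
    rw [hε]
    linarith
  have h10 : ε * ((n : ℝ) + 1) ^ 2 / 4 ≤ ((n * (n + 1) / 2 : ℕ) : ℝ) * ε := by
    have h11 : ((n : ℝ) + 1) ^ 2 / 4 ≤ ((n * (n + 1) / 2 : ℕ) : ℝ) := by nlinarith
    nlinarith
  have h12 : C₃ ≤ |C₃| := le_abs_self _
  have h13 : ε * ((n : ℝ) + 1) / 8 ≤ |C₃| := by
    have h14 : ((n : ℝ) + 1) * (ε * ((n : ℝ) + 1) / 8) ≤ ((n : ℝ) + 1) * |C₃| := by
      nlinarith
    exact le_of_mul_le_mul_left h14 (by linarith)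
  have h15 : 8 * |C₃| / ε + 1 ≤ (n : ℝ) := hn3
  have h16 : 8 * |C₃| / ε < (n : ℝ) + 1 := by linarith
  rw [div_lt_iff₀ hε0] at h16
  nlinarith

/-- **The theorem of Zhang and Bezout** for curves over the algebraic numbers: `J` is the
homogeneous prime ideal of a curve of degree at most `δ`, `h` a form of degree `e` which is not
zero on the curve. If the points of height at most `C₁` are dense in the curve, then the height of
every zero `y` of `h` on the curve is at most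
`δ (2 e C₁ + Cp h + e (log (ν + 1) + ν log 4))`. -/
theorem zhang_bezout_number [IsAlgClosed A] [CharZero A] [Algebra.IsAlgebraic ℚ A]
    {J : Ideal (MvPolynomial (Fin (ν + 1)) A)} (hp : J.IsPrime) (hJ : Hom J) {δ c₀ : ℕ}
    (hδ : ∀ m, R J m ≤ δ * m + c₀) {h : MvPolynomial (Fin (ν + 1)) A} {e : ℕ} (he : 0 < e)
    (hh : h.IsHomogeneous e) (hhJ : h ∉ J) {C₁ : ℝ} (hC₁ : 0 ≤ C₁)
    {S : Set (Fin (ν + 1) → A)} (hS0 : ∀ P ∈ S, P ≠ 0)
    (hSJ : ∀ P ∈ S, ∀ g ∈ J, eval P g = 0)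
    (hdense : ∀ (g : MvPolynomial (Fin (ν + 1)) A) (m : ℕ), g.IsHomogeneous m → g ∉ J →
      ∃ P ∈ S, eval P g ≠ 0)
    (hsmall : ∀ P ∈ S, aht P ≤ C₁)
    {y : Fin (ν + 1) → A} (hy : y ≠ 0) (hyJ : ∀ g ∈ J, eval y g = 0) (hyh : eval y h = 0) :
    aht y ≤ δ * (2 * e * C₁ + Cp h + e * (Real.log (ν + 1) + ν * Real.log 4)) := by
  classical
  have : Infinite A := IsAlgClosed.instInfinite
  set I : Ideal (MvPolynomial (Fin (ν + 1)) A) := J ⊔ Ideal.span {h} with hI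
  have hIh : Hom I := Dim_hom_sup hJ hh
  obtain ⟨c, m₁, hmiss⟩ := Lin_exists (k := A) (I := I) (B := e * δ)
    (fun m₀ => bounded hp hJ hδ he hh hhJ m₀)
  obtain ⟨hfin, m₂', hm₂', hmain⟩ := Quot_main hIh hmiss
  set q : ℕ := Module.finrank A (Qo I c) with hq
  set m₂ : ℕ := m₂' + e with hm₂
  have hqle : q ≤ e * δ := by
    obtain ⟨m, hm, h1⟩ := bounded hp hJ hδ he hh hhJ m₂'
    rw [(hmain m hm).2.2] at h1
    exact h1
  -- the bases
  have hb : ∃ qa : Fin q → MvPolynomial (Fin (ν + 1)) A, (∀ a, (qa a).IsHomogeneous m₂) ∧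
      ⊤ ≤ Submodule.span A (Set.range fun a => cls I c (qa a)) ∧
      LinearIndependent A fun a => cls I c (qa a) := by
    let B := Module.finBasis A (Qo I c)
    choose qa hqa1 hqa2 using fun a => (hmain m₂ (by omega)).1 (B a)
    refine ⟨qa, hqa1, ?_, ?_⟩
    · have h1 : (fun a => cls I c (qa a)) = B := funext hqa2
      rw [h1, B.span_eq]
    · have h1 : (fun a => cls I c (qa a)) = B := funext hqa2
      rw [h1]
      exact B.linearIndependent
  obtain ⟨qa, hqa1, hqa2, hqa3⟩ := hb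
  have hpc : ∃ (s : ℕ) (p : Fin s → MvPolynomial (Fin (ν + 1)) A),
      (∀ i, (p i).IsHomogeneous (m₂ - e)) ∧
      (∀ g : MvPolynomial (Fin (ν + 1)) A, g.IsHomogeneous (m₂ - e) →
        ∃ a : Fin s → A, g - ∑ i, C (a i) * p i ∈ J) ∧
      ∀ a : Fin s → A, ∑ i, C (a i) * p i ∈ J → a = 0 := ⟨_, Dim_exists_basis J (m₂ - e)⟩
  obtain ⟨s, pc, hpc1, hpc2, hpc3⟩ := hpc
  have D : Data J h e c m₂ q s qa pc :=
    { prime := hp
      hom := hJ
      h_hom := hh
      e_pos := he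
      e_le := by omega
      h_not := hhJ
      misses := fun m hm => hmiss m (by omega)
      qa_hom := hqa1
      qa_span := hqa2
      qa_ind := hqa3
      qa_gen := fun m hm p hp h0 => (hmain m (by omega)).2.1 p hp h0
      pc_hom := hpc1
      pc_span := hpc2
      pc_ind := hpc3 }
  -- the point `y`
  have hyI : ∀ g ∈ I, aeval y g = 0 := by
    intro g hg
    obtain ⟨g₁, hg₁, g₂, hg₂, rfl⟩ := Submodule.mem_sup.1 hg
    obtain ⟨w, rfl⟩ := Ideal.mem_span_singleton'.1 hg₂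
    have h1 : aeval y g₁ = 0 := hyJ g₁ hg₁
    have h2 : aeval y h = 0 := hyh
    rw [map_add, h1, map_mul, h2, mul_zero, add_zero]
  obtain ⟨ψ, a, ha, hψ⟩ := Pts_zero hIh hmiss A y hy hyI
  -- the homomorphisms
  obtain ⟨t, χ, hN, hχ⟩ := norm_eq_prod (K := A) (A := Qo I c) (Ω := A)
  have hN' : ∀ a : Qo I c, Algebra.norm A a = ∏ i, χ i a := hN
  obtain ⟨i₀, hi₀⟩ := hχ ψ
  have hyu : aht (fun b => χ i₀ (cls I c (X b))) = aht y := by
    rw [hψ, hi₀]
    exact (aht_smul ha _).symm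
  have hsum : aht y ≤ ∑ i, aht (fun b => χ i (cls I c (X b))) := by
    rw [← hyu]
    exact Finset.single_le_sum (f := fun i => aht (fun b => χ i (cls I c (X b))))
      (fun i _ => aht_nonneg _) (Finset.mem_univ i₀)
  set Λ : ℝ := Real.log (ν + 1) + ν * Real.log 4 with hΛ
  have hΛ0 : 0 ≤ Λ := by
    rw [hΛ]
    have h1 : 0 ≤ Real.log ((ν : ℝ) + 1) := Real.log_nonneg (by
      have : (0 : ℝ) ≤ ν := Nat.cast_nonneg _
      linarith)
    have h2 : 0 ≤ Real.log 4 := Real.log_nonneg (by norm_num)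
    positivity
  set C₂ : ℝ := s * Cp h + ∑ a, Cp (qa a) + ∑ i, Cp (pc i) with hC₂
  have hCh : 0 ≤ Cp h := Cp_nonneg h
  have hineq : ∀ n : ℕ, ((e * (n * (n + 1) / 2) : ℕ) : ℝ) * aht y ≤
      ((m₂ + n * e : ℕ) : ℝ) * ((((n + 1) * q + s : ℕ) : ℝ) * C₁) +
        (((q * (n * (n + 1) / 2) : ℕ) : ℝ) * Cp h + ((n + 1 : ℕ) : ℝ) * C₂) +
        (((e * q * (n * (n + 1) / 2) : ℕ) : ℝ) * Λ +
          Real.log (Nat.factorial ((n + 1) * q + s))) := by
    intro n
    obtain ⟨P, hPS, hPdet⟩ := Pool.Agent.Helper45.TNC.exists_det_ne_zero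
      (fun (κ : (Fin (n + 1) × Fin q) ⊕ Fin s) (P : Fin (ν + 1) → A) =>
        eval P (fam h e qa pc n c κ)) S (by
        intro b hb
        refine Det_ind D n b ?_
        by_contra hnot
        obtain ⟨P, hP, hP1⟩ := hdense _ (m₂ + n * e) (IsHomogeneous.sum _ _ _ fun κ _ => by
          have h1 := (isHomogeneous_C (Fin (ν + 1)) (b κ)).mul (fam_hom D n c κ)
          rwa [zero_add] at h1) hnot
        apply hP1
        rw [map_sum, ← hb P hP]
        exact Finset.sum_congr rfl fun κ _ => by rw [map_mul, eval_C])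
    have hdet : (Matrix.of fun κ κ' => eval (P κ) (fam h e qa pc n c κ')).det ≠ 0 := by
      rw [← Matrix.det_transpose]
      exact hPdet
    have h1 := level D n χ P hN' (fun κ => hS0 _ (hPS κ)) (fun κ => hSJ _ (hPS κ)) hdet
    have h2 : ∑ κ, aht (P κ) ≤ (((n + 1) * q + s : ℕ) : ℝ) * C₁ := by
      calc ∑ κ, aht (P κ) ≤ ∑ κ : (Fin (n + 1) × Fin q) ⊕ Fin s, C₁ :=
            Finset.sum_le_sum fun κ _ => hsmall _ (hPS κ)
        _ = _ := by
          rw [Finset.sum_const, Finset.card_univ, Fintype.card_sum, Fintype.card_prod,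
            Fintype.card_fin, Fintype.card_fin, Fintype.card_fin, nsmul_eq_mul]
    have h3 := mul_le_mul_of_nonneg_left hsum
      (Nat.cast_nonneg (α := ℝ) (e * (n * (n + 1) / 2)))
    have h4 := mul_le_mul_of_nonneg_left h2 (Nat.cast_nonneg (α := ℝ) (m₂ + n * e))
    refine h3.trans (h1.trans ?_)
    exact add_le_add (add_le_add h4 le_rfl) le_rfl
  -- the limit
  have hlim : (e : ℝ) * aht y ≤ 2 * e * q * C₁ + q * Cp h + e * q * Λ := by
    refine limit (q := q) (s := s) (C₃ := (m₂ * (q + s) + e * s) * C₁ + |C₂|) fun n => ?_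
    have h1 := hineq n
    have hT : ((n * (n + 1) / 2 : ℕ) : ℝ) * 2 = (n : ℝ) * (n + 1) := by
      have h2 : 2 ∣ n * (n + 1) := (Nat.even_mul_succ_self n).two_dvd
      have h3 := Nat.div_mul_cancel h2
      have h4 : (((n * (n + 1) / 2) * 2 : ℕ) : ℝ) = ((n * (n + 1) : ℕ) : ℝ) := by rw [h3]
      rw [Nat.cast_mul, Nat.cast_ofNat] at h4
      rw [h4]
      push_cast
      ring
    set T : ℕ := n * (n + 1) / 2 with hTd
    have hnn : (0 : ℝ) ≤ n := Nat.cast_nonneg _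
    have hqq : (0 : ℝ) ≤ q := Nat.cast_nonneg _
    have hss : (0 : ℝ) ≤ s := Nat.cast_nonneg _
    have hee : (0 : ℝ) ≤ e := Nat.cast_nonneg _
    have hmm : (0 : ℝ) ≤ m₂ := Nat.cast_nonneg _
    have h5 : ((m₂ + n * e : ℕ) : ℝ) * ((((n + 1) * q + s : ℕ) : ℝ) * C₁) ≤
        (T : ℝ) * (2 * e * q * C₁) + ((n : ℝ) + 1) * ((m₂ * (q + s) + e * s) * C₁) := by
      have h6 : (T : ℝ) * (2 * e * q * C₁) = (n : ℝ) * (n + 1) * e * q * C₁ := by
        rw [← hT]; ring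
      rw [h6]
      push_cast
      have h7 : 0 ≤ (m₂ : ℝ) * s * n * C₁ := by positivity
      have h8 : 0 ≤ (e : ℝ) * s * C₁ := by positivity
      nlinarith
    have h9 : ((n + 1 : ℕ) : ℝ) * C₂ ≤ ((n : ℝ) + 1) * |C₂| := by
      push_cast
      exact mul_le_mul_of_nonneg_left (le_abs_self _) (by linarith)
    push_cast at h1 h5 h9 ⊢
    linarith
  have he' : (0 : ℝ) < e := by exact_mod_cast he
  have hq' : (q : ℝ) ≤ e * δ := by exact_mod_cast hqle
  have h10 : (e : ℝ) * aht y ≤ (e : ℝ) * (δ * (2 * e * C₁ + Cp h + e * Λ)) := by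
    refine hlim.trans ?_
    have h11 : (q : ℝ) * (2 * e * C₁ + Cp h + e * Λ) ≤
        (e * δ) * (2 * e * C₁ + Cp h + e * Λ) :=
      mul_le_mul_of_nonneg_right hq' (by positivity)
    linarith
  exact le_of_mul_le_mul_left h10 he'

end Pool.Agent.Helper45.NZ
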