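import Pool.Agent.Helper45.NZ.Defs
import Pool.Agent.Helper88.ZN.Cn

/-!
# Project NZ: the size of polynomials
-/

set_option autoImplicit false

namespace Pool.Agent.Helper45.NZ

open MvPolynomial
open Pool.Agent.Helper29.TG (nm le_nm nm_nonneg)
open Pool.Agent.Helper30.ZB (lf)
open Pool.Agent.Helper88.ZN (n1 nx n1_nonneg nx_nonneg n1_eq_sum coeff_le_nx nx_le n1_sum
  n1_monomial n1_mul nx_mul sum_le_of_na)

variable {A : Type} [Field A] {ν : ℕ} {W : AbsoluteValue A ℝ}

theorem sz_na {σ : Type} {W : AbsoluteValue A ℝ} (h : IsNonarchimedean W)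
    (G : MvPolynomial σ A) : sz W G = nx W G := by
  unfold sz nx
  rw [if_pos h]

theorem sz_arch {σ : Type} {W : AbsoluteValue A ℝ} (h : ¬ IsNonarchimedean W)
    (G : MvPolynomial σ A) : sz W G = n1 W G := by
  unfold sz n1
  rw [if_neg h]

theorem kap_nonneg (W : AbsoluteValue A ℝ) : 0 ≤ kap W := by
  unfold kap
  split_ifs
  · exact le_rfl
  · exact zero_le_one

theorem sz_nonneg {σ : Type} (W : AbsoluteValue A ℝ) (G : MvPolynomial σ A) : 0 ≤ sz W G := by
  by_cases h : IsNonarchimedean W
  · rw [sz_na h]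
    exact nx_nonneg W G
  · rw [sz_arch h]
    exact n1_nonneg W G

theorem coeff_le_sz {σ : Type} (W : AbsoluteValue A ℝ) (G : MvPolynomial σ A) (m : σ →₀ ℕ) :
    W (G.coeff m) ≤ sz W G := by
  by_cases h : IsNonarchimedean W
  · rw [sz_na h]
    exact coeff_le_nx W G m
  · rw [sz_arch h]
    by_cases hm : m ∈ G.support
    · unfold n1
      exact Finset.single_le_sum (f := fun m => W (G.coeff m)) (fun _ _ => W.nonneg _) hm
    · rw [notMem_support_iff.1 hm, map_zero]
      exact n1_nonneg W G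

theorem sz_pos {σ : Type} (W : AbsoluteValue A ℝ) {G : MvPolynomial σ A} (hG : G ≠ 0) :
    0 < sz W G := by
  obtain ⟨m, hm⟩ := MvPolynomial.ne_zero_iff.1 hG
  exact (W.pos hm).trans_le (coeff_le_sz W G m)

/-- The size of a value. -/
theorem eval_le_sz (W : AbsoluteValue A ℝ) {G : MvPolynomial (Fin (ν + 1)) A} {m : ℕ}
    (hG : G.IsHomogeneous m) (P : Fin (ν + 1) → A) : W (eval P G) ≤ sz W G * nm W P ^ m := by
  classical
  have hmon : ∀ s ∈ G.support, W (G.coeff s * ∏ i ∈ s.support, P i ^ s i) ≤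
      W (G.coeff s) * nm W P ^ m := by
    intro s hs
    rw [map_mul, map_prod]
    refine mul_le_mul_of_nonneg_left ?_ (W.nonneg _)
    rw [hG.degree_eq_sum_deg_support hs, ← Finset.prod_pow_eq_pow_sum]
    refine Finset.prod_le_prod (fun _ _ => W.nonneg _) fun i _ => ?_
    rw [map_pow]
    exact pow_le_pow_left₀ (W.nonneg _) (le_nm _ P i) _
  rw [eval_eq]
  by_cases h : IsNonarchimedean W
  · rw [sz_na h]
    refine sum_le_of_na h _ _ (mul_nonneg (nx_nonneg W G)
      (pow_nonneg (nm_nonneg _ _) _)) fun s hs => (hmon s hs).trans ?_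
    exact mul_le_mul_of_nonneg_right (coeff_le_nx W G s) (pow_nonneg (nm_nonneg _ _) _)
  · rw [sz_arch h]
    refine (W.sum_le _ _).trans ?_
    unfold n1
    rw [Finset.sum_mul]
    exact Finset.sum_le_sum hmon

theorem sz_mul_le {σ : Type} (W : AbsoluteValue A ℝ) (G H : MvPolynomial σ A) :
    sz W (G * H) ≤ sz W G * sz W H := by
  by_cases h : IsNonarchimedean W
  · rw [sz_na h, sz_na h, sz_na h]
    exact nx_mul h G H
  · rw [sz_arch h, sz_arch h, sz_arch h]
    exact n1_mul W G H

theorem sz_one_le {σ : Type} (W : AbsoluteValue A ℝ) : sz W (1 : MvPolynomial σ A) ≤ 1 := by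
  classical
  by_cases h : IsNonarchimedean W
  · rw [sz_na h]
    refine nx_le zero_le_one fun m => ?_
    rw [coeff_one]
    split_ifs
    · rw [W.map_one]
    · rw [map_zero]
      exact zero_le_one
  · rw [sz_arch h]
    have h1 := n1_monomial W (0 : σ →₀ ℕ) (1 : A)
    rw [W.map_one] at h1
    exact h1.le

theorem sz_pow_le {σ : Type} (W : AbsoluteValue A ℝ) (G : MvPolynomial σ A) (n : ℕ) :
    sz W (G ^ n) ≤ sz W G ^ n := by
  induction n with
  | zero =>
    rw [pow_zero, pow_zero]
    exact sz_one_le W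
  | succ n ih =>
    rw [pow_succ, pow_succ]
    exact (sz_mul_le W _ _).trans (mul_le_mul_of_nonneg_right ih (sz_nonneg W G))

/-- The size of a linear form with small coefficients. -/
theorem sz_lf_le (W : AbsoluteValue A ℝ) {c : Fin (ν + 1) → A} (hc : ∀ a, W (c a) ≤ 1) :
    sz W (lf A c) ≤ Real.exp (kap W * Real.log (ν + 1)) := by
  classical
  have hterm : ∀ i : Fin (ν + 1), (C (algebraMap A A (c i)) * X i :
      MvPolynomial (Fin (ν + 1)) A) = monomial (Finsupp.single i 1) (c i) := by
    intro i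
    rw [Algebra.algebraMap_self_apply, C_mul_X_eq_monomial]
  by_cases h : IsNonarchimedean W
  · rw [sz_na h]
    unfold kap
    rw [if_pos h, zero_mul, Real.exp_zero]
    refine nx_le zero_le_one fun m => ?_
    unfold lf
    rw [coeff_sum]
    refine sum_le_of_na h _ _ zero_le_one fun i _ => ?_
    rw [hterm, coeff_monomial]
    split_ifs
    · exact hc i
    · rw [map_zero]
      exact zero_le_one
  · rw [sz_arch h]
    unfold kap
    rw [if_neg h, one_mul, Real.exp_log (by positivity)]
    unfold lf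
    refine (n1_sum W _ _).trans ?_
    have h1 : ∀ i ∈ (Finset.univ : Finset (Fin (ν + 1))),
        n1 W (C (algebraMap A A (c i)) * X i : MvPolynomial (Fin (ν + 1)) A) ≤ 1 := by
      intro i _
      rw [hterm, n1_monomial]
      exact hc i
    refine (Finset.sum_le_sum h1).trans ?_
    simp

end Pool.Agent.Helper45.NZ
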