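import Pool.Agent.Helper45.NZ.Defs

/-!
# Project NZ: values at roots of unity

For some root of unity `ζ` of order `n` the absolute value of the value is at least the maximum of
the absolute values of the coefficients (coefficients are averages of values over the roots of
unity of order `n > deg P`; `n = deg P + 1` or `n = deg P + 2` is a unit for nonarchimedean `W`).
-/

set_option autoImplicit false

namespace Pool.Agent.Helper45.NZ

open Pool.Agent.Helper29.TG (nm)

variable {A : Type} [Field A] [IsAlgClosed A] [CharZero A] {W : AbsoluteValue A ℝ}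

theorem ZetaA_prim {n : ℕ} (hn : 0 < n) : ∃ z : A, IsPrimitiveRoot z n := by
  have hz : NeZero (n : A) := ⟨Nat.cast_ne_zero.2 hn.ne'⟩
  obtain ⟨z, hz'⟩ := IsAlgClosed.exists_root (Polynomial.cyclotomic n A) (by
    rw [Polynomial.degree_cyclotomic]
    exact_mod_cast (Nat.totient_pos.2 hn).ne')
  exact ⟨z, Polynomial.isRoot_cyclotomic_iff.1 hz'⟩

omit [IsAlgClosed A] [CharZero A] in
theorem ZetaA_sum {n : ℕ} {z : A} (hz : IsPrimitiveRoot z n) (P : Polynomial A)
    (hP : P.natDegree < n) {j : ℕ} (hj : j < n) :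
    ∑ i ∈ Finset.range n, P.eval (z ^ i) * ((z ^ i) ^ j)⁻¹ = n * P.coeff j := by
  have hz0 : z ≠ 0 := hz.ne_zero (by omega)
  have h1 : ∀ i, P.eval (z ^ i) * ((z ^ i) ^ j)⁻¹ =
      ∑ k ∈ Finset.range n, P.coeff k * (z ^ k * (z ^ j)⁻¹) ^ i := by
    intro i
    rw [Polynomial.eval_eq_sum_range' hP, Finset.sum_mul]
    refine Finset.sum_congr rfl fun k _ => ?_
    rw [mul_pow, inv_pow, ← pow_mul, ← pow_mul, ← pow_mul, ← pow_mul, mul_comm i k, mul_comm i j]
    ring
  simp only [h1]
  rw [Finset.sum_comm]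
  have h2 : ∀ k ∈ Finset.range n, ∑ i ∈ Finset.range n, P.coeff k * (z ^ k * (z ^ j)⁻¹) ^ i =
      if k = j then (n : A) * P.coeff j else 0 := by
    intro k hk
    rw [← Finset.mul_sum]
    split_ifs with h
    · rw [h, mul_inv_cancel₀ (pow_ne_zero j hz0)]
      simp
      ring
    · have h3 : z ^ k * (z ^ j)⁻¹ ≠ 1 := by
        intro h4
        have h5 : z ^ k = z ^ j := by
          field_simp at h4
          exact h4
        exact h (hz.pow_inj (Finset.mem_range.1 hk) hj h5)
      have h6 := geom_sum_mul (z ^ k * (z ^ j)⁻¹) n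
      have h7 : (z ^ k * (z ^ j)⁻¹) ^ n = 1 := by
        rw [mul_pow, inv_pow, ← pow_mul, ← pow_mul, mul_comm k n, mul_comm j n, pow_mul, pow_mul,
          hz.pow_eq_one, one_pow, one_pow, inv_one, mul_one]
      rw [h7, sub_self] at h6
      rcases mul_eq_zero.1 h6 with h8 | h8
      · rw [h8, mul_zero]
      · exact absurd (sub_eq_zero.1 h8) h3
  rw [Finset.sum_congr rfl h2, Finset.sum_ite_eq', if_pos (Finset.mem_range.2 hj)]

omit [IsAlgClosed A] [CharZero A] in
theorem ZetaA_one {n : ℕ} (hn : 0 < n) {z : A} (hz : z ^ n = 1) : W z = 1 := by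
  have h1 : W z ^ n = 1 := by rw [← map_pow, hz, map_one]
  exact (pow_eq_one_iff_of_nonneg (W.nonneg z) hn.ne').1 h1

omit [IsAlgClosed A] [CharZero A] in
theorem ZetaA_na (hW : IsNonarchimedean W) {s : Finset ℕ} {f : ℕ → A} {M : ℝ} (hM : 0 ≤ M)
    (h : ∀ i ∈ s, W (f i) ≤ M) : W (∑ i ∈ s, f i) ≤ M := by
  classical
  induction s using Finset.induction_on with
  | empty => simpa using hM
  | insert a s ha ih =>
    rw [Finset.sum_insert ha]
    exact (hW _ _).trans (max_le (h a (Finset.mem_insert_self a s))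
      (ih fun i hi => h i (Finset.mem_insert_of_mem hi)))

omit [IsAlgClosed A] [CharZero A] in
theorem ZetaA_nat (hW : IsNonarchimedean W) (N : ℕ) : W (N : A) = 1 ∨ W ((N + 1 : ℕ) : A) = 1 := by
  have hle : ∀ n : ℕ, W (n : A) ≤ 1 := by
    intro n
    have h1 : (n : A) = ∑ _i ∈ Finset.range n, (1 : A) := by simp
    rw [h1]
    exact ZetaA_na hW zero_le_one fun i _ => (map_one W).le
  have h2 := hW ((N + 1 : ℕ) : A) (-(N : A))
  have h3 : ((N + 1 : ℕ) : A) + -(N : A) = 1 := by push_cast; ring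
  rw [h3, map_one, map_neg_eq_map] at h2
  rcases le_max_iff.1 h2 with h | h
  · exact Or.inr (le_antisymm (hle _) h)
  · exact Or.inl (le_antisymm (hle _) h)

/-- The maximum of the absolute values of the coefficients is attained at a root of unity. -/
theorem exists_zeta (hW : Pl W) (P : Polynomial A) :
    ∃ ζ : A, W ζ = 1 ∧ ∀ j, W (P.coeff j) ≤ W (P.eval ζ) := by
  have hn : ∃ n : ℕ, P.natDegree < n ∧ ∀ (f : ℕ → A) (M : ℝ) (c : A), 0 ≤ M →
      (∀ i ∈ Finset.range n, W (f i) ≤ M) → ∑ i ∈ Finset.range n, f i = n * c → W c ≤ M := by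
    rcases hW with hW | ⟨τ, hτ⟩
    · have key : ∀ n : ℕ, P.natDegree < n → W (n : A) = 1 → ∃ n : ℕ, P.natDegree < n ∧
          ∀ (f : ℕ → A) (M : ℝ) (c : A), 0 ≤ M →
          (∀ i ∈ Finset.range n, W (f i) ≤ M) → ∑ i ∈ Finset.range n, f i = n * c →
            W c ≤ M := by
        intro n h1 h2
        refine ⟨n, h1, fun f M c hM hf hs => ?_⟩
        have h3 := ZetaA_na hW hM hf
        rwa [hs, map_mul, h2, one_mul] at h3
      rcases ZetaA_nat hW (P.natDegree + 1) with h | h
      · exact key _ (by omega) h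
      · exact key _ (by omega) h
    · refine ⟨P.natDegree + 1, by omega, fun f M c _ hf hs => ?_⟩
      have h1 := W.sum_le (Finset.range (P.natDegree + 1)) f
      have h2 := h1.trans (Finset.sum_le_card_nsmul _ _ M hf)
      rw [hs, map_mul, Finset.card_range, nsmul_eq_mul, hτ ((P.natDegree + 1 : ℕ) : A),
        map_natCast, Complex.norm_natCast] at h2
      exact le_of_mul_le_mul_left h2 (by positivity)
  obtain ⟨n, h1, h2⟩ := hn
  have hn0 : 0 < n := by omega
  obtain ⟨z, hz⟩ := ZetaA_prim (A := A) hn0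
  obtain ⟨i₀, hi₀, hmax⟩ := Finset.exists_max_image (Finset.range n)
    (fun i => W (P.eval (z ^ i))) ⟨0, Finset.mem_range.2 hn0⟩
  have hzi : ∀ i, W (z ^ i) = 1 := fun i => by
    rw [map_pow, ZetaA_one hn0 hz.pow_eq_one, one_pow]
  refine ⟨z ^ i₀, hzi i₀, fun j => ?_⟩
  by_cases hj : j < n
  · refine h2 _ _ _ (W.nonneg _) (fun i hi => ?_) (ZetaA_sum hz P h1 hj)
    rw [map_mul, map_inv₀, map_pow, hzi i, one_pow, inv_one, mul_one]
    exact hmax i hi
  · rw [Polynomial.coeff_eq_zero_of_natDegree_lt (by omega), map_zero]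
    exact W.nonneg _

end Pool.Agent.Helper45.NZ
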